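import Pool.Agent.P.MP_bc3e0b_gt.Caps.Marginal

set_option autoImplicit false

namespace Pool.Agent.P.MP_bc3e0b_gt.Caps

section

/-! The key inequality in coordinates, second part. -/

open MeasureTheory Set Filter Topology Matrix

variable {m : ℕ} {ι : Type} [Fintype ι]

namespace Dat

variable (D : Dat m) (k j : ℝ) (w : ι → Fin (m + 1) → ℝ) (α β : ℝ)

/-- The convex exponent. -/
noncomputable def V (p : ℝ × ℝ) (η : Fin m → ℝ) : ℝ :=
  om w α β (D.xi (p.1 + p.2) η) + Real.exp (k * D.Q p η - j)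

/-- Its derivative in the direction `d`. -/
noncomputable def U (d p : ℝ × ℝ) (η : Fin m → ℝ) : ℝ :=
  (d.1 + d.2) * om' w α β D.e (D.xi (p.1 + p.2) η) + k * Real.exp (k * D.Q p η - j) * D.Q' d p η

theorem exp_V (p : ℝ × ℝ) (η : Fin m → ℝ) : Real.exp (-D.V k j w α β p η)
    = Real.exp (-om w α β (D.xi (p.1 + p.2) η)) * gu k j (D.Q p η) := by
  rw [V, neg_add, Real.exp_add, gu]

theorem U_exp (d p : ℝ × ℝ) (η : Fin m → ℝ) :
    D.U k j w α β d p η * Real.exp (-D.V k j w α β p η)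
      = (d.1 + d.2) * (om' w α β D.e (D.xi (p.1 + p.2) η)
        * (Real.exp (-om w α β (D.xi (p.1 + p.2) η)) * gu k j (D.Q p η)))
      + D.Q' d p η * (Real.exp (-om w α β (D.xi (p.1 + p.2) η)) * gd k j (D.Q p η)) := by
  rw [exp_V, U, gd]
  ring

theorem hasDerivAt_V (p d : ℝ × ℝ) (η : Fin m → ℝ) :
    HasDerivAt (fun θ : ℝ => D.V k j w α β (p + θ • d) η) (D.U k j w α β d p η) 0 := by
  set X := D.xi (p.1 + p.2) η with hX
  have e : ∀ θ : ℝ, D.xi ((p + θ • d).1 + (p + θ • d).2) η = X + (θ * (d.1 + d.2)) • D.e := by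
    intro θ
    rw [hX, ← xi_add]
    congr 1
    simp only [Prod.fst_add, Prod.snd_add, Prod.smul_fst, Prod.smul_snd, smul_eq_mul]
    ring
  have lin : ∀ a b : ℝ, HasDerivAt (fun θ : ℝ => a + θ * b) b 0 := fun a b => by
    simpa using ((hasDerivAt_id' (0 : ℝ)).mul_const b).const_add a
  have h1 : HasDerivAt (fun θ : ℝ => om w α β (X + (θ * (d.1 + d.2)) • D.e))
      ((d.1 + d.2) * om' w α β D.e X) 0 := by
    rw [om', Finset.mul_sum]
    refine HasDerivAt.fun_sum fun i _ => ?_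
    have := (lin (α * (w i ⬝ᵥ X) - β) (α * (d.1 + d.2) * (w i ⬝ᵥ D.e))).exp
    refine (this.congr_deriv ?_).congr_of_eventuallyEq (Eventually.of_forall fun θ => ?_)
    · simp only [zero_mul, add_zero]
      ring
    · simp only [dotProduct_add, dotProduct_smul, smul_eq_mul]
      congr 1
      ring
  have h2 : HasDerivAt (fun θ : ℝ => D.Q (p + θ • d) η) (D.Q' d p η) 0 := by
    have := (lin (D.Q p η) (D.Q' d p η)).fun_add (((hasDerivAt_id' (0 : ℝ)).fun_pow 2).mul_const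
      (((-(d.1 + d.2) * (D.v1 ⬝ᵥ D.e) - d.1) ^ 2 + (d.1 + d.2) ^ 2 * (D.e ⬝ᵥ D.e)) / 2
        + D.γ * d.1 * d.2))
    refine (this.congr_deriv (by simp)).congr_of_eventuallyEq (Eventually.of_forall fun θ => ?_)
    simp only [Q, Q', e, ← hX]
    simp only [L1, dotProduct_add, add_dotProduct, dotProduct_smul,
      smul_dotProduct, smul_eq_mul, dotProduct_comm X D.e, Prod.fst_add, Prod.snd_add,
      Prod.smul_fst, Prod.smul_snd]
    ring
  have h3 := h1.fun_add ((h2.const_mul k).sub_const j).exp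
  simp only [V, e]
  refine h3.congr_deriv ?_
  simp only [zero_smul, add_zero, U, ← hX]
  ring

theorem Q_conv (h : 0 < D.ν)
    (hc : ∀ z X, 0 ≤ (z ^ 2 + X ⬝ᵥ X) / 2 + D.γ * (D.v1 ⬝ᵥ X + z) * (D.v2 ⬝ᵥ X - z))
    (p p' : ℝ × ℝ) (η η' : Fin m → ℝ) {θ : ℝ} (h0 : 0 ≤ θ) (h1 : θ ≤ 1) :
    D.Q ((1 - θ) • p + θ • p') ((1 - θ) • η + θ • η') ≤ (1 - θ) * D.Q p η + θ * D.Q p' η' := by
  have e : ((1 - θ) • p + θ • p').1 + ((1 - θ) • p + θ • p').2
      = (1 - θ) * (p.1 + p.2) + θ * (p'.1 + p'.2) := by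
    simp only [Prod.fst_add, Prod.snd_add, Prod.smul_fst, Prod.smul_snd, smul_eq_mul]
    ring
  have w1 := D.width h (p.1 + p.2) η
  have w2 := D.width h (p'.1 + p'.2) η'
  rw [Q, Q, Q, e, xi_comb]
  generalize D.xi (p.1 + p.2) η = X at w1 ⊢
  generalize D.xi (p'.1 + p'.2) η' = X' at w2 ⊢
  have h2 := mul_nonneg (mul_nonneg h0 (sub_nonneg.2 h1))
    (hc (D.L1 X - p.1 - (D.L1 X' - p'.1)) (X - X'))
  simp only [L1, L2] at w1 w2
  have e1 : D.v2 ⬝ᵥ X = D.n1 + D.n2 - D.v1 ⬝ᵥ X - p.1 - p.2 := by linarith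
  have e2 : D.v2 ⬝ᵥ X' = D.n1 + D.n2 - D.v1 ⬝ᵥ X' - p'.1 - p'.2 := by linarith
  simp only [L1, dotProduct_add, add_dotProduct, dotProduct_smul, smul_dotProduct, smul_eq_mul,
    dotProduct_sub, sub_dotProduct, dotProduct_comm X' X, Prod.fst_add, Prod.snd_add,
    Prod.smul_fst, Prod.smul_snd, e1, e2] at h2 ⊢
  linarith

theorem exp_Q_le {k : ℝ} (hk : 0 < k) {R : ℝ} {p : ℝ × ℝ} (hp : ‖p‖ ≤ R) (η : Fin m → ℝ) :
    Real.exp (-(k * D.Q p η)) ≤ Real.exp (k * (|D.γ| * R ^ 2))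
      * Real.exp (-(k * ((D.L1 (D.xi (p.1 + p.2) η) - p.1) ^ 2 / 2)))
      * Real.exp (-(k * (D.xi (p.1 + p.2) η 0 ^ 2 / 2))) * Real.exp (-(k / 2) * (η ⬝ᵥ η)) := by
  rw [← Real.exp_add, ← Real.exp_add, ← Real.exp_add]
  refine Real.exp_le_exp.2 ?_
  have h1 : |D.γ * p.1 * p.2| ≤ |D.γ| * R ^ 2 := by
    rw [abs_mul, abs_mul, mul_assoc, sq]
    exact mul_le_mul_of_nonneg_left (mul_le_mul ((norm_fst_le p).trans hp)
      ((norm_snd_le p).trans hp) (abs_nonneg _) ((norm_nonneg p).trans hp)) (abs_nonneg _)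
  have h2 : D.xi (p.1 + p.2) η ⬝ᵥ D.xi (p.1 + p.2) η = D.xi (p.1 + p.2) η 0 ^ 2 + η ⬝ᵥ η :=
    dot_cons _ _
  rw [Q, h2]
  nlinarith [mul_le_mul_of_nonneg_left (abs_le.1 h1).1 hk.le]

theorem dom_aux {a b z l B c1 c2 c3 c4 : ℝ} (a0 : 0 ≤ a) (a1 : a ≤ 1) (b0 : 0 ≤ b) (b1 : b ≤ 1)
    (h1 : |z| * a ≤ B) (h2 : |l| * b ≤ B) (h3 : |c3| ≤ c4) :
    |z * c1 + c2 * l + c3| * (a * b) ≤ |c1| * B + |c2| * B + c4 := by
  have t1 : |z| * (a * b) ≤ B := by nlinarith [mul_nonneg (abs_nonneg z) a0]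
  have t2 : |l| * (a * b) ≤ B := by nlinarith [mul_nonneg (abs_nonneg l) b0]
  have t3 := (mul_le_of_le_one_right (abs_nonneg c3) (mul_le_one₀ a1 b0 b1)).trans h3
  refine (mul_le_mul_of_nonneg_right (abs_add_three _ _ _) (by positivity)).trans ?_
  rw [abs_mul, abs_mul]
  linarith [mul_le_mul_of_nonneg_left t1 (abs_nonneg c1),
    mul_le_mul_of_nonneg_left t2 (abs_nonneg c2)]

theorem dom_Q {k : ℝ} (hk : 0 < k) (d : ℝ × ℝ) (R : ℝ) : ∃ C : ℝ, 0 ≤ C ∧ ∀ p, ‖p‖ ≤ R → ∀ η,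
    gu k j (D.Q p η) ≤ C * Real.exp (-(k / 2) * (η ⬝ᵥ η)) ∧
    |D.Q' d p η| * gd k j (D.Q p η) ≤ C * Real.exp (-(k / 2) * (η ⬝ᵥ η)) := by
  set T := |-(d.1 + d.2) * (D.v1 ⬝ᵥ D.e) - d.1| * (1 / k + 1)
    + |(d.1 + d.2) * (-1 / D.ν)| * (1 / k + 1) + |D.γ| * (|d.1| * |R| + |d.2| * |R|) with hT
  have hT0 : 0 ≤ T := by positivity
  refine ⟨Real.exp j * Real.exp (k * (|D.γ| * R ^ 2)) * (1 + 2 * k * T), by positivity,
    fun p hp η => ?_⟩
  have h1 := D.exp_Q_le hk hp η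
  have e0 : D.e ⬝ᵥ D.xi (p.1 + p.2) η = -1 / D.ν * D.xi (p.1 + p.2) η 0 := by
    simp [e, dotProduct, Fin.sum_univ_succ]
  have p1 : |p.1| ≤ |R| := ((norm_fst_le p).trans hp).trans (le_abs_self R)
  have p2 : |p.2| ≤ |R| := ((norm_snd_le p).trans hp).trans (le_abs_self R)
  have a1 : ∀ z : ℝ, Real.exp (-(k * (z ^ 2 / 2))) ≤ 1 := fun z =>
    Real.exp_le_one_iff.2 (neg_nonpos.2 (by positivity))
  have u3 := dom_aux (c1 := -(d.1 + d.2) * (D.v1 ⬝ᵥ D.e) - d.1) (c2 := (d.1 + d.2) * (-1 / D.ν))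
    (c3 := D.γ * (d.1 * p.2 + d.2 * p.1)) (c4 := |D.γ| * (|d.1| * |R| + |d.2| * |R|))
    (Real.exp_pos _).le (a1 _) (Real.exp_pos _).le (a1 _)
    (abs_mul_exp_le hk (D.L1 (D.xi (p.1 + p.2) η) - p.1)) (abs_mul_exp_le hk (D.xi (p.1 + p.2) η 0))
    (by
      rw [abs_mul]
      refine mul_le_mul_of_nonneg_left ((abs_add_le _ _).trans ?_) (abs_nonneg _)
      rw [abs_mul, abs_mul]
      gcongr)
  rw [mul_assoc (d.1 + d.2), ← e0, ← Q', ← hT] at u3
  have hkT : 0 ≤ 2 * k * T := by positivity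
  constructor
  · calc _ ≤ _ := gu_le k j _
      _ ≤ Real.exp j * _ := mul_le_mul_of_nonneg_left h1 (Real.exp_pos _).le
      _ ≤ Real.exp j * (Real.exp (k * (|D.γ| * R ^ 2)) * (1 + 2 * k * T) * 1
          * Real.exp (-(k / 2) * (η ⬝ᵥ η))) := by
          gcongr
          · exact (a1 _).trans (by linarith)
          · exact a1 _
      _ = _ := by ring
  · calc _ ≤ _ := mul_le_mul_of_nonneg_left ((gd_le hk j _).trans
          (mul_le_mul_of_nonneg_left h1 (by positivity))) (abs_nonneg _)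
      _ = Real.exp j * Real.exp (k * (|D.γ| * R ^ 2)) * (0 + 2 * k * (|D.Q' d p η|
          * (Real.exp (-(k * ((D.L1 (D.xi (p.1 + p.2) η) - p.1) ^ 2 / 2)))
            * Real.exp (-(k * (D.xi (p.1 + p.2) η 0 ^ 2 / 2))))))
          * Real.exp (-(k / 2) * (η ⬝ᵥ η)) := by ring
      _ ≤ _ := by
          gcongr
          exact zero_le_one

theorem dom_U {k : ℝ} (hk : 0 < k) (d : ℝ × ℝ) (R : ℝ) : ∃ C : ℝ, 0 ≤ C ∧ ∀ p, ‖p‖ ≤ R → ∀ η,
    Real.exp (-D.V k j w α β p η) ≤ C * Real.exp (-(k / 2) * (η ⬝ᵥ η)) ∧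
    |D.U k j w α β d p η * Real.exp (-D.V k j w α β p η)|
      ≤ C * Real.exp (-(k / 2) * (η ⬝ᵥ η)) := by
  obtain ⟨C, hC, h⟩ := D.dom_Q j hk d R
  set S := |d.1 + d.2| * ∑ i, |α * (w i ⬝ᵥ D.e)| with hS
  have hS0 : 0 ≤ S := by positivity
  refine ⟨(S + 1) * C, by positivity, fun p hp η => ?_⟩
  obtain ⟨h1, h2⟩ := h p hp η
  have g3 := gu_pos k j (D.Q p η)
  have g4 := gd_pos hk j (D.Q p η)
  have o1 := exp_om_le w α β (D.xi (p.1 + p.2) η)
  have o2 := om'_le w α β D.e (D.xi (p.1 + p.2) η)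
  have o3 := Real.exp_pos (-om w α β (D.xi (p.1 + p.2) η))
  rw [U_exp, exp_V, mul_assoc (S + 1)]
  generalize C * Real.exp (-(k / 2) * (η ⬝ᵥ η)) = G at *
  generalize Real.exp (-om w α β (D.xi (p.1 + p.2) η)) = W at *
  constructor
  · linarith [mul_le_of_le_one_left g3.le o1, mul_nonneg hS0 (g3.le.trans h1)]
  · refine (abs_add_le _ _).trans ?_
    rw [abs_mul (d.1 + d.2), abs_mul (om' _ _ _ _ _), abs_of_pos (mul_pos o3 g3),
      abs_mul _ (W * _), abs_of_pos (mul_pos o3 g4), add_mul, one_mul]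
    refine add_le_add ?_ ((mul_le_mul_of_nonneg_left (mul_le_of_le_one_left g4.le o1)
      (abs_nonneg _)).trans h2)
    rw [hS, mul_assoc, ← mul_assoc _ W]
    gcongr

theorem lc {k : ℝ} (hk : 0 < k) (h : 0 < D.ν)
    (hc : ∀ z X, 0 ≤ (z ^ 2 + X ⬝ᵥ X) / 2 + D.γ * (D.v1 ⬝ᵥ X + z) * (D.v2 ⬝ᵥ X - z)) :
    LC (D.V k j w α β) (D.U k j w α β (1, 0)) (D.U k j w α β (0, 1)) where
  conv p p' η η' θ h0 h1 := by
    have e : ((1 - θ) • p + θ • p').1 + ((1 - θ) • p + θ • p').2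
        = (1 - θ) * (p.1 + p.2) + θ * (p'.1 + p'.2) := by
      simp only [Prod.fst_add, Prod.snd_add, Prod.smul_fst, Prod.smul_snd, smul_eq_mul]
      ring
    have h2 := exp_cvx (a := k * D.Q p η - j) (b := k * D.Q p' η' - j)
      (c := k * D.Q ((1 - θ) • p + θ • p') ((1 - θ) • η + θ • η') - j) h0 h1
      (by nlinarith [mul_le_mul_of_nonneg_left (D.Q_conv h hc p p' η η' h0 h1) hk.le])
    have h3 : om w α β ((1 - θ) • D.xi (p.1 + p.2) η + θ • D.xi (p'.1 + p'.2) η')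
        ≤ (1 - θ) * om w α β (D.xi (p.1 + p.2) η) + θ * om w α β (D.xi (p'.1 + p'.2) η') := by
      simp only [om, Finset.mul_sum, ← Finset.sum_add_distrib]
      refine Finset.sum_le_sum fun i _ => exp_cvx h0 h1 (le_of_eq ?_)
      simp only [dotProduct_add, dotProduct_smul, smul_eq_mul]
      ring
    rw [V, V, V, e, xi_comb]
    linarith
  der p d η := (D.hasDerivAt_V k j w α β p d η).congr_deriv (by simp only [U, Q']; ring)
  c0 p := by unfold V Q; fun_prop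
  c1 p := by unfold U Q Q'; fun_prop
  c2 p := by unfold U Q Q'; fun_prop
  dom R := by
    obtain ⟨C, hC, h1⟩ := D.dom_U j w α β hk (1, 0) R
    obtain ⟨C', hC', h2⟩ := D.dom_U j w α β hk (0, 1) R
    refine ⟨C + C', k / 2, by positivity, fun p hp η => ?_⟩
    have := Real.exp_pos (-(k / 2) * (η ⬝ᵥ η))
    refine ⟨(h1 p hp η).1.trans ?_, (h1 p hp η).2.trans ?_, (h2 p hp η).2.trans ?_⟩ <;> nlinarith

end Dat

end

section

/-! The key inequality in coordinates, third part. -/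

open MeasureTheory Set Filter Topology Matrix

variable {m : ℕ} {ι : Type} [Fintype ι]

theorem gb_aff {F : (Fin m → ℝ) → ℝ} (h : GB F) {A : (Fin m → ℝ) → ℝ} (a : ℝ) (v : Fin m → ℝ)
    (hA : ∀ X, A X = a + v ⬝ᵥ X) : GB fun X => A X * F X := by
  simp only [hA, add_mul]
  exact (h.const_mul a).add (h.dot_mul v)

theorem tendsto_om (w : ι → Fin m → ℝ) (X : Fin m → ℝ) :
    Tendsto (fun N : ℕ => Real.exp (-om w (N ^ 2) (N ^ 2 + N) X)) atTop
      (𝓝 (indicator {X | ∀ i, w i ⬝ᵥ X ≤ 1} (fun _ => (1 : ℝ)) X)) := by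
  by_cases h : ∀ i, w i ⬝ᵥ X ≤ 1
  · rw [indicator_of_mem (show X ∈ {X | ∀ i, w i ⬝ᵥ X ≤ 1} from h), ← Real.exp_zero, ← neg_zero,
      ← Finset.sum_const_zero (s := (Finset.univ : Finset ι))]
    refine (Real.continuous_exp.tendsto _).comp (tendsto_finsetSum _ fun i _ => ?_).neg
    refine Real.tendsto_exp_atBot.comp (tendsto_atBot_mono (fun N => ?_)
      (tendsto_neg_atTop_atBot.comp tendsto_natCast_atTop_atTop))
    simp only [Function.comp]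
    nlinarith [mul_nonneg (sq_nonneg (N : ℝ)) (sub_nonneg.2 (h i))]
  · rw [indicator_of_notMem (show X ∉ {X | ∀ i, w i ⬝ᵥ X ≤ 1} from h)]
    obtain ⟨i, hi⟩ := not_forall.1 h
    refine Real.tendsto_exp_atBot.comp (tendsto_neg_atTop_atBot.comp
      (tendsto_atTop_mono' _ ?_ (tendsto_natCast_atTop_atTop (R := ℝ))))
    have hd : 0 < w i ⬝ᵥ X - 1 := sub_pos.2 (not_le.1 hi)
    filter_upwards [tendsto_natCast_atTop_atTop.eventually_ge_atTop (2 / (w i ⬝ᵥ X - 1))]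
      with N hN
    refine le_trans ?_ (Finset.single_le_sum (f := fun i =>
      Real.exp ((N : ℝ) ^ 2 * (w i ⬝ᵥ X) - (N ^ 2 + N))) (fun _ _ => (Real.exp_pos _).le)
      (Finset.mem_univ i))
    rw [div_le_iff₀ hd] at hN
    nlinarith [Real.add_one_le_exp ((N : ℝ) ^ 2 * (w i ⬝ᵥ X) - (N ^ 2 + N)),
      mul_le_mul_of_nonneg_left hN (Nat.cast_nonneg (α := ℝ) N)]

theorem measurableSet_K (w : ι → Fin m → ℝ) : MeasurableSet {X | ∀ i, w i ⬝ᵥ X ≤ 1} := by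
  rw [ofPred_forall]
  exact MeasurableSet.iInter fun i => (isClosed_le (by fun_prop) continuous_const).measurableSet

theorem tendsto_int_om {Ω : Type} [MeasurableSpace Ω] {μ : Measure Ω} (w : ι → Fin m → ℝ)
    {φ : Ω → Fin m → ℝ} (hφ : Measurable φ) {H : Ω → ℝ} (hH : Integrable H μ) :
    Tendsto (fun N : ℕ => ∫ x, Real.exp (-om w (N ^ 2) (N ^ 2 + N) (φ x)) * H x ∂μ) atTop
      (𝓝 (∫ x in {x | ∀ i, w i ⬝ᵥ φ x ≤ 1}, H x ∂μ)) := by
  have hm : MeasurableSet {x | ∀ i, w i ⬝ᵥ φ x ≤ 1} := hφ (measurableSet_K w)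
  rw [← integral_indicator hm]
  refine tendsto_integral_of_dominated_convergence (fun x => |H x|) (fun N => ?_) hH.abs
    (fun N => Eventually.of_forall fun x => ?_) (Eventually.of_forall fun x => ?_)
  · exact (((continuous_om w _ _).measurable.comp hφ).neg.exp.aestronglyMeasurable).mul hH.1
  · rw [Real.norm_eq_abs, abs_mul, abs_of_pos (Real.exp_pos _)]
    exact mul_le_of_le_one_left (abs_nonneg _) (exp_om_le _ _ _ _)
  · convert (tendsto_om w (φ x)).mul_const (H x) using 2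
    by_cases h : ∀ i, w i ⬝ᵥ φ x ≤ 1 <;> simp [indicator, h]

namespace Dat

variable (D : Dat m) (j : ℝ) (w : ι → Fin (m + 1) → ℝ) (α β : ℝ)

/-- Half the squared norm on the upper facet. -/
noncomputable def q1 (X : Fin (m + 1) → ℝ) : ℝ := (D.L1 X ^ 2 + X ⬝ᵥ X) / 2

/-- Half the squared norm on the lower facet. -/
noncomputable def q2 (X : Fin (m + 1) → ℝ) : ℝ := (D.L2 X ^ 2 + X ⬝ᵥ X) / 2

@[fun_prop] theorem continuous_q1 : Continuous D.q1 := by unfold q1; fun_prop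

@[fun_prop] theorem continuous_q2 : Continuous D.q2 := by unfold q2; fun_prop

theorem q1_ge (X : Fin (m + 1) → ℝ) : X ⬝ᵥ X / 2 ≤ D.q1 X := by
  unfold q1; nlinarith [sq_nonneg (D.L1 X)]

theorem q2_ge (X : Fin (m + 1) → ℝ) : X ⬝ᵥ X / 2 ≤ D.q2 X := by
  unfold q2; nlinarith [sq_nonneg (D.L2 X)]

theorem gb_top {F : (Fin (m + 1) → ℝ) → ℝ} (h : GB F) (a b : ℝ) (v : Fin (m + 1) → ℝ) :
    GB fun X => (a * D.L1 X + b * D.L2 X + v ⬝ᵥ X) * F X :=
  gb_aff h (a * D.n1 + b * D.n2) (v - a • D.v1 - b • D.v2) fun X => by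
    simp only [L1, L2, sub_dotProduct, smul_dotProduct, smul_eq_mul]
    ring

theorem key_om {k : ℝ} (hk : 0 < k) (h : 0 < D.ν)
    (hc : ∀ z X, 0 ≤ (z ^ 2 + X ⬝ᵥ X) / 2 + D.γ * (D.v1 ⬝ᵥ X + z) * (D.v2 ⬝ᵥ X - z)) :
    max ((∫ η, Real.exp (-om w α β (D.xi 0 η)) * gu k j (D.q1 (D.xi 0 η)))
        + D.ν * ∫ X in {X | 0 < D.L1 X + D.L2 X}, Real.exp (-om w α β X)
          * ((D.γ * (D.L1 X + D.L2 X) - D.L1 X) * gd k j (D.q1 X))) 0
      * max ((∫ η, Real.exp (-om w α β (D.xi 0 η)) * gu k j (D.q1 (D.xi 0 η)))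
        + D.ν * ∫ X in {X | 0 < D.L1 X + D.L2 X}, Real.exp (-om w α β X)
          * ((D.γ * (D.L1 X + D.L2 X) - D.L2 X) * gd k j (D.q2 X))) 0
      ≤ (∫ η, Real.exp (-om w α β (D.xi 0 η)) * gu k j (D.q1 (D.xi 0 η))) ^ 2 := by
  have lc := D.lc j w α β hk h hc
  obtain ⟨a1, a2, -, a3⟩ := gb_q hk j w α β D.e D.continuous_q1 D.q1_ge
  obtain ⟨b1, b2, -, b3⟩ := gb_q hk j w α β D.e D.continuous_q2 D.q2_ge
  have e1 : ∀ s η, D.Q (0, s) η = D.q1 (D.xi s η) := fun s η => by simp [Q, q1]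
  have e2 : ∀ s η, D.Q (s, 0) η = D.q2 (D.xi s η) := fun s η => by
    have := D.width h s η
    simp only [Q, q2, add_zero, mul_zero, show D.L1 (D.xi s η) - s = -D.L2 (D.xi s η) by linarith,
      neg_sq]
  have f1 : ∀ (d : ℝ × ℝ) s η, D.Q' d (0, s) η
      = (-(d.1 + d.2) * (D.v1 ⬝ᵥ D.e) - d.1 + D.γ * d.1) * D.L1 (D.xi s η)
        + D.γ * d.1 * D.L2 (D.xi s η) + ((d.1 + d.2) • D.e) ⬝ᵥ D.xi s η := fun d s η => by
    simp only [Q', zero_add, smul_dotProduct, smul_eq_mul]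
    linear_combination (-D.γ * d.1) * D.width h s η
  have f2 : ∀ (d : ℝ × ℝ) s η, D.Q' d (s, 0) η = D.γ * d.2 * D.L1 (D.xi s η)
        + ((d.1 + d.2) * (D.v1 ⬝ᵥ D.e) + d.1 + D.γ * d.2) * D.L2 (D.xi s η)
        + ((d.1 + d.2) • D.e) ⬝ᵥ D.xi s η := fun d s η => by
    simp only [Q', add_zero, smul_dotProduct, smul_eq_mul]
    linear_combination (-(d.1 + d.2) * (D.v1 ⬝ᵥ D.e) - d.1 - D.γ * d.2) * D.width h s η
  have i1 : ∀ d, IntegrableOn (fun s => dg (D.V k j w α β) (D.U k j w α β d) (0, s)) (Ioi 0) :=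
    fun d => by
    simp only [dg, U_exp, e1, f1, zero_add]
    exact (D.shear h (gb_int ((a2.const_mul _).add (D.gb_top a3 _ _ _)))).1
  have i2 : ∀ d, IntegrableOn (fun s => dg (D.V k j w α β) (D.U k j w α β d) (s, 0)) (Ioi 0) :=
    fun d => by
    simp only [dg, U_exp, e2, f2, add_zero]
    exact (D.shear h (gb_int ((b2.const_mul _).add (D.gb_top b3 _ _ _)))).1
  have key := lc.key (by
      simp only [mg, exp_V, e1, zero_add]
      exact (D.shear h (gb_int a1)).1) (i1 _) (i1 _) (by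
      simp only [mg, exp_V, e2, add_zero]
      exact (D.shear h (gb_int b1)).1) (i2 _) (i2 _)
  have g1 : ∀ s, dg (D.V k j w α β) (D.U k j w α β (1, 0)) (0, s)
      - dg (D.V k j w α β) (D.U k j w α β (0, 1)) (0, s) = ∫ η, (fun X => Real.exp (-om w α β X)
        * ((D.γ * (D.L1 X + D.L2 X) - D.L1 X) * gd k j (D.q1 X))) (D.xi s η) := fun s => by
    rw [dg, dg, ← integral_sub (gb_int (lc.gb _).2.1) (gb_int (lc.gb _).2.2)]
    congr 1
    funext η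
    simp only [U_exp, e1, f1, zero_add, add_zero]
    ring
  have g2 : ∀ s, dg (D.V k j w α β) (D.U k j w α β (0, 1)) (s, 0)
      - dg (D.V k j w α β) (D.U k j w α β (1, 0)) (s, 0) = ∫ η, (fun X => Real.exp (-om w α β X)
        * ((D.γ * (D.L1 X + D.L2 X) - D.L2 X) * gd k j (D.q2 X))) (D.xi s η) := fun s => by
    rw [dg, dg, ← integral_sub (gb_int (lc.gb _).2.2) (gb_int (lc.gb _).2.1)]
    congr 1
    funext η
    simp only [U_exp, e2, f2, zero_add, add_zero]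
    ring
  have k1 := (D.shear h (H := fun X => Real.exp (-om w α β X)
      * ((D.γ * (D.L1 X + D.L2 X) - D.L1 X) * gd k j (D.q1 X)))
    ((gb_int (D.gb_top a3 (D.γ - 1) D.γ 0)).congr (Eventually.of_forall fun X => by
      simp only [zero_dotProduct]; ring))).2
  have k2 := (D.shear h (H := fun X => Real.exp (-om w α β X)
      * ((D.γ * (D.L1 X + D.L2 X) - D.L2 X) * gd k j (D.q2 X)))
    ((gb_int (D.gb_top b3 D.γ (D.γ - 1) 0)).congr (Eventually.of_forall fun X => by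
      simp only [zero_dotProduct]; ring))).2
  simp only [g1, g2, k1, k2] at key
  simpa only [mg, exp_V, e1, zero_add] using key

/-- The ridge integral. -/
noncomputable def Rg (k : ℝ) : ℝ :=
  ∫ η in {η | ∀ i, w i ⬝ᵥ D.xi 0 η ≤ 1}, gu k j (D.q1 (D.xi 0 η))

/-- The normalised derivative when the upper facet moves. -/
noncomputable def A (k : ℝ) : ℝ :=
  ∫ X in {X | ∀ i, w i ⬝ᵥ X ≤ 1} ∩ {X | 0 < D.L1 X + D.L2 X},
    (D.γ * (D.L1 X + D.L2 X) - D.L1 X) * gd k j (D.q1 X)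

/-- The normalised derivative when the lower facet moves. -/
noncomputable def B (k : ℝ) : ℝ :=
  ∫ X in {X | ∀ i, w i ⬝ᵥ X ≤ 1} ∩ {X | 0 < D.L1 X + D.L2 X},
    (D.γ * (D.L1 X + D.L2 X) - D.L2 X) * gd k j (D.q2 X)

theorem gb_ridge {k : ℝ} (hk : 0 < k) : GB fun η => gu k j (D.q1 (D.xi 0 η)) := by
  refine ⟨by fun_prop, Real.exp j, k / 2, by positivity, fun η => ?_⟩
  rw [abs_of_pos (gu_pos _ _ _)]
  refine (gu_le k j _).trans (mul_le_mul_of_nonneg_left (Real.exp_le_exp.2 ?_) (Real.exp_pos _).le)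
  have h1 := D.q1_ge (D.xi 0 η)
  have h2 : D.xi 0 η ⬝ᵥ D.xi 0 η = D.xi 0 η 0 ^ 2 + η ⬝ᵥ η := dot_cons _ _
  nlinarith [sq_nonneg (D.xi 0 η 0)]

theorem key {k : ℝ} (hk : 0 < k) (h : 0 < D.ν)
    (hc : ∀ z X, 0 ≤ (z ^ 2 + X ⬝ᵥ X) / 2 + D.γ * (D.v1 ⬝ᵥ X + z) * (D.v2 ⬝ᵥ X - z)) :
    max (D.Rg j w k + D.ν * D.A j w k) 0 * max (D.Rg j w k + D.ν * D.B j w k) 0
      ≤ D.Rg j w k ^ 2 := by
  obtain ⟨-, -, a3, -⟩ := gb_q hk j w 0 0 D.e D.continuous_q1 D.q1_ge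
  obtain ⟨-, -, b3, -⟩ := gb_q hk j w 0 0 D.e D.continuous_q2 D.q2_ge
  have t0 := tendsto_int_om w (D.continuous_xi 0).measurable (gb_int (D.gb_ridge j hk))
  have t1 := tendsto_int_om (μ := volume.restrict {X | 0 < D.L1 X + D.L2 X}) w measurable_id
    (H := fun X => (D.γ * (D.L1 X + D.L2 X) - D.L1 X) * gd k j (D.q1 X))
    ((gb_int (D.gb_top a3 (D.γ - 1) D.γ 0)).congr (Eventually.of_forall fun X => by
      simp only [zero_dotProduct]; ring)).integrableOn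
  have t2 := tendsto_int_om (μ := volume.restrict {X | 0 < D.L1 X + D.L2 X}) w measurable_id
    (H := fun X => (D.γ * (D.L1 X + D.L2 X) - D.L2 X) * gd k j (D.q2 X))
    ((gb_int (D.gb_top b3 D.γ (D.γ - 1) 0)).congr (Eventually.of_forall fun X => by
      simp only [zero_dotProduct]; ring)).integrableOn
  simp only [id] at t1 t2
  rw [Measure.restrict_restrict (measurableSet_K w)] at t1 t2
  exact le_of_tendsto_of_tendsto'
    (((t0.add (t1.const_mul _)).max tendsto_const_nhds).mul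
      ((t0.add (t2.const_mul _)).max tendsto_const_nhds)) (t0.pow 2)
    fun N => D.key_om j w _ _ hk h hc

end Dat

end

end Pool.Agent.P.MP_bc3e0b_gt.Caps
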