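import Pool.Agent.P.MP_bc3e0b_gt.Caps.Mirror

set_option autoImplicit false

namespace Pool.Agent.P.MP_bc3e0b_gt.Caps

section

/-! The regular simplex is a minimiser. -/

open MeasureTheory Set Filter Topology Function
open scoped RealInnerProductSpace

variable {n m : ℕ} {ι : Type} [Fintype ι] [DecidableEq ι] {k j : ℝ}

omit [Fintype ι] [DecidableEq ι] in
theorem ps_of_vol {u : ι → E n} (hu : ∀ i, ‖u i‖ = 1) (hv : volume (T u) ≠ ⊤) : PS u := by
  intro c₀ h1
  by_contra h2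
  obtain ⟨c, hc1, hc⟩ : ∃ c : E n, ‖c‖ = 1 ∧ ∀ i, 0 ≤ ⟪c, u i⟫ :=
    ⟨‖c₀‖⁻¹ • c₀, norm_smul_inv_norm h2, fun i => by
      rw [real_inner_smul_left]; exact mul_nonneg (by positivity) (h1 i)⟩
  refine hv (top_le_iff.1 (le_trans ?_ (measure_mono (s := ⋃ N : ℕ,
    Metric.ball ((-2 * (N : ℝ)) • c) 1) (iUnion_subset fun N x hx i => ?_))))
  · rw [measure_iUnion (fun N M h => Metric.ball_disjoint_ball ?_) fun _ => measurableSet_ball]
    · simp only [Measure.addHaar_ball_center]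
      exact (ENNReal.tsum_const_eq_top_of_ne_zero (Metric.measure_ball_pos _ _ one_pos).ne').ge
    · rw [dist_eq_norm, ← sub_smul, norm_smul, hc1, mul_one, ← mul_sub, norm_mul]
      have : (1 : ℝ) ≤ |(N : ℝ) - M| := by
        have := Int.one_le_abs (sub_ne_zero.2 (Int.natCast_inj.not.2 h))
        exact_mod_cast this
      simp only [Real.norm_eq_abs, abs_neg, abs_two]
      linarith
  · have a1 := real_inner_le_norm (u i) (x - (-2 * (N : ℝ)) • c)
    rw [hu, one_mul, inner_sub_right, inner_smul_right, real_inner_comm c] at a1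
    have a2 := mul_nonneg (Nat.cast_nonneg (α := ℝ) N) (hc i)
    linarith [mem_ball_iff_norm.1 hx]

omit [DecidableEq ι] in
theorem ps_bound {u : ι → E n} (hu : PS u) :
    ∃ R, ∀ᶠ v in 𝓝 u, T v ⊆ Metric.closedBall 0 R := by
  have ev := (isCompact_sphere (0 : E n) 1).eventually_forall_of_forall_eventually
    (x₀ := ((0 : ℝ), u)) (P := fun z x => ∃ i, z.1 < ⟪z.2 i, x⟫) fun x hx => by
      obtain ⟨i, hi⟩ : ∃ i, 0 < ⟪u i, x⟫ := by
        by_contra hn
        push Not at hn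
        have := hu (-x) fun i => by rw [inner_neg_left, real_inner_comm]; linarith [hn i]
        simp [neg_eq_zero.1 this] at hx
      exact (ContinuousAt.eventually_lt (f := fun z : (ℝ × (ι → E n)) × E n => z.1.1)
        (g := fun z => ⟪z.1.2 i, z.2⟫) (by fun_prop) (Continuous.continuousAt (by fun_prop))
        hi).mono fun z h => ⟨i, h⟩
  rw [nhds_prod_eq] at ev
  obtain ⟨pa, ha, pb, hb, h⟩ := eventually_prod_iff.1 ev
  obtain ⟨e, e1, e0⟩ := ((ha.filter_mono nhdsWithin_le_nhds).and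
    (self_mem_nhdsWithin (s := Ioi (0 : ℝ)))).exists
  refine ⟨e⁻¹, hb.mono fun v hv x hx => mem_closedBall_zero_iff.2 ?_⟩
  by_cases h0 : x = 0
  · simpa [h0] using le_of_lt e0
  obtain ⟨i, hi⟩ := h e1 hv (‖x‖⁻¹ • x) (mem_sphere_zero_iff_norm.2 (norm_smul_inv_norm h0))
  have n0 := norm_pos_iff.2 h0
  rw [inner_smul_right] at hi
  exact (le_inv_comm₀ n0 e0).2 (hi.le.trans (mul_le_of_le_one_right (by positivity) (hx i)))

theorem exists_best (hk : 0 < k) (hι : Fintype.card ι = m + 4) : ∃ u : ι → E (m + 3),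
    Mi k j u ∧ PS u ∧ ∀ u' : ι → E (m + 3), Mi k j u' → volume (T u) ≤ volume (T u') := by
  obtain ⟨u₀, h1, h2⟩ := exists_ps (j := j) hk hι
  have hM : IsCompact {u : ι → E (m + 3) | Mi k j u} := by
    convert (isCompact_unit (ι := ι) (n := m + 3)).inter_right
      (isClosed_le (cont_T (integrable_gd hk j _)) (continuous_const (y := F k j u₀))) using 1
    ext u
    exact ⟨fun h => ⟨h.1, h.2 _ h1.1⟩, fun h => ⟨h.1, fun u' h' => le_trans h.2 (h1.2 u' h')⟩⟩
  have lsc : LowerSemicontinuous fun u : ι → E (m + 3) => volume (T u) := by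
    convert lowerSemicontinuous_iSup fun N : ℕ => (ENNReal.continuous_ofReal.comp
      (cont_T (ι := ι) (int_ball (n := m + 3) N))).lowerSemicontinuous using 1
    funext u
    conv_lhs => rw [← Metric.iUnion_inter_closedBall_nat (T u) 0]
    rw [Monotone.measure_iUnion fun N M h => inter_subset_inter_right _
      (Metric.closedBall_subset_closedBall (Nat.cast_le.2 h))]
    congr 1
    funext N
    rw [comp_apply, vol_ball, ofReal_measureReal
      ((measure_mono inter_subset_right).trans_lt measure_closedBall_lt_top).ne]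
  obtain ⟨u, hu, hm⟩ := (lsc.lowerSemicontinuousOn _).exists_isMinOn ⟨u₀, h1⟩ hM
  obtain ⟨R, hR⟩ := ps_bound h2
  exact ⟨u, hu, ps_of_vol hu.1 ((le_trans (hm h1) (measure_mono hR.self_of_nhds)).trans_lt
    measure_closedBall_lt_top).ne, fun u' h' => hm h'⟩

theorem pair_eq (hk : 0 < k) (hι : Fintype.card ι = m + 4) {u : ι → E (m + 3)} (hu : Mi k j u)
    (hp : PS u) (hv : ∀ u' : ι → E (m + 3), Mi k j u' → volume (T u) ≤ volume (T u'))
    {i l a : ι} (hil : i ≠ l) (hai : a ≠ i) (hal : a ≠ l) : ⟪u i, u a⟫ = ⟪u l, u a⟫ := by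
  have hcard : ((Finset.univ.erase i).erase l).card < m + 3 := by
    rw [Finset.card_erase_of_mem (by simp [hil.symm]), Finset.card_erase_of_mem (by simp),
      Finset.card_univ]
    omega
  have hall : ∀ {P : ι → Prop}, P i → P l → (∀ b, b ≠ i → b ≠ l → P b) → ∀ b, P b :=
    fun {P} h1 h2 h3 b => if e : b = i then e ▸ h1 else if e' : b = l then e' ▸ h2 else h3 b e e'
  obtain ⟨c, c1, c2, c3, c4⟩ : ∃ c : E (m + 3), ‖c‖ = 1 ∧ (∀ b, b ≠ i → b ≠ l → ⟪c, u b⟫ = 0) ∧
      0 < ⟪c, u i⟫ ∧ ⟪c, u l⟫ < 0 := by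
    obtain ⟨c, c1, c2⟩ := exists_perp u _ hcard
    replace c2 : ∀ b, b ≠ i → b ≠ l → ⟪c, u b⟫ = 0 := fun b h1 h2 => c2 b (by simp [h1, h2])
    have a1 : ¬(0 ≤ ⟪c, u i⟫ ∧ 0 ≤ ⟪c, u l⟫) := fun h => by
      simp [hp c (hall h.1 h.2 fun b h1 h2 => (c2 b h1 h2).ge)] at c1
    have a2 : ¬(⟪c, u i⟫ ≤ 0 ∧ ⟪c, u l⟫ ≤ 0) := fun h => by
      simp [neg_eq_zero.1 (hp (-c) (hall (by simpa using h.1) (by simpa using h.2)
        fun b h1 h2 => by simp [c2 b h1 h2]))] at c1
    rcases lt_or_ge 0 ⟪c, u i⟫ with h | h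
    · exact ⟨c, c1, c2, h, not_le.1 fun h' => a1 ⟨h.le, h'⟩⟩
    · have h' : 0 < ⟪c, u l⟫ := not_le.1 fun h' => a2 ⟨h, h'⟩
      exact ⟨-c, by simpa, fun b h1 h2 => by simp [c2 b h1 h2],
        by simpa using not_le.1 fun h'' => a1 ⟨h'', h'.le⟩, by simpa⟩
  obtain ⟨z, z1, z2, z3⟩ : ∃ z : E (m + 3), ‖z‖ = 1 ∧ ⟪c, z⟫ = 0 ∧
      ∀ b, b ≠ i → b ≠ l → ⟪z, u b⟫ ≤ 0 := by
    obtain ⟨z, z1, z2⟩ := exists_perp (update u a c) _ hcard
    have z3 : ⟪c, z⟫ = 0 := by simpa [real_inner_comm] using z2 a (by simp [hai, hal])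
    have z4 : ∀ b, b ≠ i → b ≠ l → b ≠ a → ⟪z, u b⟫ = 0 := fun b h1 h2 h3 => by
      simpa [h3] using z2 b (by simp [h1, h2])
    rcases le_total ⟪z, u a⟫ 0 with h | h
    · exact ⟨z, z1, z3, fun b h1 h2 => if e : b = a then e ▸ h else (z4 b h1 h2 e).le⟩
    · exact ⟨-z, by simpa, by simpa, fun b h1 h2 =>
        if e : b = a then by simpa [e] using h else by simp [z4 b h1 h2 e]⟩
  obtain ⟨ob, rfl, rfl⟩ := exists_ob (m := m + 1) c1 z1 z2
  have g0 := neg_pos.2 c4
  have hν : 0 < (dat ob (u i) (u l)).ν := not_le.1 fun h => by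
    rw [nu_eq] at h
    have h1 := hp (-ob 1 + (⟪ob 1, u i⟫ / ⟪ob 0, u i⟫) • ob 0) (hall
      (by simp [inner_add_left, inner_smul_left, c3.ne']) (by
        rw [inner_add_left, inner_neg_left, real_inner_smul_left]
        have := mul_nonneg g0.le (neg_nonneg.2 h)
        refine this.trans_eq ?_
        have := c4.ne
        field_simp
        ring) fun b h1 h2 => by simpa [inner_add_left, inner_smul_left, c2 b h1 h2] using z3 b h1 h2)
    have h2 := congrArg (fun y => ⟪y, ob 1⟫) h1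
    simp [inner_add_left, inner_smul_left, z2] at h2
  obtain ⟨R, hR⟩ := ps_bound hp
  have hw : ∀ b, co ob (rest u i l b) 0 = 0 := fun b => by
    simp only [rest, co]
    split_ifs with h
    · simp
    · exact c2 b (not_or.1 h).1 (not_or.1 h).2
  set s := ((⟪ob 0, u i⟫)⁻¹ + (-⟪ob 0, u l⟫)⁻¹) / (dat ob (u i) (u l)).ν with hs
  have s0 : 0 < s := by positivity
  have hγ := mirror (j := j) hk ob hw (hu.1 i) (hu.1 l) c3 c4 hν
    (x := s • ob 1 + ((1 - s * ⟪ob 1, u i⟫) / ⟪ob 0, u i⟫) • ob 0) (fun b => by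
      by_cases h : b = i ∨ b = l
      · simp [rest, h]
      · have b1 := c2 b (not_or.1 h).1 (not_or.1 h).2
        have b2 := mul_nonpos_of_nonneg_of_nonpos s0.le (z3 b (not_or.1 h).1 (not_or.1 h).2)
        rw [rest, if_neg h, real_inner_comm, inner_add_left, real_inner_smul_left,
          real_inner_smul_left, b1]
        linarith) (by
      rw [real_inner_comm, inner_add_left, real_inner_smul_left, real_inner_smul_left]
      field_simp
      ring) (by
      rw [real_inner_comm, inner_add_left, real_inner_smul_left, real_inner_smul_left]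
      rw [eq_div_iff hν.ne', nu_eq] at hs
      have := c4.ne
      field_simp at hs ⊢
      linarith) (R := R) (by
      have : Tendsto (fun r : E (m + 3) × E (m + 3) => update (update u i r.1) l r.2)
          (𝓝 (u i, u l)) (𝓝 u) := by
        refine Continuous.tendsto' (by fun_prop) _ _ (by simp)
      simpa only [T_pair u hil] using this.eventually hR) (fun p q h1 h2 => by
      rw [← F_self u hil, ← F_pair u hil]
      exact hu.2 _ (unit_pair hu.1 i l h1 h2)) fun p q h1 h2 h3 => by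
      rw [← F_self u hil] at h3
      rw [← T_pair u hil, ← T_pair u hil, update_eq_self, update_eq_self]
      exact hv _ (hu.pair hil h1 h2 h3)
  have κ0 := (dat_cvx ob (hu.1 i) (hu.1 l) c3 c4).1
  simp only [dat, co] at hγ
  rw [le_div_iff₀ κ0] at hγ
  have e1 : ‖u i - u l + (2 * ⟪ob 0, u l⟫) • ob 0‖ ^ 2 ≤ 0 := by
    rw [norm_add_sq_real, norm_sub_sq_real, hu.1, hu.1, inner_smul_right, inner_sub_left,
      norm_smul, c1, real_inner_comm (ob 0), real_inner_comm (ob 0), mul_one, Real.norm_eq_abs,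
      sq_abs]
    linarith
  have e2 := congrArg (fun y => ⟪y, u a⟫) (norm_eq_zero.1 (pow_eq_zero_iff two_ne_zero |>.1
    (e1.antisymm (sq_nonneg _))))
  simpa [inner_add_left, inner_sub_left, inner_smul_left, c2 a hai hal, sub_eq_zero] using e2

theorem exists_iso {u b : ι → E n} (h : ∀ i l, ⟪u i, u l⟫ = ⟪b i, b l⟫) :
    ∃ σ : E n ≃ₗᵢ[ℝ] E n, ∀ i, σ (u i) = b i := by
  suffices ∀ s : Finset ι, ∃ σ : E n ≃ₗᵢ[ℝ] E n, ∀ i ∈ s, σ (u i) = b i from
    (this Finset.univ).imp fun σ hσ i => hσ i (Finset.mem_univ i)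
  intro s
  induction s using Finset.induction_on with
  | empty => exact ⟨.refl ℝ _, by simp⟩
  | insert a s _ ih =>
    obtain ⟨σ, hσ⟩ := ih
    refine ⟨σ.trans (ℝ ∙ (σ (u a) - b a))ᗮ.reflection, fun i hi => ?_⟩
    rcases Finset.mem_insert.1 hi with rfl | hi
    · rw [LinearIsometryEquiv.trans_apply]
      refine Submodule.reflection_sub ?_
      rw [σ.norm_map, norm_eq_sqrt_real_inner, h, ← norm_eq_sqrt_real_inner]
    · rw [LinearIsometryEquiv.trans_apply, hσ i hi]
      refine Submodule.reflection_mem_subspace_eq_self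
        (Submodule.mem_orthogonal_singleton_iff_inner_right.2 ?_)
      rw [inner_sub_left, ← h, ← hσ i hi, σ.inner_map_map, sub_self]

theorem F_le (hk : 0 < k) (hι : Fintype.card ι = m + 4) {a b : ι → E (m + 3)}
    (ha : ∀ i, ‖a i‖ = 1) (hb : ∀ i, ‖b i‖ = 1)
    (hr : ∀ i l, i ≠ l → ⟪b i, b l⟫ = -1 / (m + 3 : ℝ)) : F k j b ≤ F k j a := by
  obtain ⟨u, hu, hp, hv⟩ := exists_best (j := j) hk hι
  have h1 : ∀ i l, i ≠ l → ⟪u i, u l⟫ = -1 / (m + 3 : ℝ) := fun i l hil => by
    have e1 : ∀ c d, c ≠ d → ⟪u c, u d⟫ = ⟪u i, u l⟫ := fun c d hcd => by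
      have sw : ∀ x y z, z ≠ x → z ≠ y → ⟪u x, u z⟫ = ⟪u y, u z⟫ := fun x y z h1 h2 =>
        if e : x = y then by rw [e] else pair_eq hk hι hu hp hv e h1 h2
      by_cases e : d = i
      · rw [e, sw c l i (e ▸ hcd.symm) hil, real_inner_comm]
      · rw [sw c i d hcd.symm e, real_inner_comm, sw d l i (Ne.symm e) hil, real_inner_comm]
    have e2 : ∀ d, ⟪∑ c, u c, u d⟫ = 1 + (m + 3 : ℝ) * ⟪u i, u l⟫ := fun d => by
      rw [sum_inner, ← Finset.add_sum_erase _ _ (Finset.mem_univ d),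
        Finset.sum_congr rfl fun c hc => e1 c d (Finset.ne_of_mem_erase hc)]
      simp [hu.1, hι]
    have e3 : ∑ c, u c = 0 := by
      rcases le_total 0 (1 + (m + 3 : ℝ) * ⟪u i, u l⟫) with h | h
      · exact hp _ fun d => by rwa [e2]
      · exact neg_eq_zero.1 (hp _ fun d => by rwa [inner_neg_left, e2, neg_nonneg])
    have e4 := e2 i
    rw [e3, inner_zero_left] at e4
    rw [eq_div_iff (by positivity)]
    linarith
  obtain ⟨σ, hσ⟩ := exists_iso (u := u) (b := b) fun i l => by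
    by_cases e : i = l
    · simp [e, hu.1, hb]
    · rw [h1 i l e, hr i l e]
  refine le_of_eq_of_le ?_ (hu.2 a ha)
  rw [F, F, ← int_iso σ]
  congr 3
  ext x
  simp [T, ← hσ]

end

section

/-! From the smooth profiles to spherical shells, and averaging over the orthogonal group. -/

open MeasureTheory Set Filter Topology Function Metric
open scoped RealInnerProductSpace ENNReal

variable {n : ℕ} {ι : Type} [Fintype ι]

theorem integrable_ge {k : ℝ} (hk : 0 < k) (n : ℕ) :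
    Integrable fun x : E n => Real.exp (-(k * (‖x‖ ^ 2 / 2))) := by
  refine ((PiLp.volume_preserving_ofLp (Fin n)).integrable_comp_of_integrable
    (integrable_gv n (half_pos hk))).congr (Eventually.of_forall fun x => ?_)
  simp only [EuclideanSpace.real_norm_sq_eq]
  simp only [comp_apply, dotProduct, sq]
  congr 1
  ring

theorem integrable_gu {k : ℝ} (hk : 0 < k) (j : ℝ) (n : ℕ) :
    Integrable fun x : E n => gu k j (‖x‖ ^ 2 / 2) :=
  ((integrable_ge hk n).const_mul (Real.exp j)).mono' (Continuous.aestronglyMeasurable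
    (by fun_prop)) (Eventually.of_forall fun x => by
      rw [Real.norm_of_nonneg (gu_pos _ _ _).le]; exact gu_le _ _ _)

theorem prim_int {k : ℝ} (hk : 0 < k) (S : Set (E n)) (j₁ j₂ : ℝ) :
    IntervalIntegrable (fun j => ∫ x in S, gd k j (‖x‖ ^ 2 / 2)) volume j₁ j₂ ∧
    ∫ j in j₁..j₂, ∫ x in S, gd k j (‖x‖ ^ 2 / 2)
      = k * ((∫ x in S, gu k j₂ (‖x‖ ^ 2 / 2)) - ∫ x in S, gu k j₁ (‖x‖ ^ 2 / 2)) := by
  have hi : Integrable (uncurry fun (j : ℝ) (x : E n) => gd k j (‖x‖ ^ 2 / 2))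
      ((volume.restrict (uIoc j₁ j₂)).prod (volume.restrict S)) := by
    refine (Integrable.mul_prod (f := fun j => 2 * k * Real.exp j) (intervalIntegrable_iff.1
      (Continuous.intervalIntegrable (by fun_prop) _ _)) (integrable_ge hk n).integrableOn).mono'
      (Continuous.aestronglyMeasurable (by unfold uncurry gd gu; fun_prop))
      (Eventually.of_forall fun z => ?_)
    exact (Real.norm_of_nonneg (gd_pos hk _ _).le).trans_le (gd_le hk _ _)
  refine ⟨intervalIntegrable_iff.2 hi.integral_prod_left, ?_⟩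
  rw [intervalIntegral_integral_swap hi, ← integral_sub (integrable_gu hk _ n).integrableOn
    (integrable_gu hk _ n).integrableOn, ← integral_const_mul]
  congr 1
  funext x
  rw [mul_sub]
  refine intervalIntegral.integral_eq_sub_of_hasDerivAt (f := fun j => k * gu k j (‖x‖ ^ 2 / 2))
    (fun j _ => ?_) (Continuous.intervalIntegrable (by unfold gd gu; fun_prop) _ _)
  refine (((hasDerivAt_id j).const_sub _).exp.neg.exp.const_mul k).congr_deriv ?_
  simp only [gd, gu, id, Pi.neg_apply]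
  ring

theorem lim_gu {S : Set (E n)} {r : ℝ} (hr : 0 < r) :
    Tendsto (fun N : ℕ => ∫ x in S, gu (N + 1) ((N + 1) * (r ^ 2 / 2)) (‖x‖ ^ 2 / 2)) atTop
      (𝓝 (volume.real (S ∩ ball 0 r))) := by
  have e : volume.real (S ∩ ball 0 r) = ∫ x in S, (ball (0 : E n) r).indicator (fun _ => 1) x := by
    rw [setIntegral_indicator measurableSet_ball]
    simp
  rw [e]
  refine tendsto_integral_of_dominated_convergence
    (fun x => Real.exp (r ^ 2 / 2) * Real.exp (-(1 * (‖x‖ ^ 2 / 2))))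
    (fun N => Continuous.aestronglyMeasurable (by fun_prop))
    ((integrable_ge one_pos n).const_mul _).integrableOn
    (fun N => Eventually.of_forall fun x => ?_) (ae_restrict_of_ae ?_)
  · rw [Real.norm_of_nonneg (gu_pos _ _ _).le, ← Real.exp_add]
    rcases le_total (‖x‖ ^ 2 / 2) (r ^ 2 / 2) with h | h
    · exact Real.exp_le_exp.2 (by linarith [Real.exp_pos ((N + 1) * (‖x‖ ^ 2 / 2)
        - (N + 1) * (r ^ 2 / 2))])
    · refine (gu_le _ _ _).trans ?_
      rw [← Real.exp_add]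
      exact Real.exp_le_exp.2 (by nlinarith [mul_nonneg (Nat.cast_nonneg N) (sub_nonneg.2 h)])
  · have t1 : Tendsto (fun N : ℕ => (N + 1 : ℝ)) atTop atTop :=
      tendsto_natCast_atTop_atTop.atTop_add tendsto_const_nhds
    filter_upwards [measure_eq_zero_iff_ae_notMem.1
      (Measure.addHaar_sphere_of_ne_zero volume (0 : E n) hr.ne')] with x hx
    simp only [gu, ← mul_sub]
    rcases lt_or_gt_of_ne (mem_sphere_zero_iff_norm.not.1 hx) with h | h
    · rw [indicator_of_mem (mem_ball_zero_iff.2 h)]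
      simpa using (Real.tendsto_exp_atBot.comp (t1.atTop_mul_const_of_neg
        (show ‖x‖ ^ 2 / 2 - r ^ 2 / 2 < 0 by nlinarith [norm_nonneg x]))).neg.rexp
    · rw [indicator_of_notMem (mem_ball_zero_iff.not.2 h.not_gt)]
      exact Real.tendsto_exp_neg_atTop_nhds_zero.comp (Real.tendsto_exp_atTop.comp
        (t1.atTop_mul_const (show 0 < ‖x‖ ^ 2 / 2 - r ^ 2 / 2 by nlinarith)))

theorem shell_le {A B : Set (E n)} (hA : MeasurableSet A) (hB : MeasurableSet B)
    (h : ∀ k j, 0 < k → ∫ x in B, gd k j (‖x‖ ^ 2 / 2) ≤ ∫ x in A, gd k j (‖x‖ ^ 2 / 2))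
    {r s : ℝ} (hr : 0 < r) (hs : r ≤ s) :
    volume.restrict (ball 0 s \ ball 0 r) B ≤ volume.restrict (ball 0 s \ ball 0 r) A := by
  have h1 := le_of_tendsto_of_tendsto' ((lim_gu (S := B) (hr.trans_le hs)).sub (lim_gu (S := B) hr))
    ((lim_gu (S := A) (hr.trans_le hs)).sub (lim_gu (S := A) hr)) fun N => by
      have k0 : (0 : ℝ) < N + 1 := by positivity
      have j0 : (N + 1 : ℝ) * (r ^ 2 / 2) ≤ (N + 1) * (s ^ 2 / 2) := by gcongr
      have := intervalIntegral.integral_mono j0 (prim_int k0 B _ _).1 (prim_int k0 A _ _).1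
        fun j => h _ j k0
      rw [(prim_int k0 B _ _).2, (prim_int k0 A _ _).2] at this
      exact le_of_mul_le_mul_left this k0
  have f : ∀ S t, volume (S ∩ ball (0 : E n) t) ≠ ⊤ := fun S t =>
    ((measure_mono inter_subset_right).trans_lt measure_ball_lt_top).ne
  have e : ∀ S : Set (E n), volume.real (S ∩ ball 0 s) - volume.real (S ∩ ball 0 r)
      = volume.real (S ∩ (ball 0 s \ ball 0 r)) := fun S => by
    rw [← measureReal_inter_add_sdiff (t := ball 0 r) measurableSet_ball (f S s), inter_assoc,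
      inter_eq_right.2 (ball_subset_ball hs), inter_sdiff_assoc, add_sub_cancel_left]
  rw [e, e] at h1
  rw [Measure.restrict_apply hA, Measure.restrict_apply hB]
  refine (ENNReal.toReal_le_toReal ?_ ?_).1 h1 <;>
    exact measure_ne_top_of_subset (inter_subset_inter_right _ sdiff_subset) (f _ s)

theorem exists_haar (n : ℕ) : ∃ (G : Type) (_ : MeasurableSpace G) (P : Measure G)
    (_ : IsProbabilityMeasure P) (ρ : G → E n ≃ₗᵢ[ℝ] E n), (Measurable fun z : G × E n => ρ z.1 z.2)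
    ∧ ∀ σ : E n ≃ₗᵢ[ℝ] E n, ∃ e : G → G, MeasurePreserving e P P ∧
      ∀ g x, ρ (e g) x = ρ g (σ x) := by
  have : ContinuousStar (E n →L[ℝ] E n) :=
    NormedStarGroup.to_continuousStar (E := E n →L[ℝ] E n)
  have : CompactSpace (unitary (E n →L[ℝ] E n)) := isCompact_iff_compactSpace.1
    ((isCompact_closedBall 0 1).of_isClosed_subset isClosed_unitary fun g hg =>
      mem_closedBall_zero_iff.2 (ContinuousLinearMap.opNorm_le_bound _ zero_le_one fun x => by
        rw [one_mul]; exact (Unitary.norm_map ⟨g, hg⟩ x).le))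
  refine ⟨unitary (E n →L[ℝ] E n), inferInstance, Measure.haarMeasure ⊤,
    ⟨Measure.haarMeasure_self⟩, fun g => Unitary.linearIsometryEquiv g⁻¹, ?_, fun σ =>
    ⟨_, measurePreserving_mul_left _ (Unitary.linearIsometryEquiv.symm σ)⁻¹, fun g x => by
      simp only [mul_inv_rev, inv_inv, map_mul, MulEquiv.apply_symm_apply]; rfl⟩⟩
  exact Continuous.measurable (f := fun z : unitary (E n →L[ℝ] E n) × E n =>
    ((z.1⁻¹ : unitary (E n →L[ℝ] E n)) : E n →L[ℝ] E n) z.2)
    ((continuous_subtype_val.comp continuous_fst.inv).clm_apply continuous_snd)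

theorem average {G : Type} [MeasurableSpace G] (P : Measure G) [IsProbabilityMeasure P]
    {ρ : G → E n ≃ₗᵢ[ℝ] E n} (hρ : Measurable fun z : G × E n => ρ z.1 z.2) {μ : Measure (E n)}
    [SFinite μ] (hμ : ∀ σ : E n ≃ₗᵢ[ℝ] E n, μ.map σ = μ) {A : Set (E n)} (hA : MeasurableSet A) :
    μ A = ∫⁻ x, P {g | ρ g x ∈ A} ∂μ := by
  refine Eq.trans ?_ (Measure.prod_apply_symm (hρ hA))
  rw [Measure.prod_apply (hρ hA), lintegral_congr (g := fun _ => μ A) fun g => ?_]
  · simp
  · conv_rhs => rw [← hμ (ρ g), Measure.map_apply (ρ g).continuous.measurable hA]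
    rfl

theorem cmp_cap {m : ℕ} [DecidableEq ι] (hι : Fintype.card ι = m + 4) {a b : ι → E (m + 3)}
    (ha : ∀ i, ‖a i‖ = 1) (hb : ∀ i, ‖b i‖ = 1)
    (hr : ∀ i l, i ≠ l → ⟪b i, b l⟫ = -1 / (m + 3 : ℝ)) {G : Type} [MeasurableSpace G]
    (P : Measure G) [IsProbabilityMeasure P] {ρ : G → E (m + 3) ≃ₗᵢ[ℝ] E (m + 3)}
    (hρ : Measurable fun z : G × E (m + 3) => ρ z.1 z.2)
    (he : ∀ σ : E (m + 3) ≃ₗᵢ[ℝ] E (m + 3), ∃ e : G → G, MeasurePreserving e P P ∧
      ∀ g x, ρ (e g) x = ρ g (σ x)) (x : E (m + 3)) (t : ℝ) :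
    P {g | ∀ i, ⟪b i, ρ g x⟫ ≤ t} ≤ P {g | ∀ i, ⟪a i, ρ g x⟫ ≤ t} := by
  have ms : ∀ (u : ι → E (m + 3)) y (s : ℝ), MeasurableSet {g | ∀ i, ⟪u i, ρ g y⟫ ≤ s} :=
    fun u y s => by
      simp only [ofPred_forall]
      exact MeasurableSet.iInter fun i => measurableSet_le (measurable_const.inner
        (hρ.comp (measurable_id.prodMk measurable_const))) measurable_const
  have rad : ∀ (u : ι → E (m + 3)) {x y : E (m + 3)} {s t : ℝ}, y ≠ 0 → ‖x‖ * s ≤ ‖y‖ * t →
      P {g | ∀ i, ⟪u i, ρ g y⟫ ≤ s} ≤ P {g | ∀ i, ⟪u i, ρ g x⟫ ≤ t} := fun u x y s t hy h => by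
    have n0 := norm_pos_iff.2 hy
    obtain ⟨e, e1, e2⟩ := he (ℝ ∙ (x - (‖x‖ / ‖y‖) • y))ᗮ.reflection
    rw [← e1.measure_preimage (ms u x t).nullMeasurableSet]
    refine measure_mono fun g hg i => ?_
    rw [e2, Submodule.reflection_sub (by simp [norm_smul, n0.ne']), map_smul, inner_smul_right]
    refine (mul_le_mul_of_nonneg_left (hg i) (by positivity)).trans ?_
    rwa [div_mul_eq_mul_div, div_le_iff₀' n0]
  rcases lt_or_ge t 0 with ht | ht
  · have e1 : ∑ c, b c = 0 := by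
      rw [← inner_self_eq_zero (𝕜 := ℝ), inner_sum]
      refine Finset.sum_eq_zero fun d _ => ?_
      rw [sum_inner, ← Finset.add_sum_erase _ _ (Finset.mem_univ d),
        Finset.sum_congr rfl fun c hc => hr c d (Finset.ne_of_mem_erase hc)]
      simp [hb, hι]
      field_simp
      ring
    rw [eq_empty_of_forall_notMem (s := {g | ∀ i, ⟪b i, ρ g x⟫ ≤ t}) fun g hg => ?_, measure_empty]
    · exact zero_le
    · have := Finset.sum_le_card_nsmul Finset.univ _ t fun i _ => hg i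
      rw [← sum_inner, e1, inner_zero_left, Finset.card_univ, hι, nsmul_eq_mul] at this
      exact (mul_neg_of_pos_of_neg (by positivity) ht).not_ge this
  by_cases hx : x = 0
  · exact measure_mono fun g _ i => by simpa [hx] using ht
  have n0 := norm_pos_iff.2 hx
  have key : ∀ s, t < s → P {g | ∀ i, ⟪b i, ρ g x⟫ ≤ t} ≤ P {g | ∀ i, ⟪a i, ρ g x⟫ ≤ s} := by
    intro s hs
    have s0 := ht.trans_lt hs
    have r0 : 0 < ‖x‖ / s := by positivity
    have r1 : ‖x‖ / s < 2 * ‖x‖ / (t + s) := by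
      rw [div_lt_div_iff₀ s0 (by positivity)]
      nlinarith
    have hS : MeasurableSet (ball (0 : E (m + 3)) (2 * ‖x‖ / (t + s)) \ ball 0 (‖x‖ / s)) :=
      measurableSet_ball.diff measurableSet_ball
    have h1 := shell_le (isClosed_T a).measurableSet (isClosed_T b).measurableSet
      (fun k j hk => F_le hk hι ha hb hr) r0 r1.le
    have inv : ∀ σ : E (m + 3) ≃ₗᵢ[ℝ] E (m + 3), (volume.restrict (ball (0 : E (m + 3))
        (2 * ‖x‖ / (t + s)) \ ball 0 (‖x‖ / s))).map σ = volume.restrict (ball (0 : E (m + 3))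
        (2 * ‖x‖ / (t + s)) \ ball 0 (‖x‖ / s)) := fun σ => by
      have := (σ.measurePreserving.restrict_preimage hS).map_eq
      rwa [show σ ⁻¹' _ = ball 0 (2 * ‖x‖ / (t + s)) \ ball 0 (‖x‖ / s) by ext y; simp] at this
    rw [average P hρ inv (isClosed_T a).measurableSet,
      average P hρ inv (isClosed_T b).measurableSet] at h1
    have h2 := (setLIntegral_mono' hS (f := fun _ => P {g | ∀ i, ⟪b i, ρ g x⟫ ≤ t}) fun y hy =>
      rad b hx (by
        have := (lt_div_iff₀ (by positivity)).1 (mem_ball_zero_iff.1 hy.1)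
        nlinarith [norm_nonneg y])).trans (h1.trans (setLIntegral_mono' hS
      (g := fun _ => P {g | ∀ i, ⟪a i, ρ g x⟫ ≤ s}) fun y hy => by
        have := not_lt.1 (mem_ball_zero_iff.not.1 hy.2)
        exact rad a (norm_pos_iff.1 (r0.trans_le this)) (by rwa [mul_one, ← div_le_iff₀ s0])))
    rw [setLIntegral_const, setLIntegral_const] at h2
    refine (ENNReal.mul_le_mul_iff_left (fun h0 => ?_)
      ((measure_mono sdiff_subset).trans_lt measure_ball_lt_top).ne).1 h2
    obtain ⟨r, r2, r3⟩ := exists_between r1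
    refine ((isOpen_ball.sdiff isClosed_closedBall).measure_pos volume ⟨(r / ‖x‖) • x, ?_⟩).ne'
      (measure_mono_null (sdiff_subset_sdiff_right ball_subset_closedBall) h0)
    simp [norm_smul, n0.ne', abs_of_pos (r0.trans r2), r2, r3]
  have e : {g | ∀ i, ⟪a i, ρ g x⟫ ≤ t} = ⋂ N : ℕ, {g | ∀ i, ⟪a i, ρ g x⟫ ≤ t + 1 / (N + 1)} := by
    ext g
    simp only [mem_iInter, mem_ofPred_eq]
    refine ⟨fun h N i => (h i).trans (le_add_of_nonneg_right (by positivity)),
      fun h i => le_of_forall_pos_le_add fun ε hε => ?_⟩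
    obtain ⟨N, hN⟩ := exists_nat_one_div_lt hε
    linarith [h N i]
  rw [e, Antitone.measure_iInter (fun N M h g hg i => (hg i).trans (by gcongr))
    (fun N => (ms _ _ _).nullMeasurableSet) ⟨0, measure_ne_top _ _⟩]
  exact le_iInf fun N => key _ (lt_add_of_pos_right _ (by positivity))

theorem caps {d : ℕ} (hd : 3 ≤ d) {a b : Fin (d + 1) → E d} (ha : ∀ i, ‖a i‖ = 1)
    (hb : ∀ i, ‖b i‖ = 1) (hr : ∀ i l, i ≠ l → ⟪b i, b l⟫ = -1 / (d : ℝ)) (μ : Measure (E d))
    [SFinite μ] (hμ : ∀ σ : E d ≃ₗᵢ[ℝ] E d, μ.map σ = μ) {θ : ℝ → ℝ} (hθ : Measurable θ) :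
    μ {x | ∀ i, ⟪b i, x⟫ ≤ θ ‖x‖} ≤ μ {x | ∀ i, ⟪a i, x⟫ ≤ θ ‖x‖} := by
  obtain ⟨m, rfl⟩ := Nat.exists_eq_add_of_le' hd
  obtain ⟨G, _, P, _, ρ, hρ, he⟩ := exists_haar (m + 3)
  have ms : ∀ u : Fin (m + 3 + 1) → E (m + 3), MeasurableSet {x | ∀ i, ⟪u i, x⟫ ≤ θ ‖x‖} :=
    fun u => by
      simp only [ofPred_forall]
      exact MeasurableSet.iInter fun i => measurableSet_le (measurable_const.inner measurable_id)
        (hθ.comp measurable_norm)
  rw [average P hρ hμ (ms a), average P hρ hμ (ms b)]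
  refine lintegral_mono fun x => ?_
  simpa using cmp_cap (by simp) ha hb (by simpa using hr) P hρ he x (θ ‖x‖)

end

end Pool.Agent.P.MP_bc3e0b_gt.Caps
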