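import Pool.Agent.P.MP_bc3e0b_gt.Orthant

set_option autoImplicit false

namespace Pool.Agent.P.MP_bc3e0b_gt.Caps

section

/-! Marginals of a log-concave function on a quadrant. -/

open MeasureTheory Set Filter Topology Matrix

variable {m : ℕ}

theorem integrable_gv (m : ℕ) {c : ℝ} (hc : 0 < c) :
    Integrable (fun y : Fin m → ℝ => Real.exp (-c * (y ⬝ᵥ y))) := by
  have : (fun y : Fin m → ℝ => Real.exp (-c * (y ⬝ᵥ y)))
      = fun y => ∏ i, Real.exp (-c * y i ^ 2) := by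
    funext y
    rw [← Real.exp_sum, dotProduct, Finset.mul_sum]
    simp only [sq]
  rw [this]
  exact Integrable.fintype_prod (f := fun _ s => Real.exp (-c * s ^ 2))
    fun _ => integrable_exp_neg_mul_sq hc

theorem gb_int {F : (Fin m → ℝ) → ℝ} (h : GB F) : Integrable F := by
  obtain ⟨hc, C, c, c0, hb⟩ := h
  exact Integrable.mono' ((integrable_gv m c0).const_mul C) hc.aestronglyMeasurable
    (Eventually.of_forall hb)

theorem gb_shift {F : (Fin m → ℝ) → ℝ} (h : GB F) (a : Fin m → ℝ) : GB fun z => F (z - a) := by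
  obtain ⟨hc, C, c, c0, hb⟩ := h
  refine ⟨hc.comp (by fun_prop), C * Real.exp (c * (a ⬝ᵥ a)), c / 2, by positivity,
    fun z => (hb _).trans ?_⟩
  rw [mul_assoc, ← Real.exp_add]
  refine mul_le_mul_of_nonneg_left (Real.exp_le_exp.2 ?_) (GB.nonneg_const hb)
  have h1 := dot_self_nonneg (z - (2 : ℝ) • a)
  simp only [sub_dotProduct, dotProduct_sub, smul_dotProduct, dotProduct_smul, smul_eq_mul,
    dotProduct_comm a z] at h1 ⊢
  nlinarith

theorem tendsto_shift {F : (Fin m → ℝ) → ℝ} (h : Integrable F) :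
    Tendsto (fun N : ℕ => ∫ z, F (z - fun _ => (N : ℝ)) ∂mu m) atTop (𝓝 (∫ z, F z)) := by
  have hm : ∀ N : ℕ, MeasurableSet (Set.univ.pi fun _ : Fin m => Ioi (-(N : ℝ))) :=
    fun N => MeasurableSet.univ_pi fun _ => measurableSet_Ioi
  have e : ∀ N : ℕ, ∫ z, F (z - fun _ => (N : ℝ)) ∂mu m
      = ∫ z in Set.univ.pi fun _ : Fin m => Ioi (-(N : ℝ)), F z := by
    intro N
    rw [mu_eq_restrict, ← integral_indicator (hm N),
      ← integral_sub_right_eq_self (μ := volume) (indicator _ F) (fun _ => (N : ℝ)),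
      ← integral_indicator (MeasurableSet.univ_pi fun _ => measurableSet_Ioi)]
    congr 1
    funext z
    simp [indicator]
  simp only [e]
  have := tendsto_setIntegral_of_monotone (μ := volume) (f := F) hm
    (fun a b hab => pi_mono fun _ _ => Ioi_subset_Ioi (neg_le_neg (Nat.cast_le.2 hab)))
    h.integrableOn
  rwa [eq_univ_of_forall (s := ⋃ N : ℕ, _) fun z => ?_, Measure.restrict_univ] at this
  obtain ⟨N, hN⟩ := exists_nat_gt ‖z‖
  refine mem_iUnion.2 ⟨N, fun i _ => ?_⟩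
  have := (abs_le.1 (norm_le_pi_norm z i)).1
  rw [mem_Ioi]
  linarith

/-- A convex exponent with two distinguished variables. -/
structure LC (V V1 V2 : ℝ × ℝ → (Fin m → ℝ) → ℝ) : Prop where
  conv : ∀ p p' z z' (θ : ℝ), 0 ≤ θ → θ ≤ 1 →
    V ((1 - θ) • p + θ • p') ((1 - θ) • z + θ • z') ≤ (1 - θ) * V p z + θ * V p' z'
  der : ∀ p d z, HasDerivAt (fun θ : ℝ => V (p + θ • d) z) (d.1 * V1 p z + d.2 * V2 p z) 0
  c0 : ∀ p, Continuous (V p)
  c1 : ∀ p, Continuous (V1 p)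
  c2 : ∀ p, Continuous (V2 p)
  dom : ∀ R : ℝ, ∃ C c : ℝ, 0 < c ∧ ∀ p, ‖p‖ ≤ R → ∀ z,
    Real.exp (-V p z) ≤ C * Real.exp (-c * (z ⬝ᵥ z)) ∧
    |V1 p z * Real.exp (-V p z)| ≤ C * Real.exp (-c * (z ⬝ᵥ z)) ∧
    |V2 p z * Real.exp (-V p z)| ≤ C * Real.exp (-c * (z ⬝ᵥ z))

/-- The marginal. -/
noncomputable def mg (V : ℝ × ℝ → (Fin m → ℝ) → ℝ) (p : ℝ × ℝ) : ℝ := ∫ z, Real.exp (-V p z)

/-- Minus a directional derivative of the marginal. -/
noncomputable def dg (V U : ℝ × ℝ → (Fin m → ℝ) → ℝ) (p : ℝ × ℝ) : ℝ :=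
  ∫ z, U p z * Real.exp (-V p z)

namespace LC

variable {V V1 V2 : ℝ × ℝ → (Fin m → ℝ) → ℝ}

theorem swap (h : LC V V1 V2) :
    LC (fun p => V p.swap) (fun p => V2 p.swap) (fun p => V1 p.swap) where
  conv p p' z z' θ h0 h1 := h.conv p.swap p'.swap z z' θ h0 h1
  der p d z := (h.der p.swap d.swap z).congr_deriv (add_comm _ _)
  c0 _ := h.c0 _
  c1 _ := h.c2 _
  c2 _ := h.c1 _
  dom R := by
    obtain ⟨C, c, c0, hb⟩ := h.dom R
    refine ⟨C, c, c0, fun p hp z => ?_⟩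
    have := hb p.swap (by rwa [Prod.norm_def, max_comm]) z
    exact ⟨this.1, this.2.2, this.2.1⟩

theorem gb (h : LC V V1 V2) (p : ℝ × ℝ) : GB (fun z => Real.exp (-V p z)) ∧
    GB (fun z => V1 p z * Real.exp (-V p z)) ∧ GB (fun z => V2 p z * Real.exp (-V p z)) := by
  obtain ⟨C, c, c0, hb⟩ := h.dom ‖p‖
  have := h.c0 p
  have := h.c1 p
  have := h.c2 p
  exact ⟨⟨by fun_prop, C, c, c0, fun z => by
    rw [abs_of_pos (Real.exp_pos _)]; exact (hb p le_rfl z).1⟩,
    ⟨by fun_prop, C, c, c0, fun z => (hb p le_rfl z).2.1⟩,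
    ⟨by fun_prop, C, c, c0, fun z => (hb p le_rfl z).2.2⟩⟩

theorem pos (h : LC V V1 V2) (p : ℝ × ℝ) : 0 < mg V p := integral_exp_pos (gb_int (h.gb p).1)

theorem logconc (h : LC V V1 V2) (p p' : ℝ × ℝ) {θ : ℝ} (h0 : 0 ≤ θ) (h1 : θ ≤ 1) :
    (1 - θ) * Real.log (mg V p) + θ * Real.log (mg V p')
      ≤ Real.log (mg V ((1 - θ) • p + θ • p')) := by
  have t := fun p => (tendsto_shift (gb_int (h.gb p).1)).log (h.pos p).ne'
  refine le_of_tendsto_of_tendsto' (((t p).const_mul _).add ((t p').const_mul _)) (t _)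
    fun N => ?_
  refine prekopa m (fun p z => V p (z - fun _ => (N : ℝ))) (fun p => gb_shift (h.gb p).1 _)
    (fun p p' z z' θ h0 h1 => ?_) p p' θ h0 h1
  convert h.conv p p' _ _ θ h0 h1 using 2
  funext i
  simp only [Pi.sub_apply, Pi.add_apply, Pi.smul_apply, smul_eq_mul]
  ring

theorem hasDerivAt (h : LC V V1 V2) (p d : ℝ × ℝ) :
    HasDerivAt (fun θ : ℝ => mg V (p + θ • d)) (-(d.1 * dg V V1 p + d.2 * dg V V2 p)) 0 := by
  obtain ⟨C, c, c0, hb⟩ := h.dom (‖p‖ + ‖d‖)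
  have key := hasDerivAt_integral_of_dominated_loc_of_deriv_le (μ := volume)
    (F := fun (θ : ℝ) z => Real.exp (-V (p + θ • d) z))
    (F' := fun (θ : ℝ) z => -(d.1 * (V1 (p + θ • d) z * Real.exp (-V (p + θ • d) z))
      + d.2 * (V2 (p + θ • d) z * Real.exp (-V (p + θ • d) z))))
    (bound := fun z => (|d.1| + |d.2|) * (C * Real.exp (-c * (z ⬝ᵥ z)))) (x₀ := 0)
    (Metric.ball_mem_nhds 0 one_pos)
    (Eventually.of_forall fun θ => (h.gb _).1.1.aestronglyMeasurable) (gb_int (h.gb _).1)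
    ((((h.gb _).2.1.1.const_mul _).add ((h.gb _).2.2.1.const_mul _)).neg.aestronglyMeasurable)
    (Eventually.of_forall fun z θ hθ => by
      have h1 : ‖p + θ • d‖ ≤ ‖p‖ + ‖d‖ := by
        refine (norm_add_le _ _).trans ?_
        rw [norm_smul]
        have := mul_le_of_le_one_left (norm_nonneg d) (mem_ball_zero_iff.1 hθ).le
        linarith
      obtain ⟨-, h2, h3⟩ := hb _ h1 z
      rw [norm_neg, add_mul]
      refine (abs_add_le _ _).trans ?_
      rw [abs_mul d.1, abs_mul d.2]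
      gcongr)
    (((integrable_gv m c0).const_mul C).const_mul _)
    (Eventually.of_forall fun z θ _ => by
      have h1 := h.der (p + θ • d) d z
      have h2 : HasDerivAt (fun x : ℝ => x - θ) 1 θ := (hasDerivAt_id θ).sub_const θ
      have h3 := HasDerivAt.comp_of_eq (h := fun x : ℝ => x - θ) θ h1 h2 (by simp)
      have e : ∀ x : ℝ, p + θ • d + (x - θ) • d = p + x • d := fun x => by module
      simp only [Function.comp_def, e] at h3
      exact h3.fun_neg.exp.congr_deriv (by ring))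
  refine key.2.congr_deriv ?_
  simp only [zero_smul, add_zero]
  rw [integral_neg, integral_add ((gb_int (h.gb p).2.1).const_mul _)
    ((gb_int (h.gb p).2.2).const_mul _), integral_const_mul, integral_const_mul]
  rfl

theorem hasDerivAt_axis (h : LC V V1 V2) (s : ℝ) :
    HasDerivAt (fun s => mg V (0, s)) (-dg V V2 (0, s)) s := by
  have h1 := h.hasDerivAt (0, s) (0, 1)
  have h2 : HasDerivAt (fun x : ℝ => x - s) 1 s := (hasDerivAt_id s).sub_const s
  have h3 := HasDerivAt.comp_of_eq (h := fun x : ℝ => x - s) s h1 h2 (by simp)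
  simpa [Function.comp_def] using h3

theorem tangent (h : LC V V1 V2) (s t : ℝ) :
    t * dg V V1 (0, s) ≤ -s * (-dg V V2 (0, s))
      + mg V (0, s) * (Real.log (mg V (0, s)) - Real.log (mg V (t, 0))) := by
  have gp := h.pos (0, s)
  have hd := (h.hasDerivAt (0, s) (t, -s)).log (by simpa using gp.ne')
  simp only [zero_smul, add_zero] at hd
  have hle : Real.log (mg V (t, 0)) - Real.log (mg V (0, s))
      ≤ -(t * dg V V1 (0, s) + -s * dg V V2 (0, s)) / mg V (0, s) := by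
    refine ge_of_tendsto hd.tendsto_slope_zero_right ?_
    filter_upwards [Ioo_mem_nhdsGT (zero_lt_one (α := ℝ))] with θ hθ
    have := h.logconc (0, s) (t, 0) hθ.1.le hθ.2.le
    have e : (1 - θ) • ((0, s) : ℝ × ℝ) + θ • (t, 0) = (0, s) + θ • (t, -s) := by
      ext <;> simp
      ring
    rw [e] at this
    rw [zero_add, zero_smul, add_zero, smul_eq_mul, ← div_eq_inv_mul, le_div_iff₀ hθ.1]
    linarith
  rw [le_div_iff₀ gp] at hle
  linarith

theorem flux (h : LC V V1 V2) (i0 : IntegrableOn (fun s => mg V (0, s)) (Ioi 0))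
    (i1 : IntegrableOn (fun s => dg V V1 (0, s)) (Ioi 0))
    (i2 : IntegrableOn (fun s => dg V V2 (0, s)) (Ioi 0)) :
    ∫ s in Ioi 0, dg V V1 (0, s)
      = mg V (0, 0) + ∫ s in Ioi 0, (dg V V1 (0, s) - dg V V2 (0, s)) := by
  have h1 := integral_Ioi_of_hasDerivAt_of_tendsto' (fun s _ => h.hasDerivAt_axis s) i2.neg
    (tendsto_zero_of_hasDerivAt_of_integrableOn_Ioi (fun s _ => h.hasDerivAt_axis s) i2.neg i0)
  rw [integral_neg] at h1
  rw [integral_sub i1 i2]
  linarith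

theorem key (h : LC V V1 V2) (i0 : IntegrableOn (fun s => mg V (0, s)) (Ioi 0))
    (i1 : IntegrableOn (fun s => dg V V1 (0, s)) (Ioi 0))
    (i2 : IntegrableOn (fun s => dg V V2 (0, s)) (Ioi 0))
    (j0 : IntegrableOn (fun s => mg V (s, 0)) (Ioi 0))
    (j1 : IntegrableOn (fun s => dg V V1 (s, 0)) (Ioi 0))
    (j2 : IntegrableOn (fun s => dg V V2 (s, 0)) (Ioi 0)) :
    max (mg V (0, 0) + ∫ s in Ioi 0, (dg V V1 (0, s) - dg V V2 (0, s))) 0
      * max (mg V (0, 0) + ∫ s in Ioi 0, (dg V V2 (s, 0) - dg V V1 (s, 0))) 0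
      ≤ mg V (0, 0) ^ 2 := by
  have two := two_dim h.hasDerivAt_axis h.swap.hasDerivAt_axis (fun s => h.pos _)
    (fun s => h.swap.pos _) i0 j0 i1 j2 (fun s t _ _ => h.tangent s t)
    (fun s t _ _ => h.swap.tangent s t)
  rw [h.flux i0 i1 i2] at two
  have e := h.swap.flux j0 j2 j1
  rw [sq]
  exact (mul_le_mul_of_nonneg_left (max_le_max_right 0 e.ge) (le_max_right _ _)).trans two

end LC

end

section

/-! The key inequality in coordinates. -/

open MeasureTheory Set Filter Topology Matrix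

/-- The log-concave tail profile. -/
noncomputable def gu (k j q : ℝ) : ℝ := Real.exp (-Real.exp (k * q - j))

/-- Minus its derivative. -/
noncomputable def gd (k j q : ℝ) : ℝ := k * Real.exp (k * q - j) * gu k j q

theorem gu_pos (k j q : ℝ) : 0 < gu k j q := Real.exp_pos _

theorem gd_pos {k : ℝ} (hk : 0 < k) (j q : ℝ) : 0 < gd k j q := by
  unfold gd gu; positivity

@[fun_prop] theorem continuous_gu (k j : ℝ) : Continuous (gu k j) := by unfold gu; fun_prop

@[fun_prop] theorem continuous_gd (k j : ℝ) : Continuous (gd k j) := by unfold gd; fun_prop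

theorem gu_le (k j q : ℝ) : gu k j q ≤ Real.exp j * Real.exp (-(k * q)) := by
  rw [gu, ← Real.exp_add]
  exact Real.exp_le_exp.2 (by linarith [Real.add_one_le_exp (k * q - j)])

theorem gd_le {k : ℝ} (hk : 0 < k) (j q : ℝ) :
    gd k j q ≤ 2 * k * Real.exp j * Real.exp (-(k * q)) := by
  have h1 := Real.pow_div_factorial_le_exp _ (Real.exp_pos (k * q - j)).le 2
  have h2 : Real.exp j * Real.exp (-(k * q)) * Real.exp (k * q - j) = 1 := by
    rw [← Real.exp_add, ← Real.exp_add, Real.exp_eq_one_iff]; ring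
  have h3 : 0 < Real.exp j * Real.exp (-(k * q)) := by positivity
  rw [gd, gu, Real.exp_neg (Real.exp _), ← div_eq_mul_inv, div_le_iff₀ (Real.exp_pos _)]
  have h4 := mul_le_mul_of_nonneg_left h1 (show 0 ≤ 2 * k * (Real.exp j * Real.exp (-(k * q))) by
    positivity)
  calc _ = 2 * k * (Real.exp j * Real.exp (-(k * q)))
        * (Real.exp (k * q - j) ^ 2 / ((2 : ℕ).factorial : ℕ)) := by
        simp only [Nat.factorial_two, Nat.cast_ofNat]
        linear_combination (-k * Real.exp (k * q - j)) * h2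
    _ ≤ _ := h4.trans_eq (by ring)

theorem abs_mul_exp_le {k : ℝ} (hk : 0 < k) (z : ℝ) :
    |z| * Real.exp (-(k * (z ^ 2 / 2))) ≤ 1 / k + 1 := by
  rw [Real.exp_neg, ← div_eq_mul_inv, div_le_iff₀ (Real.exp_pos _)]
  have h1 := Real.add_one_le_exp (k * (z ^ 2 / 2))
  have h2 : (1 / k + 1) * (k * (z ^ 2 / 2) + 1) = z ^ 2 / 2 + 1 + (1 / k + k * (z ^ 2 / 2)) := by
    field_simp; ring
  have h3 : 0 ≤ 1 / k + k * (z ^ 2 / 2) := by positivity
  have h4 := mul_le_mul_of_nonneg_left h1 (show 0 ≤ 1 / k + 1 by positivity)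
  nlinarith [sq_nonneg (|z| - 1), sq_abs z]

variable {m : ℕ} {ι : Type} [Fintype ι]

/-- The convex barrier of the side constraints. -/
noncomputable def om (w : ι → Fin m → ℝ) (α β : ℝ) (X : Fin m → ℝ) : ℝ :=
  ∑ i, Real.exp (α * (w i ⬝ᵥ X) - β)

/-- Its derivative in the direction `e`. -/
noncomputable def om' (w : ι → Fin m → ℝ) (α β : ℝ) (e X : Fin m → ℝ) : ℝ :=
  ∑ i, α * (w i ⬝ᵥ e) * Real.exp (α * (w i ⬝ᵥ X) - β)

@[fun_prop] theorem continuous_om (w : ι → Fin m → ℝ) (α β : ℝ) : Continuous (om w α β) := by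
  unfold om; fun_prop

@[fun_prop] theorem continuous_om' (w : ι → Fin m → ℝ) (α β : ℝ) (e : Fin m → ℝ) :
    Continuous (om' w α β e) := by
  unfold om'; fun_prop

theorem om_nonneg (w : ι → Fin m → ℝ) (α β : ℝ) (X : Fin m → ℝ) : 0 ≤ om w α β X :=
  Finset.sum_nonneg fun _ _ => (Real.exp_pos _).le

theorem exp_om_le (w : ι → Fin m → ℝ) (α β : ℝ) (X : Fin m → ℝ) : Real.exp (-om w α β X) ≤ 1 :=
  Real.exp_le_one_iff.2 (neg_nonpos.2 (om_nonneg w α β X))

theorem om'_le (w : ι → Fin m → ℝ) (α β : ℝ) (e X : Fin m → ℝ) :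
    |om' w α β e X| * Real.exp (-om w α β X) ≤ ∑ i, |α * (w i ⬝ᵥ e)| := by
  refine (mul_le_mul_of_nonneg_right (Finset.abs_sum_le_sum_abs _ _) (Real.exp_pos _).le).trans ?_
  rw [Finset.sum_mul]
  refine Finset.sum_le_sum fun i _ => ?_
  rw [abs_mul, abs_of_pos (Real.exp_pos _), mul_assoc]
  refine mul_le_of_le_one_right (abs_nonneg _) ?_
  have h1 : Real.exp (α * (w i ⬝ᵥ X) - β) ≤ om w α β X :=
    Finset.single_le_sum (f := fun i => Real.exp (α * (w i ⬝ᵥ X) - β))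
      (fun _ _ => (Real.exp_pos _).le) (Finset.mem_univ i)
  rw [Real.exp_neg, ← div_eq_mul_inv, div_le_one (Real.exp_pos _)]
  linarith [Real.add_one_le_exp (om w α β X)]

theorem exp_cvx {a b c θ : ℝ} (h0 : 0 ≤ θ) (h1 : θ ≤ 1) (h : c ≤ (1 - θ) * a + θ * b) :
    Real.exp c ≤ (1 - θ) * Real.exp a + θ * Real.exp b :=
  (Real.exp_le_exp.2 h).trans
    (convexOn_exp.2 (mem_univ a) (mem_univ b) (sub_nonneg.2 h1) h0 (by ring))

theorem gb_q {k : ℝ} (hk : 0 < k) (j : ℝ) (w : ι → Fin m → ℝ) (α β : ℝ) (e : Fin m → ℝ)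
    {q : (Fin m → ℝ) → ℝ} (hq : Continuous q) (hl : ∀ X, X ⬝ᵥ X / 2 ≤ q X) :
    GB (fun X => Real.exp (-om w α β X) * gu k j (q X)) ∧
    GB (fun X => om' w α β e X * (Real.exp (-om w α β X) * gu k j (q X))) ∧
    GB (fun X => gd k j (q X)) ∧ GB (fun X => Real.exp (-om w α β X) * gd k j (q X)) := by
  have h1 : ∀ X, Real.exp (-(k * q X)) ≤ Real.exp (-(k / 2) * (X ⬝ᵥ X)) := fun X =>
    Real.exp_le_exp.2 (by nlinarith [hl X])
  have h2 : ∀ X, gu k j (q X) ≤ Real.exp j * Real.exp (-(k / 2) * (X ⬝ᵥ X)) := fun X =>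
    (gu_le k j _).trans (mul_le_mul_of_nonneg_left (h1 X) (Real.exp_pos _).le)
  have h3 : ∀ X, gd k j (q X) ≤ 2 * k * Real.exp j * Real.exp (-(k / 2) * (X ⬝ᵥ X)) := fun X =>
    (gd_le hk j _).trans (mul_le_mul_of_nonneg_left (h1 X) (by positivity))
  refine ⟨⟨by fun_prop, Real.exp j, k / 2, by positivity, fun X => ?_⟩,
    ⟨by fun_prop, (∑ i, |α * (w i ⬝ᵥ e)|) * Real.exp j, k / 2, by positivity, fun X => ?_⟩,
    ⟨by fun_prop, 2 * k * Real.exp j, k / 2, by positivity, fun X => ?_⟩,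
    ⟨by fun_prop, 2 * k * Real.exp j, k / 2, by positivity, fun X => ?_⟩⟩
  · rw [abs_of_pos (mul_pos (Real.exp_pos _) (gu_pos _ _ _))]
    exact (mul_le_of_le_one_left (gu_pos _ _ _).le (exp_om_le w α β X)).trans (h2 X)
  · rw [abs_mul, abs_of_pos (mul_pos (Real.exp_pos _) (gu_pos _ _ _)), ← mul_assoc, mul_assoc _ _
      (Real.exp _)]
    exact mul_le_mul (om'_le w α β e X) (h2 X) (gu_pos _ _ _).le (by positivity)
  · rw [abs_of_pos (gd_pos hk _ _)]
    exact h3 X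
  · rw [abs_of_pos (mul_pos (Real.exp_pos _) (gd_pos hk _ _))]
    exact (mul_le_of_le_one_left (gd_pos hk _ _).le (exp_om_le w α β X)).trans (h3 X)

/-- Two facets, seen as graphs over a hyperplane. -/
structure Dat (m : ℕ) where
  n1 : ℝ
  n2 : ℝ
  γ : ℝ
  v1 : Fin (m + 1) → ℝ
  v2 : Fin (m + 1) → ℝ

namespace Dat

variable (D : Dat m)

/-- Height of the upper facet. -/
def L1 (X : Fin (m + 1) → ℝ) : ℝ := D.n1 - D.v1 ⬝ᵥ X

/-- Depth of the lower facet. -/
def L2 (X : Fin (m + 1) → ℝ) : ℝ := D.n2 - D.v2 ⬝ᵥ X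

/-- Slope of the width in the first coordinate. -/
def ν : ℝ := D.v1 0 + D.v2 0

/-- The point of width `s` above `η`. -/
noncomputable def xi (s : ℝ) (η : Fin m → ℝ) : Fin (m + 1) → ℝ :=
  Fin.cons ((D.n1 + D.n2 - s - (Fin.tail D.v1 + Fin.tail D.v2) ⬝ᵥ η) / D.ν) η

/-- Derivative of `xi` in the width. -/
noncomputable def e : Fin (m + 1) → ℝ := Fin.cons (-1 / D.ν) 0

/-- The convex quadratic function. -/
noncomputable def Q (p : ℝ × ℝ) (η : Fin m → ℝ) : ℝ :=
  ((D.L1 (D.xi (p.1 + p.2) η) - p.1) ^ 2 + D.xi (p.1 + p.2) η ⬝ᵥ D.xi (p.1 + p.2) η) / 2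
    + D.γ * p.1 * p.2

/-- Its derivative in the direction `d`. -/
noncomputable def Q' (d p : ℝ × ℝ) (η : Fin m → ℝ) : ℝ :=
  (D.L1 (D.xi (p.1 + p.2) η) - p.1) * (-(d.1 + d.2) * (D.v1 ⬝ᵥ D.e) - d.1)
    + (d.1 + d.2) * (D.e ⬝ᵥ D.xi (p.1 + p.2) η) + D.γ * (d.1 * p.2 + d.2 * p.1)

@[fun_prop] theorem continuous_L1 : Continuous D.L1 := by unfold L1; fun_prop

@[fun_prop] theorem continuous_L2 : Continuous D.L2 := by unfold L2; fun_prop

theorem continuous_xi2 : Continuous fun p : (Fin m → ℝ) × ℝ => D.xi p.2 p.1 := by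
  unfold xi; fun_prop

@[fun_prop] theorem continuous_xi (s : ℝ) : Continuous (D.xi s) := by unfold xi; fun_prop

theorem width (h : 0 < D.ν) (s : ℝ) (η : Fin m → ℝ) : D.L1 (D.xi s η) + D.L2 (D.xi s η) = s := by
  have e : ∀ v : Fin (m + 1) → ℝ, v ⬝ᵥ D.xi s η = v 0 * D.xi s η 0 + Fin.tail v ⬝ᵥ η := fun v => by
    simp [dotProduct, Fin.sum_univ_succ, xi, Fin.tail]
  have e2 : D.ν * D.xi s η 0 = D.n1 + D.n2 - s - (Fin.tail D.v1 + Fin.tail D.v2) ⬝ᵥ η := by
    simp only [xi, Fin.cons_zero]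
    field_simp
  rw [L1, L2, e, e]
  rw [ν, add_dotProduct] at e2
  linarith

theorem xi_add (s t : ℝ) (η : Fin m → ℝ) : D.xi (s + t) η = D.xi s η + t • D.e := by
  funext i
  refine Fin.cases ?_ (fun i => ?_) i
  · simp only [xi, e, Fin.cons_zero, Pi.add_apply, Pi.smul_apply, smul_eq_mul]
    ring
  · simp [xi, e]

theorem xi_comb (s s' θ : ℝ) (η η' : Fin m → ℝ) :
    D.xi ((1 - θ) * s + θ * s') ((1 - θ) • η + θ • η') = (1 - θ) • D.xi s η + θ • D.xi s' η' := by
  funext i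
  refine Fin.cases ?_ (fun i => ?_) i
  · simp only [xi, Fin.cons_zero, Pi.add_apply, Pi.smul_apply, smul_eq_mul, dotProduct_add,
      dotProduct_smul]
    ring
  · simp [xi]

theorem shear (h : 0 < D.ν) {H : (Fin (m + 1) → ℝ) → ℝ} (hH : Integrable H) :
    IntegrableOn (fun s => ∫ η, H (D.xi s η)) (Ioi 0) ∧
      ∫ s in Ioi 0, ∫ η, H (D.xi s η) = D.ν * ∫ X in {X | 0 < D.L1 X + D.L2 X}, H X := by
  have m1 : MeasurePreserving (fun p : (Fin m → ℝ) × ℝ => (p.1, D.xi p.2 p.1 0))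
      (volume.prod volume) (volume.prod (ENNReal.ofReal D.ν • volume)) := by
    refine (MeasurePreserving.id volume).skew_product (g := fun η s => D.xi s η 0)
      ((continuous_apply 0).comp D.continuous_xi2).measurable (Eventually.of_forall fun η => ?_)
    have e : (fun s => D.xi s η 0) = (fun x => D.xi 0 η 0 + x) ∘ fun s => (-1 / D.ν) * s := by
      funext s
      simp only [xi, Fin.cons_zero, Function.comp]
      ring
    rw [e, ← Measure.map_map (by fun_prop) (by fun_prop), Real.map_volume_mul_left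
      (div_ne_zero (by norm_num) h.ne'), Measure.map_smul, map_add_left_eq_self]
    congr 2
    rw [inv_div, div_neg, div_one, abs_neg, abs_of_pos h]
  have m2 := ((volume_preserving_piFinSuccAbove (fun _ : Fin (m + 1) => ℝ) 0).symm.comp
    Measure.measurePreserving_swap).smul_measure (ENNReal.ofReal D.ν)
  rw [Measure.prod_smul_right] at m1
  have m3 : MeasurePreserving (fun p : (Fin m → ℝ) × ℝ => D.xi p.2 p.1) (volume.prod volume)
      (ENNReal.ofReal D.ν • volume) := by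
    have e : (fun p : (Fin m → ℝ) × ℝ => D.xi p.2 p.1)
        = ((MeasurableEquiv.piFinSuccAbove (fun _ : Fin (m + 1) => ℝ) 0).symm ∘ Prod.swap)
          ∘ fun p : (Fin m → ℝ) × ℝ => (p.1, D.xi p.2 p.1 0) := by
      funext p
      simp [MeasurableEquiv.piFinSuccAbove_symm_apply, Fin.insertNthEquiv, xi]
    rw [e]
    exact m2.comp m1
  have hS : MeasurableSet {X | 0 < D.L1 X + D.L2 X} :=
    (isOpen_lt continuous_const (by fun_prop)).measurableSet
  have i1 : ∀ {G : (Fin (m + 1) → ℝ) → ℝ}, Integrable G →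
      Integrable (fun p : (Fin m → ℝ) × ℝ => G (D.xi p.2 p.1)) (volume.prod volume) := fun hG =>
    m3.integrable_comp_of_integrable (hG.smul_measure (c := ENNReal.ofReal D.ν) (by simp))
  refine ⟨(i1 hH).integral_prod_right.integrableOn, ?_⟩
  have h1 := integral_map (φ := fun p : (Fin m → ℝ) × ℝ => D.xi p.2 p.1)
    (μ := volume.prod volume) (f := indicator {X | 0 < D.L1 X + D.L2 X} H)
    m3.measurable.aemeasurable (by
      rw [m3.map_eq]
      exact ((hH.indicator hS).smul_measure (by simp)).aestronglyMeasurable)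
  rw [m3.map_eq, integral_smul_measure, ENNReal.toReal_ofReal h.le, integral_indicator hS,
    smul_eq_mul, integral_prod_symm _ (i1 (hH.indicator hS))] at h1
  rw [h1, ← integral_indicator measurableSet_Ioi]
  congr 1
  funext s
  by_cases hs : 0 < s <;> simp [indicator, D.width h, hs]

end Dat

end

end Pool.Agent.P.MP_bc3e0b_gt.Caps
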