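import Pool.Agent.P.MP_bc3e0b_gt.Caps.Symm

set_option autoImplicit false

namespace Pool.Agent.P.MP_bc3e0b_gt.Caps

section

/-! Some minimiser is a bounded simplex. -/

open MeasureTheory Set Filter Topology Function
open scoped RealInnerProductSpace

variable {n m : ℕ} {ι : Type} [Fintype ι] [DecidableEq ι] {k j : ℝ}

/-- The normals span the space positively. -/
def PS (u : ι → E n) : Prop := ∀ c, (∀ i, 0 ≤ ⟪c, u i⟫) → c = 0

theorem side_ps (hk : 0 < k) {u : ι → E n} (hu : Mi k j u) (h0 : ∀ c, (∀ i, ⟪c, u i⟫ = 0) → c = 0)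
    {c : E n} (h1 : ‖c‖ = 1) {i : ι} (hi : 0 < ⟪c, u i⟫) (hc : ∀ a, a ≠ i → ⟪c, u a⟫ = 0)
    {x : E n} (hx : ⟪c, x⟫ = 0) (h : ∀ a, a ≠ i → 0 ≤ ⟪x, u a⟫) : x = 0 := by
  have e : ∀ (s : ℝ) a, a ≠ i → ⟪x + s • c, u a⟫ = ⟪x, u a⟫ := fun s a ha => by
    simp [inner_add_left, inner_smul_left, hc a ha]
  have e' : ∀ s : ℝ, ⟪x + ((s - ⟪x, u i⟫) / ⟪c, u i⟫) • c, u i⟫ = s := fun s => by
    simp [inner_add_left, inner_smul_left, hi.ne']
  have h2 : ∀ a, a ≠ i → ⟪x, u a⟫ = 0 := fun a ha => (h a ha).eq_or_lt.resolve_right (fun hl =>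
    polar hk hu (c := x + ((1 - ⟪x, u i⟫) / ⟪c, u i⟫) • c) (fun b => by
      by_cases hb : b = i
      · rw [hb, e']; exact zero_le_one
      · rw [e _ b hb]; exact h b hb) ha (by rwa [e _ a ha]) (by rw [e']; exact one_pos)) |>.symm
  have h3 := h0 (x + ((0 - ⟪x, u i⟫) / ⟪c, u i⟫) • c) fun b => by
    by_cases hb : b = i
    · rw [hb, e']
    · rw [e _ b hb, h2 b hb]
  have h4 := congrArg (fun y => ⟪c, y⟫) h3
  simp only [inner_add_right, inner_smul_right, hx, real_inner_self_eq_norm_sq, h1,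
    inner_zero_right, one_pow, mul_one, zero_add] at h4
  rwa [h4, zero_smul, add_zero] at h3

theorem exists_ps (hk : 0 < k) (hι : Fintype.card ι = m + 4) :
    ∃ u : ι → E (m + 3), Mi k j u ∧ PS u := by
  obtain ⟨u, hu, h0⟩ := exists_span (j := j) hk hι
  by_cases hp : PS u
  · exact ⟨u, hu, hp⟩
  obtain ⟨c, hc1, hc⟩ : ∃ c : E (m + 3), ‖c‖ = 1 ∧ ∀ i, 0 ≤ ⟪c, u i⟫ := by
    obtain ⟨c, h1, h2⟩ := by simpa [PS] using hp
    exact ⟨‖c‖⁻¹ • c, norm_smul_inv_norm h2, fun i => by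
      rw [real_inner_smul_left]; exact mul_nonneg (by positivity) (h1 i)⟩
  obtain ⟨i, hi⟩ : ∃ i, 0 < ⟪c, u i⟫ := by
    by_contra hn
    push Not at hn
    simp [h0 c fun i => (hn i).antisymm (hc i)] at hc1
  have hH : ∀ a, a ≠ i → ⟪c, u a⟫ = 0 := fun a ha =>
    ((hc a).eq_or_lt.resolve_right fun h => polar hk hu hc ha h hi).symm
  obtain ⟨l, hli⟩ := Fintype.exists_ne_of_one_lt_card (by omega) i
  have hil := hli.symm
  obtain ⟨p1, p2, p3⟩ := up_proj hc1 (hu.1 i) hi.le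
  set v₁ := u i - ⟪c, u i⟫ • c
  have p4 : ‖v₁‖ < 1 := by nlinarith [norm_nonneg v₁]
  have hw : ∀ a, ⟪c, rest u i l a⟫ = 0 := fun a => by
    simp only [rest]
    split_ifs with h
    · simp
    · exact hH a (not_or.1 h).1
  have q1 : up (-c) (u l) = u l := by simp [up, hu.1]
  have seg : ∀ {v : E (m + 3)}, ⟪c, v⟫ = 0 → ‖v‖ < 1 → ∀ t : ℝ, ⟪c, v + t • (u l - v)⟫ = 0 ∧
      (t ∈ Icc (0 : ℝ) 1 → ‖v + t • (u l - v)‖ ≤ 1) ∧
      (t ∈ Ico (0 : ℝ) 1 → ‖v + t • (u l - v)‖ < 1) := fun {v} h1 h2 t =>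
    ⟨by simp [inner_add_right, inner_smul_right, inner_sub_right, h1, hH l hli], fun ht => by
      have := norm_seg (v₁ := v) (v₂ := u l) ht
      rw [hu.1] at this
      nlinarith [ht.2], fun ht => by
      have := norm_seg (v₁ := v) (v₂ := u l) (Ico_subset_Icc_self ht)
      rw [hu.1] at this
      nlinarith [ht.2]⟩
  obtain ⟨τ, ⟨t1, t2⟩, hτ⟩ := IsCompact.exists_isGreatest (s := Icc (0 : ℝ) 1 ∩
    {t | Xi k j (rest u i l) (up c (v₁ + t • (u l - v₁))) (u l) ≤ F k j u})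
    (isCompact_Icc.inter_right (isClosed_le ((cont_Xi hk j _).comp
      (f := fun t : ℝ => (up c (v₁ + t • (u l - v₁)), u l)) (by fun_prop)) continuous_const))
    ⟨0, ⟨le_rfl, zero_le_one⟩, by simp [p3, F_self u hil]⟩
  have t3 : τ < 1 := t1.2.lt_of_ne fun e => by
    simp only [e, one_smul, add_sub_cancel, mem_ofPred_eq] at t2
    rw [show up c (u l) = u l by simp [up, hu.1]] at t2
    refine no_coin hk (hu.pair hil (hu.1 l) (hu.1 l) t2) hc1 (fun a => ?_) hil (by simp [hil])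
    simp only [update_apply]
    split_ifs with h1 h2
    exacts [hH l hli, hH l hli, hH a h2]
  obtain ⟨z1, -, z2⟩ := seg p1 p4 τ
  replace z2 := z2 ⟨t1.1, t3⟩
  set v := v₁ + τ • (u l - v₁) with hv
  have hK : IsCompact {x : E (m + 3) | ‖x‖ = 1 ∧ ⟪c, x⟫ = 0 ∧ ∀ a, 0 ≤ ⟪x, rest u i l a⟫} := by
    refine (isCompact_sphere 0 1).of_isClosed_subset ?_ fun x hx => by simpa using hx.1
    simp only [ofPred_and, ofPred_forall]
    exact (isClosed_eq (by fun_prop) continuous_const).inter ((isClosed_eq (by fun_prop)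
      continuous_const).inter (isClosed_iInter fun a => isClosed_le continuous_const (by fun_prop)))
  have ev := hK.eventually_forall_of_forall_eventually (x₀ := ((0, 1) : ℝ × ℝ))
    (P := fun s x => √(1 - ‖v + s.1 • (u l - v)‖ ^ 2) * ⟪x, v + s.2 • (u l - v)⟫
      + √(1 - ‖v + s.2 • (u l - v)‖ ^ 2) * ⟪x, v + s.1 • (u l - v)⟫ < 0) fun x hx => by
      refine ContinuousAt.eventually_lt (Continuous.continuousAt (by fun_prop)) continuousAt_const ?_
      simp only [zero_smul, add_zero, one_smul, add_sub_cancel, hu.1, one_pow, sub_self,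
        Real.sqrt_zero, zero_mul]
      refine mul_neg_of_pos_of_neg (Real.sqrt_pos.2 (by nlinarith [norm_nonneg v]))
        (not_le.1 fun h => ?_)
      have := side_ps hk hu h0 hc1 hi hH hx.2.1 fun a ha => by
        by_cases e : a = l
        · rwa [e]
        · simpa [rest, ha, e] using hx.2.2 a
      simpa [this] using hx.1
  obtain ⟨ε, e0, hε⟩ := Metric.eventually_nhds_iff.1 ev
  have e1 : 0 < min (ε / 2) (1 / 2) := by positivity
  have e2 := min_le_left (ε / 2) (1 / 2)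
  have e3 := min_le_right (ε / 2) (1 / 2)
  obtain ⟨t, ht, hX⟩ := sym hk j hc1 hw z1 (hH l hli) z2.le (hu.1 l).le
    (l := 1 - min (ε / 2) (1 / 2)) ⟨by linarith, by linarith⟩
  rw [q1] at hX
  replace hX := hX.trans t2
  set s := t + (1 - min (ε / 2) (1 / 2)) with hs
  have s0 : 0 ≤ s := by linarith [ht.1]
  have s1 : s < 1 := (show s ≤ 1 by linarith [ht.2]).lt_of_ne fun e => by
    rw [e, one_smul, add_sub_cancel, q1,
      show v + t • (u l - v) = v₁ + (τ + t * (1 - τ)) • (u l - v₁) by rw [hv]; module] at hX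
    have := hτ ⟨⟨by nlinarith [t1.1, ht.1], by nlinarith [ht.2]⟩, hX⟩
    nlinarith
  obtain ⟨a1, -, a2⟩ := seg z1 z2 t
  obtain ⟨b1, -, b2⟩ := seg z1 z2 s
  replace a2 := a2 ⟨ht.1, by linarith [ht.2]⟩
  replace b2 := b2 ⟨s0, s1⟩
  refine ⟨_, hu.pair hil (norm_up hc1 a1 a2.le)
    (norm_up (c := -c) (by simpa) (by simpa using b1) b2.le) hX, fun y hy => ?_⟩
  have k1 := hε (y := (t, s)) (by
    rw [Prod.dist_eq, Real.dist_eq, Real.dist_eq, max_lt_iff, abs_lt, abs_lt]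
    simp only
    refine ⟨⟨?_, ?_⟩, ?_, ?_⟩ <;> linarith [ht.1, ht.2])
  simp only at k1
  have g1 : 0 < √(1 - ‖v + t • (u l - v)‖ ^ 2) := inner_up hc1 a1 ▸ inner_up_pos hc1 a1 a2
  have g2 : 0 < √(1 - ‖v + s • (u l - v)‖ ^ 2) := inner_up hc1 b1 ▸ inner_up_pos hc1 b1 b2
  have y1 := hy i
  have y2 := hy l
  rw [update_of_ne hil, update_self] at y1
  rw [update_self] at y2
  simp only [up] at y1 y2
  generalize v + t • (u l - v) = P at *
  generalize v + s • (u l - v) = Q at *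
  generalize √(1 - ‖P‖ ^ 2) = h at *
  generalize √(1 - ‖Q‖ ^ 2) = g at *
  simp only [inner_add_right, inner_smul_right, inner_neg_right, real_inner_comm c y] at y1 y2
  have e : ∀ z, ⟪c, z⟫ = 0 → ⟪y - ⟪c, y⟫ • c, z⟫ = ⟪y, z⟫ := fun z hz => by
    simp [inner_sub_left, inner_smul_left, hz]
  by_cases hx : y - ⟪c, y⟫ • c = 0
  · rw [← e _ a1, hx, inner_zero_left] at y1
    rw [← e _ b1, hx, inner_zero_left] at y2
    have : ⟪c, y⟫ = 0 := by nlinarith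
    simpa [this] using hx
  · have := k1 (‖y - ⟪c, y⟫ • c‖⁻¹ • (y - ⟪c, y⟫ • c)) ⟨norm_smul_inv_norm hx, by
      simp [inner_smul_right, inner_sub_right, hc1], fun a => by
      rw [real_inner_smul_left, e _ (hw a)]
      refine mul_nonneg (by positivity) ?_
      by_cases ha : a = i ∨ a = l
      · simp [rest, ha]
      · simpa [rest, not_or.1 ha] using hy a⟩
    rw [real_inner_smul_left, real_inner_smul_left, e _ a1, e _ b1] at this
    have n0 : 0 < ‖y - ⟪c, y⟫ • c‖⁻¹ := inv_pos.2 (norm_pos_iff.2 hx)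
    linarith [mul_nonneg n0.le (add_nonneg (mul_nonneg g1.le y2) (mul_nonneg g2.le y1))]

end

section

/-! At a minimiser of least volume any two facets are mirror images. -/

open MeasureTheory Set Filter Topology Function
open scoped RealInnerProductSpace

variable {n m : ℕ} {ι : Type} [Fintype ι] {k j : ℝ}

theorem penalty {α : Type} [TopologicalSpace α] {N : Set α} (hN : IsCompact N) {X V D : α → ℝ}
    (cX : Continuous X) (cV : Continuous V) (cD : Continuous D) {o : α} (ho : o ∈ N)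
    (D0 : D o = 0) (Dp : ∀ τ, D τ ≤ 0 → τ = o) (h1 : ∀ τ ∈ N, X o ≤ X τ)
    (h2 : ∀ τ ∈ N, X τ ≤ X o → V o ≤ V τ) {U : Set α} (hU : U ∈ 𝓝 o) :
    ∀ᶠ ε in 𝓝[>] (0 : ℝ), ∃ τ ∈ U, τ ∈ N ∧ IsMinOn (fun τ => X τ + ε * (V τ + D τ)) N τ := by
  have hC : IsCompact ((N ∩ {τ | V τ + D τ ≤ V o}) \ interior U) :=
    (hN.inter_right (isClosed_le (cV.add cD) continuous_const)).diff isOpen_interior
  have ev := hC.eventually_forall_of_forall_eventually (x₀ := (0 : ℝ))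
    (P := fun ε τ => X o + ε * V o < X τ + ε * (V τ + D τ)) fun τ hτ => by
      refine ContinuousAt.eventually_lt (Continuous.continuousAt (by fun_prop))
        (Continuous.continuousAt (by fun_prop)) ?_
      simp only [zero_mul, add_zero]
      refine not_le.1 fun h => hτ.2 ?_
      have h3 : V τ + D τ ≤ V o := hτ.1.2
      rw [Dp τ (by linarith [h2 τ hτ.1.1 h])]
      exact mem_interior_iff_mem_nhds.2 hU
  filter_upwards [ev.filter_mono nhdsWithin_le_nhds, self_mem_nhdsWithin] with ε h3 h4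
  obtain ⟨τ, t1, t2⟩ := hN.exists_isMinOn ⟨o, ho⟩ (f := fun τ => X τ + ε * (V τ + D τ))
    (Continuous.continuousOn (by fun_prop))
  refine ⟨τ, interior_subset (by_contra fun h => ?_), t1, t2⟩
  have t3 : X τ + ε * (V τ + D τ) ≤ X o + ε * (V o + D o) := t2 ho
  rw [D0, add_zero] at t3
  have t4 : V τ + D τ ≤ V o := le_of_mul_le_mul_left (by linarith [h1 τ t1]) h4
  exact (h3 τ ⟨⟨t1, t4⟩, h⟩).not_ge t3

theorem arith {P π A B a b ε C S : ℝ} (hε : 0 < ε) (hπ : 0 < π) (hP : π ≤ P) (hA : A = -ε * a)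
    (hB : B = -ε * b) (ha : |a| ≤ C) (hb : |b| ≤ C) (hS : 0 < S) (h0 : a + b ≤ -S) (h1 : ε * C < π)
    (h2 : ε * C ^ 2 < π * S) (key : max (P + A) 0 * max (P + B) 0 ≤ P ^ 2) : False := by
  have a1 := mul_le_mul_of_nonneg_left (abs_le.1 ha).2 hε.le
  have b1 := mul_le_mul_of_nonneg_left (abs_le.1 hb).2 hε.le
  rw [max_eq_left (by linarith), max_eq_left (by linarith), hA, hB] at key
  have c1 : -(a * b) ≤ C ^ 2 := (neg_le_abs _).trans (by
    rw [abs_mul, sq]; exact mul_le_mul ha hb (abs_nonneg _) ((abs_nonneg _).trans ha))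
  have c2 : π * S ≤ P * -(a + b) := mul_le_mul hP (by linarith) hS.le (by linarith)
  have c3 : ε * (P * -(a + b) + ε * (a * b)) ≤ ε * 0 := by linarith
  have c4 := le_of_mul_le_mul_left c3 hε
  nlinarith

theorem vol_ball (S : Set (E n)) (R : ℝ) :
    ∫ x in S, (Metric.closedBall (0 : E n) R).indicator (fun _ => (1 : ℝ)) x
      = volume.real (S ∩ Metric.closedBall 0 R) := by
  rw [setIntegral_indicator measurableSet_closedBall]
  simp

theorem int_ball (R : ℝ) :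
    Integrable ((Metric.closedBall (0 : E n) R).indicator fun _ => (1 : ℝ)) :=
  (integrable_indicator_iff measurableSet_closedBall).2
    (integrableOn_const measure_closedBall_lt_top.ne)

theorem mirror (hk : 0 < k) (ob : OrthonormalBasis (Fin (m + 2)) ℝ (E (m + 2)))
    {w : ι → E (m + 2)} (hw : ∀ i, co ob (w i) 0 = 0) {p₀ q₀ x : E (m + 2)} (n1 : ‖p₀‖ = 1)
    (n2 : ‖q₀‖ = 1) (hp : 0 < co ob p₀ 0) (hq : co ob q₀ 0 < 0) (hν : 0 < (dat ob p₀ q₀).ν)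
    (x1 : ∀ i, ⟪w i, x⟫ < 1) (x2 : ⟪p₀, x⟫ = 1) (x3 : ⟪q₀, x⟫ = 1) {R : ℝ}
    (hR : ∀ᶠ r : E (m + 2) × E (m + 2) in 𝓝 (p₀, q₀), Sl w r.1 r.2 ⊆ Metric.closedBall 0 R)
    (h1 : ∀ p q, ‖p‖ = 1 → ‖q‖ = 1 → Xi k j w p₀ q₀ ≤ Xi k j w p q)
    (h2 : ∀ p q, ‖p‖ = 1 → ‖q‖ = 1 → Xi k j w p q ≤ Xi k j w p₀ q₀ →
      volume (Sl w p₀ q₀) ≤ volume (Sl w p q)) : 1 / 2 ≤ (dat ob p₀ q₀).γ := by
  by_contra hγ
  have hc : ‖ob 0‖ = 1 := ob.norm_eq_one 0
  obtain ⟨π, hπ, hG⟩ := ridge_low ob hk j hw hp hq hν x1 x2 x3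
  obtain ⟨C, hC⟩ := deriv_vol ob hw R
  obtain ⟨ρ, ρ0, hρ⟩ := Metric.nhds_basis_closedBall.mem_iff.1 hR
  set V : E (m + 2) × E (m + 2) → ℝ := fun r =>
    ∫ x in Sl w r.1 r.2, (Metric.closedBall (0 : E (m + 2)) R).indicator (fun _ => (1 : ℝ)) x
    with hV
  have cV : Continuous V := cont_Sl (int_ball R) w
  have eV : ∀ r, Sl w r.1 r.2 ⊆ Metric.closedBall 0 R → V r = volume.real (Sl w r.1 r.2) :=
    fun r h => by rw [hV]; simp only [vol_ball, inter_eq_left.2 h]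
  have fV : ∀ r : E (m + 2) × E (m + 2), Sl w r.1 r.2 ⊆ Metric.closedBall 0 R →
    volume (Sl w r.1 r.2) ≠ ⊤ := fun r h => ((measure_mono h).trans_lt measure_closedBall_lt_top).ne
  have V0 : 0 < V (p₀, q₀) := by
    rw [eV _ hR.self_of_nhds]
    refine ENNReal.toReal_pos (Measure.measure_pos_of_mem_nhds (x := 0) _ ?_).ne'
      (fV _ hR.self_of_nhds)
    have : ∀ y : E (m + 2), ∀ᶠ x in 𝓝 (0 : E (m + 2)), ⟪y, x⟫ ≤ 1 := fun y =>
      (ContinuousAt.eventually_lt (f := fun x => ⟪y, x⟫) (Continuous.continuousAt (by fun_prop))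
        continuousAt_const (by simp)).mono fun _ => le_of_lt
    exact (eventually_all.2 fun i => this _).and ((this _).and (this _))
  have κ0 := (dat_cvx ob n1 n2 hp hq).1
  set S := (1 - 2 * (dat ob p₀ q₀).γ) * V (p₀, q₀) / 4 with hS
  have S0 : 0 < S := div_pos (mul_pos (by linarith [not_le.1 hγ]) V0) four_pos
  have hp' := hp.ne'
  have hq' := hq.ne
  have hq'' := (neg_pos.2 hq).ne'
  have κ' := κ0.ne'
  have hU : ∀ᶠ r : E (m + 2) × E (m + 2) in 𝓝 (p₀, q₀), 0 < co ob r.1 0 ∧ co ob r.2 0 < 0 ∧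
      0 < (dat ob r.1 r.2).ν ∧ dist r (p₀, q₀) < ρ ∧ 3 * S < (1 - 2 * (dat ob r.1 r.2).γ) * V r ∧
      |2 * ⟪r.1 - p₀, r.2 - r.1 + ((1 - ⟪r.1, r.2⟫) / co ob r.1 0) • ob 0⟫
        * (co ob r.1 0 ^ 2 / (1 - ⟪r.1, r.2⟫))| < S ∧
      |2 * ⟪r.2 - q₀, r.1 - r.2 + ((1 - ⟪r.1, r.2⟫) / co ob r.2 0) • ob 0⟫
        * (co ob r.2 0 ^ 2 / (1 - ⟪r.1, r.2⟫))| < S := by
    have cν : ContinuousAt (fun r : E (m + 2) × E (m + 2) => (dat ob r.1 r.2).ν) (p₀, q₀) := by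
      simp only [Dat.ν, dat, Pi.smul_apply, Fin.tail, smul_eq_mul]
      fun_prop (disch := assumption)
    have cγ : ContinuousAt (fun r : E (m + 2) × E (m + 2) =>
        (1 - 2 * (dat ob r.1 r.2).γ) * V r) (p₀, q₀) := by
      refine ContinuousAt.mul ?_ cV.continuousAt
      simp only [dat]
      fun_prop (disch := assumption)
    refine Eventually.and ?_ (Eventually.and ?_ (Eventually.and
      (continuousAt_const.eventually_lt cν hν) (Eventually.and ?_ (Eventually.and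
      (continuousAt_const.eventually_lt cγ (by linarith)) (Eventually.and ?_ ?_))))) <;>
    exact ContinuousAt.eventually_lt (by fun_prop (disch := assumption))
      (by fun_prop (disch := assumption)) (by simpa)
  have hN : IsCompact ({r : E (m + 2) × E (m + 2) | ‖r.1‖ = 1 ∧ ‖r.2‖ = 1}
      ∩ Metric.closedBall (p₀, q₀) ρ) := (isCompact_closedBall _ _).inter_left
    ((isClosed_eq (by fun_prop) continuous_const).inter
      (isClosed_eq (by fun_prop) continuous_const))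
  have pen := penalty hN (cont_Xi hk j w) cV (D := fun r => ‖r.1 - p₀‖ ^ 2 + ‖r.2 - q₀‖ ^ 2)
    (by fun_prop) (o := (p₀, q₀)) ⟨⟨n1, n2⟩, Metric.mem_closedBall_self ρ0.le⟩ (by simp)
    (fun r h => by
      have a1 : ‖r.1 - p₀‖ ^ 2 = 0 := by nlinarith [sq_nonneg ‖r.1 - p₀‖, sq_nonneg ‖r.2 - q₀‖]
      have a2 : ‖r.2 - q₀‖ ^ 2 = 0 := by nlinarith [sq_nonneg ‖r.1 - p₀‖, sq_nonneg ‖r.2 - q₀‖]
      exact Prod.ext (by simpa [sub_eq_zero] using a1) (by simpa [sub_eq_zero] using a2))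
    (fun r h => h1 _ _ h.1.1 h.1.2) (fun r h hX => by
      rw [eV _ hR.self_of_nhds, eV _ (hρ h.2)]
      exact ENNReal.toReal_mono (fV _ (hρ h.2)) (h2 _ _ h.1.1 h.1.2 hX)) (hU.and hG)
  have small : ∀ {a b : ℝ}, 0 < b → ∀ᶠ ε in 𝓝[>] (0 : ℝ), ε * a < b := fun {a b} h =>
    (ContinuousAt.eventually_lt (f := fun ε : ℝ => ε * a) (by fun_prop) continuousAt_const
      (by simpa)).filter_mono nhdsWithin_le_nhds
  obtain ⟨ε, ⟨⟨p, q⟩, ⟨⟨u1, u2, u3, u4, u5, u6, u7⟩, u8⟩, ⟨⟨m1, m2⟩, -⟩, hm⟩, e1, e2, e0⟩ :=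
    (pen.and ((small (a := C + S) hπ).and ((small (a := (C + S) ^ 2) (mul_pos hπ S0)).and
      self_mem_nhdsWithin))).exists
  simp only at u1 u2 u3 u5 u6 u7 u8 m1 m2
  have nb : ∀ᶠ r in 𝓝 (p, q), r ∈ Metric.closedBall (p₀, q₀) ρ :=
    Metric.closedBall_mem_nhds_of_mem u4
  obtain ⟨κ1, hcv⟩ := dat_cvx ob m1 m2 u1 u2
  obtain ⟨a, b, a1, b1, ab, hd⟩ := hC p q m1 m2 u1 u2 (nb.mono hρ)
  have fo : ∀ (P Q : ℝ → E (m + 2)) (s t : ℝ), P 0 = p → Q 0 = q →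
      HasDerivAt P (s • (q - p + ((1 - ⟪p, q⟫) / co ob p 0) • ob 0)) 0 →
      HasDerivAt Q (t • (p - q + ((1 - ⟪p, q⟫) / co ob q 0) • ob 0)) 0 →
      (∀ᶠ θ in 𝓝 0, ‖P θ‖ = 1) → (∀ᶠ θ in 𝓝 0, ‖Q θ‖ = 1) → _ = (0 : ℝ) :=
    fun P Q s t hP hQ dP dQ nP nQ => by
      have c3 := (dP.continuousAt.prodMk dQ.continuousAt).tendsto
      simp only [hP, hQ] at c3
      have d1 := (hd P Q s t hP hQ dP dQ).congr_of_eventuallyEq (f₁ := fun θ => V (P θ, Q θ))
        ((c3.eventually nb).mono fun θ h => eV _ (hρ h))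
      refine IsLocalMin.hasDerivAt_eq_zero ?_ ((deriv_Xi ob hk j hw u1 u2 κ1.ne' hP hQ dP dQ).add
        ((d1.add ((dP.sub_const p₀).norm_sq.add (dQ.sub_const q₀).norm_sq)).const_mul ε))
      filter_upwards [c3.eventually nb, nP, nQ] with θ c1 c2 c3
      simpa [hP, hQ] using hm (a := (P θ, Q θ)) ⟨⟨c2, c3⟩, c1⟩
  obtain ⟨v1, v2, v3⟩ := up_proj hc m1 u1.le
  obtain ⟨w1, w2, w3⟩ := up_proj (c := -ob 0) (by simp) m2 (by
    rw [inner_neg_left]; exact (neg_pos.2 u2).le)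
  have v4 : ‖p - ⟪ob 0, p⟫ • ob 0‖ < 1 := by
    have : 0 < ⟪ob 0, p⟫ := u1
    nlinarith [norm_nonneg (p - ⟪ob 0, p⟫ • ob 0)]
  have w4 : ‖q - ⟪-ob 0, q⟫ • -ob 0‖ < 1 := by
    have : 0 < ⟪-ob 0, q⟫ := by rw [inner_neg_left]; exact neg_pos.2 u2
    nlinarith [norm_nonneg (q - ⟪-ob 0, q⟫ • -ob 0)]
  have w5 : ⟪ob 0, q - ⟪-ob 0, q⟫ • -ob 0⟫ = 0 := by rwa [inner_neg_left, neg_eq_zero] at w1
  obtain ⟨d1, d2⟩ := moves hc v1 w5 v4 w4
  rw [v3, w3] at d1 d2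
  have un : ∀ {c v v' : E (m + 2)}, ‖c‖ = 1 → ⟪c, v⟫ = 0 → ⟪c, v'⟫ = 0 → ‖v‖ < 1 →
      ∀ᶠ θ : ℝ in 𝓝 0, ‖up c (v + θ • (v' - v))‖ = 1 := fun {c v v'} a1 a2 a3 a4 =>
    (ContinuousAt.eventually_lt (f := fun θ : ℝ => ‖v + θ • (v' - v)‖) (by fun_prop)
      continuousAt_const (by simpa)).mono fun θ h => norm_up a1 (by
        simp [inner_add_right, inner_smul_right, inner_sub_right, a2, a3]) h.le
  have f1 := fo _ (fun _ => q) 1 0 (by simpa using v3) rfl d1 (by simpa using hasDerivAt_const _ _)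
    (un hc v1 w5 v4) (Eventually.of_forall fun _ => m2)
  have f2 := fo (fun _ => p) _ 0 1 rfl (by simpa only [zero_smul, add_zero] using w3)
    (by simpa using hasDerivAt_const _ _) d2 (Eventually.of_forall fun _ => m1)
    (un (by simp) w1 (by rw [inner_neg_left, v1, neg_zero]) w4)
  simp only [one_smul, zero_smul, add_zero, v3, w3, inner_zero_right, one_mul, zero_mul, mul_zero,
    zero_div, zero_add] at f1 f2
  have := u1.ne'
  have := u2.ne
  have := κ1.ne'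
  refine arith e0 hπ u8 (a := a + _) (b := b + _) ?_ ?_
    ((abs_add_le _ _).trans (add_le_add a1 u6.le)) ((abs_add_le _ _).trans (add_le_add b1 u7.le))
    S0 ?_ e1 e2 (key_div u3 (Dat.key _ j _ hk u3 hcv))
  · field_simp at f1 ⊢
    linarith
  · field_simp at f2 ⊢
    linarith
  · rw [eV (p, q) (hρ nb.self_of_nhds)] at u5
    linarith [le_abs_self _ |>.trans u6.le, le_abs_self _ |>.trans u7.le]

end

end Pool.Agent.P.MP_bc3e0b_gt.Caps
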