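import Pool.Agent.P.MP_bc3e0b_gt.Caps.KeyIneq

set_option autoImplicit false

namespace Pool.Agent.P.MP_bc3e0b_gt.Caps

section

/-! Derivative of the mass between two moving facets. -/

open MeasureTheory Set Filter Topology Matrix

theorem null_level {F : Type} [NormedAddCommGroup F] [NormedSpace ℝ F] [MeasurableSpace F]
    [BorelSpace F] [FiniteDimensional ℝ F] (μ : Measure F) [μ.IsAddHaarMeasure] (f : F →ₗ[ℝ] ℝ)
    {a : ℝ} (ha : a ≠ 0) : ∀ᵐ x ∂μ, f x ≠ a := by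
  have := Measure.addHaar_affineSubspace μ ((affineSpan ℝ {a}).comap f.toAffineMap) fun h => by
    have : (0 : F) ∈ (affineSpan ℝ {a}).comap f.toAffineMap := h ▸ trivial
    simp at this
    exact ha this.symm
  rw [ae_iff]
  convert this using 2
  ext x
  simp

theorem integral_Icc_max {φ : ℝ → ℝ} (hc : Continuous φ) (h0 : ∀ z, 0 ≤ φ z) (x y : ℝ) :
    ∫ z in Icc x y, φ z = max ((∫ z in (0 : ℝ)..y, φ z) - ∫ z in (0 : ℝ)..x, φ z) 0 := by
  rw [intervalIntegral.integral_interval_sub_left (hc.intervalIntegrable _ _)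
    (hc.intervalIntegrable _ _)]
  rcases le_or_gt x y with h | h
  · rw [max_eq_left (intervalIntegral.integral_nonneg h fun z _ => h0 z),
      intervalIntegral.integral_of_le h, integral_Icc_eq_integral_Ioc]
  · rw [Icc_eq_empty_of_lt h, intervalIntegral.integral_symm, max_eq_right
      (neg_nonpos.2 (intervalIntegral.integral_nonneg h.le fun z _ => h0 z))]
    simp

theorem prim_lip {φ : ℝ → ℝ} (hc : Continuous φ) (h0 : ∀ z, 0 ≤ φ z) {b : ℝ} (hb : ∀ z, φ z ≤ b)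
    (x y : ℝ) : |(∫ z in (0 : ℝ)..x, φ z) - ∫ z in (0 : ℝ)..y, φ z| ≤ b * |x - y| := by
  rw [intervalIntegral.integral_interval_sub_left (hc.intervalIntegrable _ _)
    (hc.intervalIntegrable _ _)]
  exact intervalIntegral.norm_integral_le_of_norm_le_const fun z _ => by
    rw [Real.norm_of_nonneg (h0 z)]; exact hb z

theorem aff_le {n : ℕ} {a C : ℝ} {v : Fin n → ℝ} (ha : |a| ≤ C) (hv : ‖v‖ ≤ C) (X : Fin n → ℝ) :
    |a - v ⬝ᵥ X| ≤ C * (1 + ∑ i, |X i|) := by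
  refine (abs_sub _ _).trans ?_
  rw [mul_add, mul_one, Finset.mul_sum]
  refine add_le_add ha ((Finset.abs_sum_le_sum_abs _ _).trans (Finset.sum_le_sum fun i _ => ?_))
  rw [abs_mul]
  exact mul_le_mul_of_nonneg_right ((norm_le_pi_norm v i).trans hv) (abs_nonneg _)

theorem aff_path {n : ℕ} {a : ℝ → ℝ} {v : ℝ → Fin n → ℝ} {a' : ℝ} {v' : Fin n → ℝ}
    (ha : HasDerivAt a a' 0) (hv : HasDerivAt v v' 0) :
    (∀ X, HasDerivAt (fun θ => a θ - v θ ⬝ᵥ X) (a' - v' ⬝ᵥ X) 0) ∧ ∃ C : ℝ, ∀ᶠ θ in 𝓝 (0 : ℝ),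
      ∀ X, |(a θ - v θ ⬝ᵥ X) - (a 0 - v 0 ⬝ᵥ X)| ≤ C * |θ| * (1 + ∑ i, |X i|) := by
  refine ⟨fun X => ha.fun_sub (HasDerivAt.fun_sum fun i _ =>
    ((hasDerivAt_pi.1 hv) i).mul_const (X i)), ?_⟩
  obtain ⟨C, hC⟩ := ha.isBigO_sub.bound
  obtain ⟨C', hC'⟩ := hv.isBigO_sub.bound
  refine ⟨max C C', ?_⟩
  filter_upwards [hC, hC'] with θ h1 h2 X
  rw [sub_zero, Real.norm_eq_abs θ] at h1 h2
  have := aff_le (h1.trans (mul_le_mul_of_nonneg_right (le_max_left C C') (abs_nonneg θ)))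
    (h2.trans (mul_le_mul_of_nonneg_right (le_max_right C C') (abs_nonneg θ))) X
  rwa [sub_dotProduct, sub_sub_sub_comm] at this

theorem deriv_slab {n : ℕ} {μ : Measure (Fin n → ℝ)} (hμ : μ ≪ volume)
    {Φ : (Fin n → ℝ) → ℝ → ℝ} (hΦ : Continuous Φ.uncurry) {b : (Fin n → ℝ) → ℝ}
    (h0 : ∀ X z, 0 ≤ Φ X z) (hb : ∀ X z, Φ X z ≤ b X)
    (ib : Integrable (fun X => b X * (1 + ∑ i, |X i|)) μ) {n1 n2 : ℝ → ℝ}
    {v1 v2 : ℝ → Fin n → ℝ} {n1' n2' : ℝ} {v1' v2' : Fin n → ℝ} (d1 : HasDerivAt n1 n1' 0)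
    (e1 : HasDerivAt v1 v1' 0) (d2 : HasDerivAt n2 n2' 0) (e2 : HasDerivAt v2 v2' 0)
    (hn : n1 0 + n2 0 ≠ 0) :
    HasDerivAt (fun θ => ∫ X, (∫ z in Icc (-(n2 θ - v2 θ ⬝ᵥ X)) (n1 θ - v1 θ ⬝ᵥ X), Φ X z) ∂μ)
      (∫ X in {X | 0 < (n1 0 - v1 0 ⬝ᵥ X) + (n2 0 - v2 0 ⬝ᵥ X)},
        (Φ X (n1 0 - v1 0 ⬝ᵥ X) * (n1' - v1' ⬝ᵥ X)
          + Φ X (-(n2 0 - v2 0 ⬝ᵥ X)) * (n2' - v2' ⬝ᵥ X)) ∂μ) 0 := by
  obtain ⟨a1, C1, l1⟩ := aff_path d1 e1
  obtain ⟨a2, C2, l2⟩ := aff_path d2 e2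
  have hc : ∀ X, Continuous (Φ X) := fun X => hΦ.comp (Continuous.prodMk_right X)
  have hb0 : ∀ X, 0 ≤ b X := fun X => (h0 X 0).trans (hb X 0)
  have hS : MeasurableSet {X | 0 < (n1 0 - v1 0 ⬝ᵥ X) + (n2 0 - v2 0 ⬝ᵥ X)} :=
    (isOpen_lt continuous_const (by fun_prop)).measurableSet
  simp only [integral_Icc_max (hc _) (h0 _)]
  have hm : ∀ θ, AEStronglyMeasurable (fun X => max ((∫ z in (0 : ℝ)..(n1 θ - v1 θ ⬝ᵥ X), Φ X z)
      - ∫ z in (0 : ℝ)..(-(n2 θ - v2 θ ⬝ᵥ X)), Φ X z) 0) μ := fun θ =>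
    (((intervalIntegral.continuous_parametric_intervalIntegral_of_continuous hΦ (by fun_prop)).sub
      (intervalIntegral.continuous_parametric_intervalIntegral_of_continuous hΦ
        (by fun_prop))).max continuous_const).aestronglyMeasurable
  set F' : (Fin n → ℝ) → ℝ := indicator {X | 0 < (n1 0 - v1 0 ⬝ᵥ X) + (n2 0 - v2 0 ⬝ᵥ X)}
    fun X => Φ X (n1 0 - v1 0 ⬝ᵥ X) * (n1' - v1' ⬝ᵥ X)
      + Φ X (-(n2 0 - v2 0 ⬝ᵥ X)) * (n2' - v2' ⬝ᵥ X) with hF'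
  have hF'm : AEStronglyMeasurable F' μ := by
    refine (Continuous.aestronglyMeasurable ?_).indicator hS
    exact ((hΦ.comp (continuous_id.prodMk (by fun_prop))).mul (by fun_prop)).add
      ((hΦ.comp (continuous_id.prodMk (by fun_prop))).mul (by fun_prop))
  set L : ℝ →L[ℝ] ℝ →L[ℝ] ℝ := ContinuousLinearMap.smulRightL ℝ ℝ ℝ 1
  obtain ⟨hi, key⟩ := hasFDerivAt_integral_of_dominated_loc_of_lip' (μ := μ) (x₀ := (0 : ℝ))
    (F := fun θ X => max ((∫ z in (0 : ℝ)..(n1 θ - v1 θ ⬝ᵥ X), Φ X z)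
      - ∫ z in (0 : ℝ)..(-(n2 θ - v2 θ ⬝ᵥ X)), Φ X z) 0) (F' := L ∘ F')
    (bound := fun X => (C1 + C2) * (b X * (1 + ∑ i, |X i|))) (l1.and l2) (fun θ _ => hm θ)
    (Integrable.mono' (ib.const_mul (max |n1 0| ‖v1 0‖ + max |n2 0| ‖v2 0‖)) (hm 0)
      (Eventually.of_forall fun X => by
        have h1 := prim_lip (hc X) (h0 X) (hb X) (n1 0 - v1 0 ⬝ᵥ X) (-(n2 0 - v2 0 ⬝ᵥ X))
        have h2 := aff_le (le_max_left |n1 0| ‖v1 0‖) (le_max_right _ _) X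
        have h3 := aff_le (le_max_left |n2 0| ‖v2 0‖) (le_max_right _ _) X
        have h4 := abs_sub (n1 0 - v1 0 ⬝ᵥ X) (-(n2 0 - v2 0 ⬝ᵥ X))
        rw [abs_neg] at h4
        have h5 := abs_max_sub_max_le_abs ((∫ z in (0 : ℝ)..(n1 0 - v1 0 ⬝ᵥ X), Φ X z)
          - ∫ z in (0 : ℝ)..(-(n2 0 - v2 0 ⬝ᵥ X)), Φ X z) 0 0
        rw [max_self, sub_zero, sub_zero] at h5
        refine (h5.trans h1).trans ?_
        nlinarith [mul_le_mul_of_nonneg_left (h4.trans (add_le_add h2 h3)) (hb0 X)]))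
    (L.continuous.comp_aestronglyMeasurable hF'm)
    (Eventually.of_forall fun X θ hθ => by
      refine (abs_max_sub_max_le_abs _ _ 0).trans ?_
      have h1 := prim_lip (hc X) (h0 X) (hb X) (n1 θ - v1 θ ⬝ᵥ X) (n1 0 - v1 0 ⬝ᵥ X)
      have h2 := prim_lip (hc X) (h0 X) (hb X) (-(n2 θ - v2 θ ⬝ᵥ X)) (-(n2 0 - v2 0 ⬝ᵥ X))
      rw [neg_sub_neg, abs_sub_comm (n2 0 - _)] at h2
      rw [sub_sub_sub_comm, sub_zero, Real.norm_eq_abs]
      refine (abs_sub _ _).trans ?_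
      nlinarith [mul_le_mul_of_nonneg_left (hθ.1 X) (hb0 X),
        mul_le_mul_of_nonneg_left (hθ.2 X) (hb0 X)])
    (ib.const_mul _) (by
      filter_upwards [hμ.ae_le (null_level volume ((dotProductBilin ℝ ℝ) (v1 0 + v2 0)) hn)]
        with X hX
      refine HasDerivAt.hasFDerivAt (f' := F' X) ?_
      have ht : Tendsto (fun θ => (n1 θ - v1 θ ⬝ᵥ X) + (n2 θ - v2 θ ⬝ᵥ X)) (𝓝 0)
          (𝓝 ((n1 0 - v1 0 ⬝ᵥ X) + (n2 0 - v2 0 ⬝ᵥ X))) :=
        ((a1 X).fun_add (a2 X)).continuousAt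
      have hX' : (n1 0 - v1 0 ⬝ᵥ X) + (n2 0 - v2 0 ⬝ᵥ X) ≠ 0 := fun e => hX (by
        change (v1 0 + v2 0) ⬝ᵥ X = _
        rw [add_dotProduct]
        linarith)
      simp only [← integral_Icc_max (hc _) (h0 _)]
      rcases lt_or_gt_of_ne hX' with h | h
      · rw [hF', indicator_of_notMem (by simpa using h.le)]
        refine (hasDerivAt_const (0 : ℝ) (0 : ℝ)).congr_of_eventuallyEq ?_
        filter_upwards [ht.eventually_lt_const h] with θ hθ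
        rw [Icc_eq_empty_of_lt (by linarith)]
        simp
      · rw [hF', indicator_of_mem (by simpa using h)]
        have p1 := ((hc X).integral_hasStrictDerivAt 0 _).hasDerivAt.comp 0 (a1 X)
        have p2 := ((hc X).integral_hasStrictDerivAt 0 _).hasDerivAt.comp 0 (a2 X).fun_neg
        refine ((p1.fun_sub p2).congr_deriv (by ring)).congr_of_eventuallyEq ?_
        filter_upwards [ht.eventually_const_lt h] with θ hθ
        rw [integral_Icc_max (hc _) (h0 _), max_eq_left]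
        · rfl
        · rw [intervalIntegral.integral_interval_sub_left ((hc X).intervalIntegrable _ _)
            ((hc X).intervalIntegrable _ _)]
          exact intervalIntegral.integral_nonneg (by linarith) fun z _ => h0 X z)
  have hi' : Integrable F' μ := by
    refine hi.norm.mono' hF'm (Eventually.of_forall fun X => le_of_eq ?_)
    simp [L]
  rw [← integral_indicator hS, hasDerivAt_iff_hasFDerivAt]
  simpa only [(· ∘ ·), ContinuousLinearMap.integral_comp_comm _ hi'] using! key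

end

section

/-! Passage to Euclidean space. -/

open MeasureTheory Set Filter Topology Matrix
open scoped RealInnerProductSpace

/-- Euclidean space. -/
abbrev E (n : ℕ) := EuclideanSpace ℝ (Fin n)

variable {n : ℕ} {ι : Type} [Fintype ι]

/-- The region cut out by the side normals `w` and two more normals. -/
def Sl (w : ι → E n) (p q : E n) : Set (E n) :=
  {x | (∀ i, ⟪w i, x⟫ ≤ 1) ∧ ⟪p, x⟫ ≤ 1 ∧ ⟪q, x⟫ ≤ 1}

omit [Fintype ι] in
theorem isClosed_Sl (w : ι → E n) (p q : E n) : IsClosed (Sl w p q) := by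
  simp only [Sl, ofPred_and, ofPred_forall]
  exact (isClosed_iInter fun i => isClosed_le (by fun_prop) continuous_const).inter
    ((isClosed_le (by fun_prop) continuous_const).inter
      (isClosed_le (by fun_prop) continuous_const))

/-- Coordinates in an orthonormal basis. -/
noncomputable def co (ob : OrthonormalBasis (Fin n) ℝ (E n)) (u : E n) (i : Fin n) : ℝ := ⟪ob i, u⟫

/-- The point with given coordinates. -/
noncomputable def pt (ob : OrthonormalBasis (Fin n) ℝ (E n)) (y : Fin n → ℝ) : E n :=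
  ob.repr.symm (WithLp.toLp 2 y)

@[fun_prop] theorem continuous_co (ob : OrthonormalBasis (Fin n) ℝ (E n)) : Continuous (co ob) := by
  unfold co; fun_prop

@[fun_prop] theorem continuous_pt (ob : OrthonormalBasis (Fin n) ℝ (E n)) : Continuous (pt ob) := by
  unfold pt; fun_prop

theorem co_pt (ob : OrthonormalBasis (Fin n) ℝ (E n)) (y : Fin n → ℝ) : co ob (pt ob y) = y := by
  funext i
  rw [co, ← ob.repr_apply_apply, pt, LinearIsometryEquiv.apply_symm_apply]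

theorem inner_co (ob : OrthonormalBasis (Fin n) ℝ (E n)) (u v : E n) :
    ⟪u, v⟫ = co ob u ⬝ᵥ co ob v := by
  rw [← ob.sum_inner_mul_inner]
  simp only [dotProduct, co, real_inner_comm u]

theorem norm_pt (ob : OrthonormalBasis (Fin n) ℝ (E n)) (y : Fin n → ℝ) :
    ‖pt ob y‖ ^ 2 = y ⬝ᵥ y := by
  rw [← real_inner_self_eq_norm_sq, inner_co ob, co_pt]

theorem inner_cons (ob : OrthonormalBasis (Fin (n + 1)) ℝ (E (n + 1))) (u : E (n + 1)) (z : ℝ)
    (X : Fin n → ℝ) :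
    ⟪u, pt ob (Fin.cons z X)⟫ = co ob u 0 * z + Fin.tail (co ob u) ⬝ᵥ X := by
  rw [inner_co ob, co_pt]
  simp [dotProduct, Fin.sum_univ_succ, Fin.tail]

theorem chart_int (ob : OrthonormalBasis (Fin (n + 1)) ℝ (E (n + 1))) {G : E (n + 1) → ℝ}
    (hG : Integrable G) : ∫ x, G x = ∫ X : Fin n → ℝ, ∫ z, G (pt ob (Fin.cons z X)) := by
  have m1 : MeasurePreserving (fun p : ℝ × (Fin n → ℝ) => pt ob (Fin.cons p.1 p.2))
      (volume.prod volume) volume := by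
    have e : (fun p : ℝ × (Fin n → ℝ) => pt ob (Fin.cons p.1 p.2))
        = (ob.repr.symm ∘ WithLp.toLp 2)
          ∘ (MeasurableEquiv.piFinSuccAbove (fun _ : Fin (n + 1) => ℝ) 0).symm := by
      funext p
      simp [MeasurableEquiv.piFinSuccAbove_symm_apply, Fin.insertNthEquiv, pt]
    rw [e]
    exact (ob.repr.symm.measurePreserving.comp (PiLp.volume_preserving_toLp _)).comp
      (volume_preserving_piFinSuccAbove (fun _ : Fin (n + 1) => ℝ) 0).symm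
  rw [← integral_prod_symm (fun p : ℝ × (Fin n → ℝ) => G (pt ob (Fin.cons p.1 p.2)))
    (m1.integrable_comp_of_integrable hG), ← m1.map_eq,
    integral_map m1.measurable.aemeasurable (by rw [m1.map_eq]; exact hG.1)]

variable {m : ℕ} (ob : OrthonormalBasis (Fin (m + 2)) ℝ (E (m + 2)))

/-- The two facets in coordinates. -/
noncomputable def dat (p q : E (m + 2)) : Dat m where
  n1 := (co ob p 0)⁻¹
  n2 := (-co ob q 0)⁻¹
  γ := co ob p 0 * -co ob q 0 / (1 - ⟪p, q⟫)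
  v1 := (co ob p 0)⁻¹ • Fin.tail (co ob p)
  v2 := (-co ob q 0)⁻¹ • Fin.tail (co ob q)

omit [Fintype ι] in
theorem mem_Sl {w : ι → E (m + 2)} (hw : ∀ i, co ob (w i) 0 = 0) {p q : E (m + 2)}
    (hp : 0 < co ob p 0) (hq : co ob q 0 < 0) (z : ℝ) (X : Fin (m + 1) → ℝ) :
    pt ob (Fin.cons z X) ∈ Sl w p q ↔ (∀ i, Fin.tail (co ob (w i)) ⬝ᵥ X ≤ 1) ∧
      z ∈ Icc (-(dat ob p q).L2 X) ((dat ob p q).L1 X) := by
  have hq' : 0 < -co ob q 0 := neg_pos.2 hq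
  simp only [Sl, mem_ofPred_eq, inner_cons, hw, zero_mul, zero_add, mem_Icc, Dat.L1, Dat.L2, dat,
    smul_dotProduct, smul_eq_mul, ← mul_one_sub]
  rw [neg_le, le_inv_mul_iff₀ hp, le_inv_mul_iff₀ hq', and_comm (a := _ * -z ≤ _)]
  refine and_congr_right fun _ => and_congr ?_ ?_ <;> constructor <;> intro h <;> linarith

theorem int_Sl {w : ι → E (m + 2)} (hw : ∀ i, co ob (w i) 0 = 0) {p q : E (m + 2)}
    (hp : 0 < co ob p 0) (hq : co ob q 0 < 0) {G : E (m + 2) → ℝ}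
    (hG : IntegrableOn G (Sl w p q)) :
    ∫ x in Sl w p q, G x = ∫ X in {X | ∀ i, Fin.tail (co ob (w i)) ⬝ᵥ X ≤ 1},
      ∫ z in Icc (-(dat ob p q).L2 X) ((dat ob p q).L1 X), G (pt ob (Fin.cons z X)) := by
  have hS := (isClosed_Sl w p q).measurableSet
  rw [← integral_indicator hS, chart_int ob ((integrable_indicator_iff hS).2 hG),
    ← integral_indicator (measurableSet_K _)]
  congr 1
  funext X
  by_cases hX : ∀ i, Fin.tail (co ob (w i)) ⬝ᵥ X ≤ 1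
  · rw [indicator_of_mem (by exact hX), ← integral_indicator measurableSet_Icc]
    simp only [indicator, mem_Sl ob hw hp hq, hX, implies_true, true_and]
  · rw [indicator_of_notMem (by exact hX)]
    simp only [indicator, mem_Sl ob hw hp hq, hX, false_and, if_false, integral_zero]

theorem co_dir (p q : E (m + 2)) (s a : ℝ) :
    co ob (s • (q - p + a • ob 0)) 0 = s * (co ob q 0 - co ob p 0 + a) ∧ ∀ X,
      Fin.tail (co ob (s • (q - p + a • ob 0))) ⬝ᵥ X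
        = s * (Fin.tail (co ob q) ⬝ᵥ X - Fin.tail (co ob p) ⬝ᵥ X) := by
  refine ⟨by simp [co, inner_smul_right, inner_add_right, inner_sub_right, mul_add],
    fun X => ?_⟩
  rw [← sub_dotProduct, ← smul_eq_mul, ← smul_dotProduct]
  congr 1
  funext i
  simp [co, Fin.tail, inner_smul_right, inner_add_right, inner_sub_right,
    ob.inner_eq_zero (Fin.succ_ne_zero i)]

theorem deriv_dat {μ : Measure (Fin (m + 1) → ℝ)} (hμ : μ ≪ volume)
    {Φ : (Fin (m + 1) → ℝ) → ℝ → ℝ} (hΦ : Continuous Φ.uncurry) {b : (Fin (m + 1) → ℝ) → ℝ}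
    (h0 : ∀ X z, 0 ≤ Φ X z) (hb : ∀ X z, Φ X z ≤ b X)
    (ib : Integrable (fun X => b X * (1 + ∑ i, |X i|)) μ) {p q : E (m + 2)} (hp : 0 < co ob p 0)
    (hq : co ob q 0 < 0) (hκ : 1 - ⟪p, q⟫ ≠ 0) {P Q : ℝ → E (m + 2)} (hP : P 0 = p) (hQ : Q 0 = q)
    {s t : ℝ} (dP : HasDerivAt P (s • (q - p + ((1 - ⟪p, q⟫) / co ob p 0) • ob 0)) 0)
    (dQ : HasDerivAt Q (t • (p - q + ((1 - ⟪p, q⟫) / co ob q 0) • ob 0)) 0) :
    HasDerivAt (fun θ => ∫ X, (∫ z in Icc (-(dat ob (P θ) (Q θ)).L2 X) ((dat ob (P θ) (Q θ)).L1 X),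
        Φ X z) ∂μ)
      (∫ X in {X | 0 < (dat ob p q).L1 X + (dat ob p q).L2 X},
        (s * (1 - ⟪p, q⟫) / co ob p 0 ^ 2 * (((dat ob p q).γ
          * ((dat ob p q).L1 X + (dat ob p q).L2 X) - (dat ob p q).L1 X) * Φ X ((dat ob p q).L1 X))
        + t * (1 - ⟪p, q⟫) / co ob q 0 ^ 2 * (((dat ob p q).γ
          * ((dat ob p q).L1 X + (dat ob p q).L2 X) - (dat ob p q).L2 X)
            * Φ X (-(dat ob p q).L2 X))) ∂μ) 0 := by
  subst hP hQ
  have c1 : ∀ {R : ℝ → E (m + 2)} {R' : E (m + 2)}, HasDerivAt R R' 0 →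
      HasDerivAt (fun θ => co ob (R θ) 0) (co ob R' 0) 0 ∧
      HasDerivAt (fun θ => Fin.tail (co ob (R θ))) (Fin.tail (co ob R')) 0 := fun h =>
    ⟨(innerSL ℝ (ob 0)).hasFDerivAt.comp_hasDerivAt 0 h, hasDerivAt_pi.2 fun i =>
      (innerSL ℝ (ob i.succ)).hasFDerivAt.comp_hasDerivAt 0 h⟩
  have hq' : 0 < -co ob (Q 0) 0 := neg_pos.2 hq
  have d1 := (c1 dP).1.fun_inv hp.ne'
  have d2 := (c1 dQ).1.fun_neg.fun_inv hq'.ne'
  refine (deriv_slab hμ hΦ h0 hb ib d1 (d1.fun_smul (c1 dP).2) d2 (d2.fun_smul (c1 dQ).2)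
    (by positivity)).congr_deriv ?_
  congr 1
  funext X
  rw [mul_comm (Φ _ _), mul_comm (Φ _ _), ← mul_assoc, ← mul_assoc]
  have := hq.ne
  congr 2 <;>
  · simp only [dat, Dat.L1, Dat.L2, add_dotProduct, smul_dotProduct, smul_eq_mul, co_dir]
    field_simp
    ring

theorem dat_cvx {p q : E (m + 2)} (h1 : ‖p‖ = 1) (h2 : ‖q‖ = 1) (hp : 0 < co ob p 0)
    (hq : co ob q 0 < 0) : 0 < 1 - ⟪p, q⟫ ∧ ∀ z X, 0 ≤ (z ^ 2 + X ⬝ᵥ X) / 2 + (dat ob p q).γ
      * ((dat ob p q).v1 ⬝ᵥ X + z) * ((dat ob p q).v2 ⬝ᵥ X - z) := by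
  have e1 : ‖p - q‖ ^ 2 = 2 * (1 - ⟪p, q⟫) := by rw [norm_sub_sq_real, h1, h2]; ring
  have hκ : 0 < 1 - ⟪p, q⟫ := by
    have : p - q ≠ 0 := fun e => by rw [sub_eq_zero.1 e] at hp; linarith
    have := norm_pos_iff.2 this
    nlinarith
  refine ⟨hκ, fun z X => ?_⟩
  have e2 := norm_pt ob (Fin.cons z X)
  rw [dot_cons] at e2
  have e3 := abs_real_inner_le_norm (p - q) (pt ob (Fin.cons z X))
  have e4 := pow_le_pow_left₀ (abs_nonneg _) e3 2
  rw [sq_abs, mul_pow, e1, e2, inner_sub_left, inner_cons, inner_cons] at e4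
  have e5 : (dat ob p q).γ * ((dat ob p q).v1 ⬝ᵥ X + z) * ((dat ob p q).v2 ⬝ᵥ X - z)
      = (co ob p 0 * z + Fin.tail (co ob p) ⬝ᵥ X) * (co ob q 0 * z + Fin.tail (co ob q) ⬝ᵥ X)
        / (1 - ⟪p, q⟫) := by
    have := hq.ne
    simp only [dat, smul_dotProduct, smul_eq_mul]
    field_simp
    ring
  rw [e5, add_div' _ _ _ hκ.ne']
  refine div_nonneg ?_ hκ.le
  nlinarith [sq_nonneg (co ob p 0 * z + Fin.tail (co ob p) ⬝ᵥ X
    + (co ob q 0 * z + Fin.tail (co ob q) ⬝ᵥ X))]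

end

end Pool.Agent.P.MP_bc3e0b_gt.Caps
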