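import Pool.Agent.P.MP_bc3e0b_gt.Caps.Variation

set_option autoImplicit false

namespace Pool.Agent.P.MP_bc3e0b_gt.Caps

section

/-! The local symmetrisation of two facets. -/

open MeasureTheory Set Filter Topology
open scoped RealInnerProductSpace

variable {n m : ℕ} {ι : Type} [Fintype ι]

theorem nu_eq (ob : OrthonormalBasis (Fin (m + 2)) ℝ (E (m + 2))) (p q : E (m + 2)) :
    (dat ob p q).ν = (⟪ob 0, p⟫)⁻¹ * ⟪ob 1, p⟫ + (-⟪ob 0, q⟫)⁻¹ * ⟪ob 1, q⟫ := rfl

theorem sym0 {k : ℝ} (hk : 0 < k) (j : ℝ) (ob : OrthonormalBasis (Fin (m + 2)) ℝ (E (m + 2)))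
    {w : ι → E (m + 2)} (hw : ∀ i, co ob (w i) 0 = 0) {v₁ δ : E (m + 2)} {v : ℝ → E (m + 2)}
    (hv : v = fun t => v₁ + t • δ) (h0 : ∀ t, ⟪ob 0, v t⟫ = 0)
    (h1 : ∀ t ∈ Icc (0 : ℝ) 1, ‖v t‖ < 1 ∧ 0 < ⟪ob 1, v t⟫) {l e : ℝ} (hl : l ∈ Icc (0 : ℝ) 1)
    (he : 0 < e) : ∃ t ∈ Icc 0 (1 - l), Xi k j w (up (ob 0) (v t)) (up (-ob 0) (v (t + l)))
      ≤ Xi k j w (up (ob 0) (v 0)) (up (-ob 0) (v 1)) + e := by
  have hc : ‖ob 0‖ = 1 := ob.norm_eq_one 0
  have vc : Continuous v := by rw [hv]; fun_prop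
  have hΔ : IsCompact {τ : ℝ × ℝ | 0 ≤ τ.1 ∧ τ.2 ≤ 1 ∧ l ≤ τ.2 - τ.1} :=
    (isCompact_Icc (a := (0, 0)) (b := (1, 1))).of_isClosed_subset
      ((isClosed_le continuous_const continuous_fst).inter ((isClosed_le continuous_snd
        continuous_const).inter (isClosed_le continuous_const (continuous_snd.sub continuous_fst))))
      fun τ ⟨a, b, c⟩ => ⟨Prod.le_def.2 ⟨a, by linarith [hl.1]⟩,
        Prod.le_def.2 ⟨by linarith [hl.1], b⟩⟩
  have ho : ((0, 1) : ℝ × ℝ) ∈ {τ : ℝ × ℝ | 0 ≤ τ.1 ∧ τ.2 ≤ 1 ∧ l ≤ τ.2 - τ.1} :=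
    ⟨le_rfl, le_rfl, by simpa using hl.2⟩
  obtain ⟨⟨s, t⟩, ⟨a1, a2, a3⟩, hm⟩ := hΔ.exists_isMinOn ⟨_, ho⟩ (f := fun τ =>
    Xi k j w (up (ob 0) (v τ.1)) (up (-ob 0) (v τ.2)) + e * (τ.2 - τ.1))
    (((cont_Xi hk j w).comp (f := fun τ : ℝ × ℝ => (up (ob 0) (v τ.1), up (-ob 0) (v τ.2)))
      (by fun_prop)).add (by fun_prop)).continuousOn
  simp only at a1 a2 a3
  rcases a3.eq_or_lt with a3 | a3
  · have := hm ho
    simp only [mem_ofPred_eq] at this
    refine ⟨s, ⟨a1, by linarith⟩, ?_⟩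
    rw [show s + l = t by linarith]
    nlinarith [hl.1]
  exfalso
  have b0 : 0 < t - s := hl.1.trans_lt a3
  have b1 := h1 s ⟨a1, by linarith⟩
  have b2 := h1 t ⟨by linarith, a2⟩
  obtain ⟨d1, d2⟩ := moves hc (h0 s) (h0 t) b1.1 b2.1
  have hp : 0 < co ob (up (ob 0) (v s)) 0 := inner_up_pos hc (h0 s) b1.1
  have hq : co ob (up (-ob 0) (v t)) 0 < 0 := by
    have := inner_up_pos (c := -ob 0) (by simp) (by simpa using h0 t) b2.1
    rwa [inner_neg_left, neg_pos] at this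
  obtain ⟨hκ, hcv⟩ := dat_cvx ob (norm_up hc (h0 s) b1.1.le)
    (norm_up (c := -ob 0) (by simp) (by simpa using h0 t) b2.1.le) hp hq
  have hν : 0 < (dat ob (up (ob 0) (v s)) (up (-ob 0) (v t))).ν := by
    have h10 : ⟪ob 1, ob 0⟫ = 0 := ob.inner_eq_zero one_ne_zero
    have e1 : ⟪ob 1, up (ob 0) (v s)⟫ = ⟪ob 1, v s⟫ := by
      simp [up, inner_add_right, inner_smul_right, h10]
    have e2 : ⟪ob 1, up (-ob 0) (v t)⟫ = ⟪ob 1, v t⟫ := by
      simp [up, inner_add_right, inner_smul_right, h10]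
    rw [nu_eq, e1, e2]
    exact add_pos (mul_pos (inv_pos.2 hp) b1.2) (mul_pos (inv_pos.2 (neg_pos.2 hq)) b2.2)
  have key := Dat.key _ j (fun i => Fin.tail (co ob (w i))) hk hν hcv
  have ev : ∀ᶠ θ in 𝓝[>] (0 : ℝ), 0 < θ ∧ θ * (t - s) < t - s - l :=
    (eventually_mem_nhdsWithin).and (nhdsWithin_le_nhds ((show ContinuousAt
      (fun θ : ℝ => θ * (t - s)) 0 by fun_prop).eventually_lt_const (by simpa using a3)))
  have dl : HasDerivAt (fun θ : ℝ => e * (t - s - θ * (t - s))) (e * (s - t)) 0 := by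
    simpa using (((hasDerivAt_id (0 : ℝ)).mul_const (t - s)).const_sub (t - s)).const_mul e
  have hA := deriv_nonneg_of_min ((deriv_Xi ob hk j hw hp hq hκ.ne' (Q := fun _ => _) (t := 0)
    (by simp) rfl d1 (by simpa using hasDerivAt_const _ _)).add dl) (by
      filter_upwards [ev] with θ ⟨c1, c2⟩
      have := hm (a := (s + θ * (t - s), t)) ⟨by positivity, a2, by simp only; linarith⟩
      have e1 : v (s + θ * (t - s)) = v s + θ • (v t - v s) := by rw [hv]; module
      simp only [mem_ofPred_eq, e1] at this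
      simp only [Pi.add_apply, zero_smul, add_zero]
      linarith)
  have hB := deriv_nonneg_of_min ((deriv_Xi ob hk j hw hp hq hκ.ne' (P := fun _ => _) (s := 0)
    rfl (by simp) (by simpa using hasDerivAt_const _ _) d2).add dl) (by
      filter_upwards [ev] with θ ⟨c1, c2⟩
      have := hm (a := (s, t - θ * (t - s))) ⟨a1, by simp only; nlinarith, by simp only; linarith⟩
      have e1 : v (t - θ * (t - s)) = v t + θ • (v s - v t) := by rw [hv]; module
      simp only [mem_ofPred_eq, e1] at this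
      simp only [Pi.add_apply, zero_smul, add_zero]
      linarith)
  have hR : 0 ≤ (dat ob (up (ob 0) (v s)) (up (-ob 0) (v t))).Rg j
    (fun i => Fin.tail (co ob (w i))) k := integral_nonneg fun _ => (gu_pos _ _ _).le
  simp only [zero_mul, zero_div, add_zero, zero_add, one_mul] at hA hB
  have he' := mul_pos he b0
  have aux : ∀ {a x : ℝ}, 0 ≤ a → 0 ≤ a * x + e * (s - t) → 0 < x := fun ha h =>
    pos_of_mul_pos_right (by linarith) ha
  have hA' := mul_pos hν (aux (by positivity) hA)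
  have hB' := mul_pos hν (aux (by positivity) hB)
  rw [max_eq_left (by linarith), max_eq_left (by linarith)] at key
  nlinarith [mul_pos hA' hB', mul_nonneg hR hA'.le, mul_nonneg hR hB'.le]

theorem norm_seg {v₁ v₂ : E n} {t : ℝ} (ht : t ∈ Icc (0 : ℝ) 1) :
    ‖v₁ + t • (v₂ - v₁)‖ ≤ (1 - t) * ‖v₁‖ + t * ‖v₂‖ := by
  rw [show v₁ + t • (v₂ - v₁) = (1 - t) • v₁ + t • v₂ by module]
  refine (norm_add_le _ _).trans_eq ?_
  rw [norm_smul, norm_smul, Real.norm_of_nonneg ht.1, Real.norm_of_nonneg (sub_nonneg.2 ht.2)]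

theorem sym {k : ℝ} (hk : 0 < k) (j : ℝ) {w : ι → E (m + 3)} {c v₁ v₂ : E (m + 3)}
    (hc : ‖c‖ = 1) (hw : ∀ i, ⟪c, w i⟫ = 0) (h1 : ⟪c, v₁⟫ = 0) (h2 : ⟪c, v₂⟫ = 0)
    (n1 : ‖v₁‖ ≤ 1) (n2 : ‖v₂‖ ≤ 1) {l : ℝ} (hl : l ∈ Icc (0 : ℝ) 1) :
    ∃ t ∈ Icc 0 (1 - l), Xi k j w (up c (v₁ + t • (v₂ - v₁)))
      (up (-c) (v₁ + (t + l) • (v₂ - v₁))) ≤ Xi k j w (up c v₁) (up (-c) v₂) := by
  obtain ⟨a, ha, a1, a2, a3⟩ : ∃ a : E (m + 3), ‖a‖ = 1 ∧ ⟪a, c⟫ = 0 ∧ ⟪a, v₂ - v₁⟫ = 0 ∧
      0 ≤ ⟪a, v₁⟫ := by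
    obtain ⟨a, ha, h⟩ := exists_perp ![c, v₂ - v₁] Finset.univ (by simp)
    have a1 : ⟪a, c⟫ = 0 := h 0 (Finset.mem_univ _)
    have a2 : ⟪a, v₂ - v₁⟫ = 0 := h 1 (Finset.mem_univ _)
    rcases le_total 0 ⟪a, v₁⟫ with h | h
    · exact ⟨a, ha, a1, a2, h⟩
    · exact ⟨-a, by simpa, by simpa, by simpa, by simpa⟩
  rw [real_inner_comm] at a1
  obtain ⟨ob, rfl, rfl⟩ := exists_ob (m := m + 1) hc ha a1
  by_contra hn
  push Not at hn
  set V : ℝ → ℝ → E (m + 3) := fun e t => (1 - e) • (v₁ + t • (v₂ - v₁)) + (e / 2) • ob 1 with hV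
  have ev := (isCompact_Icc (a := 0) (b := 1 - l)).eventually_forall_of_forall_eventually
    (x₀ := (0 : ℝ)) (P := fun e t => Xi k j w (up (ob 0) (V e 0)) (up (-ob 0) (V e 1)) + e
      < Xi k j w (up (ob 0) (V e t)) (up (-ob 0) (V e (t + l)))) fun t ht => by
      refine ContinuousAt.eventually_lt (Continuous.continuousAt ?_) (Continuous.continuousAt ?_)
        (by simpa [hV] using hn t ht)
      · exact ((cont_Xi hk j w).comp (f := fun z : ℝ × ℝ => (up (ob 0) (V z.1 0),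
          up (-ob 0) (V z.1 1))) (by fun_prop)).add continuous_fst
      · exact (cont_Xi hk j w).comp (f := fun z : ℝ × ℝ => (up (ob 0) (V z.1 z.2),
          up (-ob 0) (V z.1 (z.2 + l)))) (by fun_prop)
  obtain ⟨e, h3, e0, e1⟩ := ((ev.filter_mono nhdsWithin_le_nhds).and
    (Ioo_mem_nhdsGT one_pos)).exists
  obtain ⟨t, ht, h4⟩ := sym0 hk j ob hw (v := V e) (v₁ := (1 - e) • v₁ + (e / 2) • ob 1)
    (δ := (1 - e) • (v₂ - v₁)) (by funext t; simp only [hV]; module)
    (fun t => by simp [hV, inner_add_right, inner_sub_right, inner_smul_right, h1, h2, a1])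
    (fun t ht => by
      have := norm_seg (v₁ := v₁) (v₂ := v₂) ht
      constructor
      · refine (norm_add_le _ _).trans_lt ?_
        rw [norm_smul, norm_smul, ha, Real.norm_of_nonneg (by linarith),
          Real.norm_of_nonneg (by linarith)]
        have : ‖v₁ + t • (v₂ - v₁)‖ ≤ 1 := by nlinarith [ht.1, ht.2]
        nlinarith
      · simp only [hV, inner_add_right, inner_smul_right, a2, real_inner_self_eq_norm_sq, ha]
        nlinarith) hl e0
  exact (h3 t ht).not_ge h4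

end

section

/-! Minimisers: polarisation and rank. -/

open MeasureTheory Set Filter Topology Function
open scoped RealInnerProductSpace

variable {n m : ℕ} {ι : Type} [Fintype ι] [DecidableEq ι] {k j : ℝ}

/-- The mass of the polyhedron. -/
noncomputable def F (k j : ℝ) (u : ι → E n) : ℝ := ∫ x in T u, gd k j (‖x‖ ^ 2 / 2)

/-- Global minimisers among unit normals. -/
def Mi (k j : ℝ) (u : ι → E n) : Prop :=
  (∀ i, ‖u i‖ = 1) ∧ ∀ u' : ι → E n, (∀ i, ‖u' i‖ = 1) → F k j u ≤ F k j u'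

/-- The normals with two of them removed. -/
def rest (u : ι → E n) (i l a : ι) : E n := if a = i ∨ a = l then 0 else u a

omit [Fintype ι] in
theorem T_pair (u : ι → E n) {i l : ι} (h : i ≠ l) (p q : E n) :
    T (update (update u i p) l q) = Sl (rest u i l) p q := by
  ext x
  refine ⟨fun hx => ⟨fun a => ?_, by simpa [h] using hx i, by simpa using hx l⟩, fun hx a => ?_⟩
  · by_cases ha : a = i ∨ a = l
    · simp [rest, ha]
    · simpa [rest, not_or.1 ha] using hx a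
  · by_cases h1 : a = l
    · simpa [h1] using hx.2.2
    · by_cases h2 : a = i
      · simpa [h2, h] using hx.2.1
      · simpa [rest, h1, h2] using hx.1 a

omit [Fintype ι] in
theorem F_pair (u : ι → E n) {i l : ι} (h : i ≠ l) (p q : E n) :
    F k j (update (update u i p) l q) = Xi k j (rest u i l) p q := by rw [F, T_pair u h, Xi]

omit [Fintype ι] in
theorem F_self (u : ι → E n) {i l : ι} (h : i ≠ l) : F k j u = Xi k j (rest u i l) (u i) (u l) := by
  rw [← F_pair u h, update_eq_self, update_eq_self]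

omit [Fintype ι] in
theorem unit_pair {u : ι → E n} (hu : ∀ a, ‖u a‖ = 1) (i l : ι) {p q : E n} (hp : ‖p‖ = 1)
    (hq : ‖q‖ = 1) (a : ι) : ‖update (update u i p) l q a‖ = 1 := by
  simp only [update_apply]
  split_ifs <;> simp [*]

omit [Fintype ι] in
theorem Mi.pair {u : ι → E n} (hu : Mi k j u) {i l : ι} (h : i ≠ l) {p q : E n} (hp : ‖p‖ = 1)
    (hq : ‖q‖ = 1) (hX : Xi k j (rest u i l) p q ≤ F k j u) :
    Mi k j (update (update u i p) l q) :=
  ⟨unit_pair hu.1 i l hp hq, fun u' h' => (F_pair u h p q).trans_le (hX.trans (hu.2 u' h'))⟩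

theorem pos_int {G : E n → ℝ} (hG : Integrable G) (h0 : ∀ x, 0 ≤ G x) {O : Set (E n)}
    (hO : IsOpen O) (hne : O.Nonempty) (h : ∀ x ∈ O, 0 < G x) : 0 < ∫ x, G x :=
  (integral_pos_iff_support_of_nonneg h0 hG).2
    ((hO.measure_pos _ hne).trans_le (measure_mono fun x hx => (h x hx).ne'))

theorem int_iso (σ : E n ≃ₗᵢ[ℝ] E n) (S : Set (E n)) :
    ∫ x in σ ⁻¹' S, gd k j (‖x‖ ^ 2 / 2) = ∫ x in S, gd k j (‖x‖ ^ 2 / 2) := by
  simpa using σ.measurePreserving.setIntegral_preimage_emb σ.toHomeomorph.measurableEmbedding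
    (fun x => gd k j (‖x‖ ^ 2 / 2)) S

theorem polar (hk : 0 < k) {u : ι → E n} (hu : Mi k j u) {c : E n} (hc : ∀ a, 0 ≤ ⟪c, u a⟫)
    {i l : ι} (hil : i ≠ l) (hi : 0 < ⟪c, u i⟫) (hl : 0 < ⟪c, u l⟫) : False := by
  set σ : E n ≃ₗᵢ[ℝ] E n := (ℝ ∙ c)ᗮ.reflection with hσ
  have s1 : ∀ x, σ (σ x) = x := Submodule.reflection_reflection _
  have s2 : ∀ a x, ⟪u a, σ x⟫ = ⟪u a, x⟫ - 2 * (⟪c, x⟫ / ‖c‖ ^ 2) * ⟪c, u a⟫ := fun a x => by
    simp [hσ, Submodule.reflection_orthogonal_apply, Submodule.reflection_singleton_apply,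
      inner_sub_right, two_smul, inner_add_right, inner_smul_right, real_inner_comm (u a) c]
    ring
  set u' := update u i (σ (u i)) with hu'
  have m1 : ∀ x, x ∈ T u' ↔ (∀ a, a ≠ i → ⟪u a, x⟫ ≤ 1) ∧ ⟪u i, σ x⟫ ≤ 1 := fun x => by
    rw [T, mem_ofPred_eq, hu', forall_update_iff u (fun _ y => ⟪y, x⟫ ≤ 1), and_comm,
      σ.inner_map_eq_flip]
    rfl
  have m2 : ∀ x, x ∈ T u' → x ∈ T u ∨ σ x ∈ T u := fun x hx => by
    rw [m1] at hx
    rcases le_total 0 ⟪c, x⟫ with h | h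
    · refine Or.inr fun a => ?_
      by_cases ha : a = i
      · exact ha ▸ hx.2
      · have := mul_nonneg (div_nonneg h (sq_nonneg ‖c‖)) (hc a)
        linarith [hx.1 a ha, s2 a x]
    · refine Or.inl fun a => ?_
      by_cases ha : a = i
      · have := mul_nonpos_of_nonpos_of_nonneg (div_nonpos_of_nonpos_of_nonneg h (sq_nonneg ‖c‖))
          (hc i)
        rw [ha]
        linarith [hx.2, s2 i x]
      · exact hx.1 a ha
  have m3 : ∀ x, x ∈ T u' → σ x ∈ T u' → x ∈ T u := fun x h1 h2 a => by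
    rw [m1] at h1 h2
    by_cases ha : a = i
    · exact ha ▸ (s1 x) ▸ h2.2
    · exact h1.1 a ha
  have hφ := integrable_gd hk j n
  have t1 := fun v : ι → E n => (isClosed_T v).measurableSet
  have t2 := fun v : ι → E n => σ.continuous.measurable (t1 v)
  have key := pos_int (((hφ.indicator (t1 u)).add (hφ.indicator (t2 u))).sub
    ((hφ.indicator (t1 u')).add (hφ.indicator (t2 u')))) (fun x => by
      have g := gd_pos hk j (‖x‖ ^ 2 / 2)
      have a1 := m2 x
      have a2 := m2 (σ x)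
      have a3 := m3 x
      have a4 := m3 (σ x)
      rw [s1] at a2 a4
      simp only [Pi.sub_apply, Pi.add_apply, indicator, mem_preimage]
      split_ifs <;> first | linarith | tauto)
    (O := {x | (∀ a, ⟪u a, σ x⟫ < 1) ∧ 1 < ⟪u i, x⟫ ∧ 1 < ⟪u l, x⟫}) (by
      simp only [ofPred_and, ofPred_forall]
      exact (isOpen_iInter_of_finite fun a => isOpen_lt (by fun_prop) continuous_const).inter
        ((isOpen_lt continuous_const (by fun_prop)).inter
          (isOpen_lt continuous_const (by fun_prop))))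
    ⟨(2 / ⟪c, u i⟫ + 2 / ⟪c, u l⟫) • c, fun a => by
      rw [map_smul, hσ, Submodule.reflection_orthogonalComplement_singleton_eq_neg,
        inner_smul_right, inner_neg_right, real_inner_comm c (u a)]
      have := mul_nonneg (by positivity : 0 ≤ 2 / ⟪c, u i⟫ + 2 / ⟪c, u l⟫) (hc a)
      linarith, by
      rw [inner_smul_right, real_inner_comm c (u i), add_mul, div_mul_cancel₀ _ hi.ne']
      have : 0 < 2 / ⟪c, u l⟫ * ⟪c, u i⟫ := by positivity
      linarith, by
      rw [inner_smul_right, real_inner_comm c (u l), add_mul, div_mul_cancel₀ _ hl.ne']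
      have : 0 < 2 / ⟪c, u i⟫ * ⟪c, u l⟫ := by positivity
      linarith⟩ fun x ⟨b1, b2, b3⟩ => by
      have a1 : x ∉ T u := fun h => (h i).not_gt b2
      have a2 : σ x ∈ T u := fun a => (b1 a).le
      have a3 : x ∉ T u' := fun h => (((m1 x).1 h).1 l hil.symm).not_gt b3
      have a4 : σ x ∉ T u' := fun h => ((s1 x) ▸ ((m1 _).1 h).2 : ⟪u i, x⟫ ≤ 1).not_gt b2
      simpa [indicator, a1, a2, a3, a4] using gd_pos hk j _
  rw [integral_sub' ((hφ.indicator (t1 u)).add (hφ.indicator (t2 u)))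
    ((hφ.indicator (t1 u')).add (hφ.indicator (t2 u'))),
    integral_add' (hφ.indicator (t1 u)) (hφ.indicator (t2 u)),
    integral_add' (hφ.indicator (t1 u')) (hφ.indicator (t2 u')), integral_indicator (t1 _),
    integral_indicator (t2 _), integral_indicator (t1 _), integral_indicator (t2 _), int_iso,
    int_iso] at key
  have := hu.2 u' fun a => by
    simp only [hu', update_apply]
    split_ifs <;> simp [hu.1]
  simp only [F] at this
  linarith

theorem no_coin (hk : 0 < k) {u : ι → E n} (hu : Mi k j u) {c : E n} (h1 : ‖c‖ = 1)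
    (hc : ∀ a, ⟪c, u a⟫ = 0) {i l : ι} (hil : i ≠ l) : u i ≠ u l := fun e => by
  have hφ := integrable_gd hk j n
  have t1 := fun v : ι → E n => (isClosed_T v).measurableSet
  have m1 : T (update u i c) ⊆ T u := fun x hx a => by
    by_cases ha : a = i
    · simpa [ha, e, hil.symm] using hx l
    · simpa [ha] using hx a
  have key := pos_int ((hφ.indicator (t1 u)).sub (hφ.indicator (t1 (update u i c)))) (fun x =>
      sub_nonneg.2 (indicator_le_indicator_of_subset m1 (fun _ => (gd_pos hk j _).le) x))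
    (O := {x | (∀ a, ⟪u a, x⟫ < 1) ∧ 1 < ⟪c, x⟫}) (by
      simp only [ofPred_and, ofPred_forall]
      exact (isOpen_iInter_of_finite fun a => isOpen_lt (by fun_prop) continuous_const).inter
        (isOpen_lt continuous_const (by fun_prop)))
    ⟨(2 : ℝ) • c, fun a => by simp [inner_smul_right, real_inner_comm, hc], by
      simp [inner_smul_right, h1]⟩ fun x ⟨b1, b2⟩ => by
      have a1 : x ∈ T u := fun a => (b1 a).le
      have a2 : x ∉ T (update u i c) := fun h => b2.not_ge (by simpa using h i)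
      simpa [indicator, a1, a2] using gd_pos hk j _
  rw [integral_sub' (hφ.indicator (t1 u)) (hφ.indicator (t1 _)), integral_indicator (t1 _),
    integral_indicator (t1 _)] at key
  have := hu.2 (update u i c) fun a => by
    simp only [update_apply]
    split_ifs <;> simp [hu.1, h1]
  simp only [F] at this
  linarith

omit [Fintype ι] [DecidableEq ι] in
theorem isCompact_unit : IsCompact {u : ι → E n | ∀ i, ‖u i‖ = 1} := by
  convert isCompact_univ_pi fun _ : ι => isCompact_sphere (0 : E n) 1 using 1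
  ext u
  simp

theorem exists_span (hk : 0 < k) (hι : Fintype.card ι = m + 4) :
    ∃ u : ι → E (m + 3), Mi k j u ∧ ∀ c, (∀ i, ⟪c, u i⟫ = 0) → c = 0 := by
  obtain ⟨u₀, h1, h2⟩ := (isCompact_unit (ι := ι) (n := m + 3)).exists_isMinOn
    ⟨fun _ => EuclideanSpace.single 0 1, fun _ => by simp⟩ (f := F k j)
    (cont_T (integrable_gd hk j _)).continuousOn
  obtain ⟨_, ⟨u, hu, rfl⟩, hmax⟩ := (wellFounded_gt (α := Submodule ℝ (E (m + 3)))).has_min
    ((fun u => Submodule.span ℝ (range u)) '' {u : ι → E (m + 3) | Mi k j u})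
    ⟨_, u₀, ⟨h1, fun u' h' => h2 h'⟩, rfl⟩
  refine ⟨u, hu, fun c₀ hc₀ => by_contra fun h0 => ?_⟩
  obtain ⟨c, hc1, hc⟩ : ∃ c : E (m + 3), ‖c‖ = 1 ∧ ∀ i, ⟪c, u i⟫ = 0 :=
    ⟨‖c₀‖⁻¹ • c₀, norm_smul_inv_norm h0, fun i => by simp [inner_smul_left, hc₀]⟩
  have hs : ∀ x ∈ Submodule.span ℝ (range u), ⟪c, x⟫ = 0 := fun x hx =>
    Submodule.mem_orthogonal_singleton_iff_inner_right.1 (Submodule.span_le.2
      (range_subset_iff.2 fun i => Submodule.mem_orthogonal_singleton_iff_inner_right.2 (hc i)) hx)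
  obtain ⟨κ, a, ha, e1, hli⟩ := exists_linearIndependent' ℝ u
  have := Fintype.ofInjective a ha
  have r1 := Submodule.finrank_lt (s := Submodule.span ℝ (range u)) fun e => by
    have := hs c (e ▸ trivial)
    simp [hc1] at this
  rw [← e1, finrank_span_eq_card hli, finrank_euclideanSpace_fin] at r1
  obtain ⟨i, hi, l, hl, hil⟩ := Finset.one_lt_card.1 (show 1 < (Finset.univ.image a)ᶜ.card by
    rw [Finset.card_compl, Finset.card_image_of_injective _ ha, Finset.card_univ]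
    omega)
  simp only [Finset.mem_compl, Finset.mem_image, Finset.mem_univ, true_and, not_exists] at hi hl
  obtain ⟨t, ht, hX⟩ := sym hk j (w := rest u i l) hc1 (fun a => by
    simp only [rest]; split_ifs <;> simp [hc]) (hc i) (hc l) (hu.1 i).le (hu.1 l).le (l := 1 / 2)
    ⟨by norm_num, by norm_num⟩
  have v0 : ∀ s : ℝ, ⟪c, u i + s • (u l - u i)⟫ = 0 := fun s => by
    simp [inner_add_right, inner_smul_right, inner_sub_right, hc]
  have v1 : ∀ s ∈ Icc (0 : ℝ) 1, ‖u i + s • (u l - u i)‖ ≤ 1 := fun s hs => by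
    simpa [hu.1] using norm_seg (v₁ := u i) (v₂ := u l) hs
  have v2 : ∀ s ∈ Ioo (0 : ℝ) 1, ‖u i + s • (u l - u i)‖ < 1 := fun s hs => by
    rw [show u i + s • (u l - u i) = (1 - s) • u i + s • u l by module]
    exact norm_combo_lt_of_ne (hu.1 i).le (hu.1 l).le (no_coin hk hu hc1 hc hil)
      (sub_pos.2 hs.2) hs.1 (by ring)
  rw [show up c (u i) = u i by simp [up, hu.1], show up (-c) (u l) = u l by simp [up, hu.1],
    ← F_self u hil] at hX
  have hM := hu.pair hil (norm_up hc1 (v0 t) (v1 t ⟨ht.1, by linarith [ht.2]⟩))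
    (norm_up (c := -c) (by simpa) (by simpa using v0 _)
      (v1 (t + 1 / 2) ⟨by linarith [ht.1], by linarith [ht.2]⟩)) hX
  refine hmax _ ⟨_, hM, rfl⟩ (lt_of_le_not_ge ?_ fun hle => ?_)
  · refine e1.ge.trans (Submodule.span_mono (range_subset_iff.2 fun b => ⟨a b, ?_⟩))
    simp [hi b, hl b]
  · rcases ht.1.eq_or_lt with e | e
    · have := hs _ (hle (Submodule.subset_span ⟨l, rfl⟩))
      have h := inner_up_pos (c := -c) (by simpa) (by simpa using v0 _)
        (v2 (t + 1 / 2) ⟨by linarith, by linarith⟩)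
      rw [update_self] at this
      rw [inner_neg_left, this] at h
      simp at h
    · have := hs _ (hle (Submodule.subset_span ⟨i, rfl⟩))
      rw [update_of_ne hil, update_self] at this
      exact (inner_up_pos hc1 (v0 t) (v2 t ⟨e, by linarith [ht.2]⟩)).ne' this

end

end Pool.Agent.P.MP_bc3e0b_gt.Caps
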