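import Pool.Agent.P.MP_bc3e0b_gt.Caps.Slab

set_option autoImplicit false

namespace Pool.Agent.P.MP_bc3e0b_gt.Caps

section

/-! First variation of the mass and of the volume, with the key inequality. -/

open MeasureTheory Set Filter Topology Matrix
open scoped RealInnerProductSpace

variable {m : ℕ} {ι : Type} [Fintype ι]

theorem integrable_gd {k : ℝ} (hk : 0 < k) (j : ℝ) (n : ℕ) :
    Integrable fun x : E n => gd k j (‖x‖ ^ 2 / 2) := by
  have h := (gb_q hk j (ι := Empty) (m := n) (fun _ => 0) 0 0 0 (q := fun X => X ⬝ᵥ X / 2)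
    (by fun_prop) fun _ => le_rfl).2.2.1
  have := (PiLp.volume_preserving_ofLp (Fin n)).integrable_comp_of_integrable (gb_int h)
  refine this.congr (Eventually.of_forall fun x => ?_)
  simp only [EuclideanSpace.real_norm_sq_eq]
  simp [dotProduct, sq]

/-- The mass of the region. -/
noncomputable def Xi (k j : ℝ) {n : ℕ} (w : ι → E n) (p q : E n) : ℝ :=
  ∫ x in Sl w p q, gd k j (‖x‖ ^ 2 / 2)

variable (ob : OrthonormalBasis (Fin (m + 2)) ℝ (E (m + 2))) {w : ι → E (m + 2)}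

theorem deriv_Xi {k : ℝ} (hk : 0 < k) (j : ℝ) (hw : ∀ i, co ob (w i) 0 = 0) {p q : E (m + 2)}
    (hp : 0 < co ob p 0) (hq : co ob q 0 < 0) (hκ : 1 - ⟪p, q⟫ ≠ 0) {P Q : ℝ → E (m + 2)}
    (hP : P 0 = p) (hQ : Q 0 = q) {s t : ℝ}
    (dP : HasDerivAt P (s • (q - p + ((1 - ⟪p, q⟫) / co ob p 0) • ob 0)) 0)
    (dQ : HasDerivAt Q (t • (p - q + ((1 - ⟪p, q⟫) / co ob q 0) • ob 0)) 0) :
    HasDerivAt (fun θ => Xi k j w (P θ) (Q θ))
      (s * (1 - ⟪p, q⟫) / co ob p 0 ^ 2 * (dat ob p q).A j (fun i => Fin.tail (co ob (w i))) k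
        + t * (1 - ⟪p, q⟫) / co ob q 0 ^ 2
          * (dat ob p q).B j (fun i => Fin.tail (co ob (w i))) k) 0 := by
  have g0 : GB fun X : Fin (m + 1) → ℝ =>
      2 * k * Real.exp j * Real.exp (-(k / 2) * (X ⬝ᵥ X)) :=
    ⟨by fun_prop, 2 * k * Real.exp j, k / 2, by positivity, fun X => by
      rw [abs_of_pos (by positivity)]⟩
  have key := deriv_dat ob
    (μ := volume.restrict {X | ∀ i, Fin.tail (co ob (w i)) ⬝ᵥ X ≤ 1})
    Measure.restrict_le_self.absolutelyContinuous
    (Φ := fun X z => gd k j ((z ^ 2 + X ⬝ᵥ X) / 2)) (by unfold Function.uncurry; fun_prop)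
    (b := fun X => 2 * k * Real.exp j * Real.exp (-(k / 2) * (X ⬝ᵥ X)))
    (fun _ _ => (gd_pos hk _ _).le)
    (fun X z => (gd_le hk j _).trans (mul_le_mul_of_nonneg_left
      (Real.exp_le_exp.2 (by nlinarith [sq_nonneg z])) (by positivity)))
    (Integrable.integrableOn (((gb_int g0).add (integrable_finsetSum Finset.univ fun i _ =>
      (gb_int (g0.coord_mul i)).abs)).congr (Eventually.of_forall fun X => by
        simp only [Pi.add_apply, mul_add, mul_one, Finset.mul_sum]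
        congr 1
        refine Finset.sum_congr rfl fun i _ => ?_
        rw [abs_mul, abs_of_pos (a := _ * Real.exp _) (by positivity), mul_comm])))
    hp hq hκ hP hQ dP dQ
  set D := dat ob p q
  have i1 := (gb_int (D.gb_top (gb_q hk j (ι := Empty) (fun _ => 0) 0 0 0 D.continuous_q1
    D.q1_ge).2.2.1 (D.γ - 1) D.γ 0)).congr (g := fun X => (D.γ * (D.L1 X + D.L2 X) - D.L1 X)
      * gd k j (D.q1 X)) (Eventually.of_forall fun X => by simp only [zero_dotProduct]; ring)
  have i2 := (gb_int (D.gb_top (gb_q hk j (ι := Empty) (fun _ => 0) 0 0 0 D.continuous_q2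
    D.q2_ge).2.2.1 D.γ (D.γ - 1) 0)).congr (g := fun X => (D.γ * (D.L1 X + D.L2 X) - D.L2 X)
      * gd k j (D.q2 X)) (Eventually.of_forall fun X => by simp only [zero_dotProduct]; ring)
  refine (key.congr_deriv ?_).congr_of_eventuallyEq ?_
  · rw [Measure.restrict_restrict (isOpen_lt continuous_const (by fun_prop)).measurableSet,
      inter_comm, Dat.A, Dat.B, ← integral_const_mul, ← integral_const_mul,
      ← integral_add (i1.const_mul _).integrableOn (i2.const_mul _).integrableOn]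
    simp only [Dat.q1, Dat.q2, neg_sq]
  · have c1 : ContinuousAt (fun θ => co ob (P θ) 0) 0 :=
      ((continuous_apply 0).comp (continuous_co ob)).continuousAt.comp dP.continuousAt
    have c2 : ContinuousAt (fun θ => co ob (Q θ) 0) 0 :=
      ((continuous_apply 0).comp (continuous_co ob)).continuousAt.comp dQ.continuousAt
    filter_upwards [c1.eventually_const_lt (hP ▸ hp), c2.eventually_lt_const (hQ ▸ hq)]
      with θ h1 h2
    rw [Xi, int_Sl ob hw h1 h2 (integrable_gd hk j _).integrableOn]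
    simp only [norm_pt, dot_cons]

theorem key_div {P A B ν : ℝ} (hν : 0 < ν) (h : max (P + ν * A) 0 * max (P + ν * B) 0 ≤ P ^ 2) :
    max (P / ν + A) 0 * max (P / ν + B) 0 ≤ (P / ν) ^ 2 := by
  have e : ∀ A, max (P / ν + A) 0 = max (P + ν * A) 0 / ν := fun A => by
    rw [← max_div_div_right hν.le, zero_div, add_div, mul_div_cancel_left₀ _ hν.ne']
  rw [e, e, div_mul_div_comm, div_pow, sq ν]
  exact div_le_div_of_nonneg_right h (by positivity)

theorem xi_self (D : Dat m) (h : 0 < D.ν) (X : Fin (m + 1) → ℝ) :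
    D.xi (D.L1 X + D.L2 X) (Fin.tail X) = X := by
  funext i
  refine Fin.cases ?_ (fun i => rfl) i
  simp only [Dat.xi, Dat.L1, Dat.L2, Fin.cons_zero, add_dotProduct]
  rw [div_eq_iff h.ne']
  simp only [Dat.ν, dotProduct, Fin.sum_univ_succ, Fin.tail]
  ring

theorem ridge_low {k : ℝ} (hk : 0 < k) (j : ℝ) (hw : ∀ i, co ob (w i) 0 = 0) {p q x : E (m + 2)}
    (hp : 0 < co ob p 0) (hq : co ob q 0 < 0) (hν : 0 < (dat ob p q).ν) (h1 : ∀ i, ⟪w i, x⟫ < 1)
    (h2 : ⟪p, x⟫ = 1) (h3 : ⟪q, x⟫ = 1) :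
    ∃ π₀ : ℝ, 0 < π₀ ∧ ∀ᶠ r : E (m + 2) × E (m + 2) in 𝓝 (p, q),
      π₀ ≤ (dat ob r.1 r.2).Rg j (fun i => Fin.tail (co ob (w i))) k / (dat ob r.1 r.2).ν := by
  set W : (Fin (m + 1) → ℝ) → ℝ :=
    fun X => ∏ i, max 0 (min 1 (1 - Fin.tail (co ob (w i)) ⬝ᵥ X)) with hW
  have Wc : Continuous W := by fun_prop
  have W0 : ∀ X, 0 ≤ W X := fun X => Finset.prod_nonneg fun _ _ => le_max_left _ _
  have W1 : ∀ X, W X ≤ 1 := fun X => Finset.prod_le_one (fun _ _ => le_max_left _ _)
    fun _ _ => max_le zero_le_one (min_le_left _ _)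
  have hb : ∀ (D : Dat m) η, ‖W (D.xi 0 η) * gu k j (D.q1 (D.xi 0 η))‖
      ≤ Real.exp j * Real.exp (-(k / 2) * (η ⬝ᵥ η)) := fun D η => by
    rw [Real.norm_of_nonneg (mul_nonneg (W0 _) (gu_pos _ _ _).le)]
    refine (mul_le_of_le_one_left (gu_pos _ _ _).le (W1 _)).trans ((gu_le k j _).trans
      (mul_le_mul_of_nonneg_left (Real.exp_le_exp.2 ?_) (Real.exp_pos _).le))
    have h1 := D.q1_ge (D.xi 0 η)
    have h2 : D.xi 0 η ⬝ᵥ D.xi 0 η = D.xi 0 η 0 ^ 2 + η ⬝ᵥ η := dot_cons _ _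
    nlinarith [sq_nonneg (D.xi 0 η 0)]
  have ib := (integrable_gv m (half_pos hk)).const_mul (Real.exp j)
  have hi : ∀ D : Dat m, Integrable fun η => W (D.xi 0 η) * gu k j (D.q1 (D.xi 0 η)) := fun D =>
    ib.mono' (Continuous.aestronglyMeasurable (by fun_prop)) (Eventually.of_forall (hb D))
  have hp' := hp.ne'
  have hq' := (neg_pos.2 hq).ne'
  have cν : ContinuousAt (fun r : E (m + 2) × E (m + 2) => (dat ob r.1 r.2).ν) (p, q) := by
    simp only [Dat.ν, dat, Pi.smul_apply, Fin.tail, smul_eq_mul]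
    fun_prop (disch := assumption)
  have cx : ∀ η, ContinuousAt (fun r : E (m + 2) × E (m + 2) => (dat ob r.1 r.2).xi 0 η) (p, q) := by
    intro η
    refine ContinuousAt.finCons (ContinuousAt.div ?_ cν hν.ne') continuousAt_const
    simp only [dat]
    fun_prop (disch := assumption)
  have hc : ContinuousAt (fun r : E (m + 2) × E (m + 2) => (∫ η, W ((dat ob r.1 r.2).xi 0 η)
      * gu k j ((dat ob r.1 r.2).q1 ((dat ob r.1 r.2).xi 0 η))) / (dat ob r.1 r.2).ν) (p, q) := by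
    refine (continuousAt_of_dominated (Eventually.of_forall fun r => (hi _).1)
      (Eventually.of_forall fun r => Eventually.of_forall (hb _)) ib
      (Eventually.of_forall fun η => ?_)).div cν hν.ne'
    have := cx η
    refine (Wc.continuousAt.comp this).mul ((continuous_gu k j).continuousAt.comp ?_)
    have c1 : ContinuousAt (fun r : E (m + 2) × E (m + 2) => (dat ob r.1 r.2).n1) (p, q) := by
      simp only [dat]
      fun_prop (disch := assumption)
    have c2 : ContinuousAt (fun r : E (m + 2) × E (m + 2) => (dat ob r.1 r.2).v1) (p, q) := by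
      simp only [dat]
      fun_prop (disch := assumption)
    have c3 : Continuous fun a : ℝ × (Fin (m + 1) → ℝ) × (Fin (m + 1) → ℝ) =>
      ((a.1 - a.2.1 ⬝ᵥ a.2.2) ^ 2 + a.2.2 ⬝ᵥ a.2.2) / 2 := by fun_prop
    exact c3.continuousAt.comp (f := fun r : E (m + 2) × E (m + 2) => ((dat ob r.1 r.2).n1,
      (dat ob r.1 r.2).v1, (dat ob r.1 r.2).xi 0 η)) (c1.prodMk (c2.prodMk this))
  have e0 : pt ob (Fin.cons (co ob x 0) (Fin.tail (co ob x))) = x := by
    rw [Fin.cons_self_tail]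
    refine ob.repr.injective (WithLp.ofLp_injective 2 (funext fun i => ?_))
    simp [pt, co, ob.repr_apply_apply]
  have e1 : (dat ob p q).xi 0 (Fin.tail (Fin.tail (co ob x))) = Fin.tail (co ob x) := by
    rw [← e0, inner_cons] at h2 h3
    rw [← xi_self _ hν (Fin.tail (co ob x))]
    congr 1
    simp only [Dat.L1, Dat.L2, dat, smul_dotProduct, smul_eq_mul]
    have := hq.ne
    field_simp
    linear_combination (co ob q 0) * h2 - (co ob p 0) * h3
  have hpos : 0 < (∫ η, W ((dat ob p q).xi 0 η)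
      * gu k j ((dat ob p q).q1 ((dat ob p q).xi 0 η))) / (dat ob p q).ν := by
    refine div_pos (integral_pos_of_integrable_nonneg_nonzero (by fun_prop) (hi _)
      (fun η => mul_nonneg (W0 _) (gu_pos _ _ _).le) (x := Fin.tail (Fin.tail (co ob x)))
      (mul_pos ?_ (gu_pos _ _ _)).ne') hν
    rw [e1]
    refine Finset.prod_pos fun i _ => lt_max_of_lt_right (lt_min one_pos ?_)
    have := h1 i
    rw [← e0, inner_cons, hw] at this
    linarith
  refine ⟨_, half_pos hpos, ?_⟩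
  filter_upwards [hc.eventually_const_lt (half_lt_self hpos), cν.eventually_const_lt hν]
    with r h4 h5
  refine h4.le.trans (div_le_div_of_nonneg_right ?_ h5.le)
  have hS : MeasurableSet {η | ∀ i, Fin.tail (co ob (w i)) ⬝ᵥ (dat ob r.1 r.2).xi 0 η ≤ 1} :=
    ((dat ob r.1 r.2).continuous_xi 0).measurable (measurableSet_K _)
  rw [Dat.Rg, ← integral_indicator hS]
  refine integral_mono (hi _) ((gb_int (Dat.gb_ridge _ j hk)).indicator hS) fun η => ?_
  by_cases h : ∀ i, Fin.tail (co ob (w i)) ⬝ᵥ (dat ob r.1 r.2).xi 0 η ≤ 1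
  · rw [indicator_of_mem (by exact h)]
    exact mul_le_of_le_one_left (gu_pos _ _ _).le (W1 _)
  · rw [indicator_of_notMem (by exact h)]
    obtain ⟨i, hi⟩ := not_forall.1 h
    refine (mul_eq_zero_of_left (Finset.prod_eq_zero (Finset.mem_univ i) ?_) _).le
    exact max_eq_left ((min_le_right _ _).trans (by linarith))

omit [Fintype ι] in
theorem Sl_bound (hw : ∀ i, co ob (w i) 0 = 0) {p q : E (m + 2)} (hp : 0 < co ob p 0)
    (hq : co ob q 0 < 0) {R : ℝ} (hR : Sl w p q ⊆ Metric.closedBall 0 R) {X : Fin (m + 1) → ℝ}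
    (hX : ∀ i, Fin.tail (co ob (w i)) ⬝ᵥ X ≤ 1) {z : ℝ}
    (hz : z ∈ Icc (-(dat ob p q).L2 X) ((dat ob p q).L1 X)) : |z| ≤ R ∧ ‖X‖ ≤ R := by
  have h1 := mem_closedBall_zero_iff.1 (hR ((mem_Sl ob hw hp hq z X).2 ⟨hX, hz⟩))
  have h0 := (norm_nonneg _).trans h1
  have h2 := pow_le_pow_left₀ (norm_nonneg _) h1 2
  rw [norm_pt, dot_cons] at h2
  refine ⟨abs_le_of_sq_le_sq' (by linarith [dot_self_nonneg X]) h0 |> abs_le.2,
    (pi_norm_le_iff_of_nonneg h0).2 fun i => abs_le.2 (abs_le_of_sq_le_sq' ?_ h0)⟩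
  linarith [sq_le_dot X i, sq_nonneg z]

theorem vol_Sl (hw : ∀ i, co ob (w i) 0 = 0) {p q : E (m + 2)} (hp : 0 < co ob p 0)
    (hq : co ob q 0 < 0) {R : ℝ} (hR : Sl w p q ⊆ Metric.closedBall 0 R) :
    volume.real (Sl w p q) = ∫ X in {X | ∀ i, Fin.tail (co ob (w i)) ⬝ᵥ X ≤ 1}
      ∩ Metric.closedBall 0 R,
        ∫ _ in Icc (-(dat ob p q).L2 X) ((dat ob p q).L1 X), (1 : ℝ) := by
  have := int_Sl ob hw hp hq (G := fun _ => 1) (integrableOn_const
    ((measure_mono hR).trans_lt measure_closedBall_lt_top).ne)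
  rw [setIntegral_eq_of_subset_of_forall_sdiff_eq_zero (measurableSet_K _)
    (inter_subset_left (t := Metric.closedBall 0 R)) fun X hX => ?_] at this
  · simpa using this
  · rw [Set.not_nonempty_iff_eq_empty.1 fun ⟨z, hz⟩ => hX.2
      ⟨hX.1, mem_closedBall_zero_iff.2 (Sl_bound ob hw hp hq hR hX.1 hz).2⟩]
    simp

theorem deriv_vol (hw : ∀ i, co ob (w i) 0 = 0) (R : ℝ) : ∃ C : ℝ, ∀ p q : E (m + 2), ‖p‖ = 1 →
    ‖q‖ = 1 → 0 < co ob p 0 → co ob q 0 < 0 →
    (∀ᶠ r : E (m + 2) × E (m + 2) in 𝓝 (p, q), Sl w r.1 r.2 ⊆ Metric.closedBall 0 R) →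
    ∃ a b : ℝ, |a| ≤ C ∧ |b| ≤ C ∧
      a + b = (2 * (dat ob p q).γ - 1) * volume.real (Sl w p q) ∧
      ∀ (P Q : ℝ → E (m + 2)) (s t : ℝ), P 0 = p → Q 0 = q →
        HasDerivAt P (s • (q - p + ((1 - ⟪p, q⟫) / co ob p 0) • ob 0)) 0 →
        HasDerivAt Q (t • (p - q + ((1 - ⟪p, q⟫) / co ob q 0) • ob 0)) 0 →
        HasDerivAt (fun θ => volume.real (Sl w (P θ) (Q θ)))
          (s * (1 - ⟪p, q⟫) / co ob p 0 ^ 2 * a + t * (1 - ⟪p, q⟫) / co ob q 0 ^ 2 * b) 0 := by
  set S := {X | ∀ i, Fin.tail (co ob (w i)) ⬝ᵥ X ≤ 1} ∩ Metric.closedBall 0 R with hS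
  have hSm : MeasurableSet S := (measurableSet_K _).inter measurableSet_closedBall
  have hi : ∀ {f : (Fin (m + 1) → ℝ) → ℝ}, Continuous f → IntegrableOn f S := fun hf =>
    (hf.continuousOn.integrableOn_compact (isCompact_closedBall 0 R)).mono_set inter_subset_right
  refine ⟨2 * |R| * volume.real S, fun p q h1 h2 hp hq hR => ?_⟩
  obtain ⟨hκ, hc⟩ := dat_cvx ob h1 h2 hp hq
  have hR0 := hR.self_of_nhds
  set D := dat ob p q with hD
  have hU : MeasurableSet {X | 0 < D.L1 X + D.L2 X} :=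
    (isOpen_lt continuous_const (by fun_prop)).measurableSet
  have g0 : 0 ≤ D.γ := div_nonneg (mul_pos hp (neg_pos.2 hq)).le hκ.le
  have g1 : D.γ ≤ 1 / 2 := by have := hc 1 0; simp at this; linarith
  have hf : volume S < ⊤ := (measure_mono inter_subset_right).trans_lt measure_closedBall_lt_top
  have hb : ∀ f : (Fin (m + 1) → ℝ) → ℝ, (∀ X, f X = D.L1 X ∨ f X = D.L2 X) →
      |∫ X in {X | 0 < D.L1 X + D.L2 X} ∩ S, (D.γ * (D.L1 X + D.L2 X) - f X)|
        ≤ 2 * |R| * volume.real S := fun f hf' => by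
    rw [← Real.norm_eq_abs]
    refine (norm_setIntegral_le_of_norm_le_const (C := 2 * |R|)
      ((measure_mono inter_subset_right).trans_lt hf) fun X hX => ?_).trans
      (mul_le_mul_of_nonneg_left (measureReal_mono inter_subset_right hf.ne) (by positivity))
    have hL : 0 < D.L1 X + D.L2 X := hX.1
    have b1 := abs_le.1 (Sl_bound ob hw hp hq hR0 hX.2.1 (right_mem_Icc.2 (by linarith))).1
    have b2 := abs_le.1 (Sl_bound ob hw hp hq hR0 hX.2.1 (left_mem_Icc.2 (by linarith))).1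
    rw [← hD] at b1 b2
    have := le_abs_self R
    rw [Real.norm_eq_abs, abs_le]
    rcases hf' X with e | e <;> rw [e] <;> constructor <;>
      nlinarith [mul_nonneg g0 hL.le, mul_le_mul_of_nonneg_right g1 hL.le]
  have i1 : IntegrableOn (fun X => D.γ * (D.L1 X + D.L2 X) - D.L1 X)
    ({X | 0 < D.L1 X + D.L2 X} ∩ S) := (hi (by fun_prop)).mono_set inter_subset_right
  have i2 : IntegrableOn (fun X => D.γ * (D.L1 X + D.L2 X) - D.L2 X)
    ({X | 0 < D.L1 X + D.L2 X} ∩ S) := (hi (by fun_prop)).mono_set inter_subset_right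
  refine ⟨_, _, hb D.L1 fun _ => Or.inl rfl, hb D.L2 fun _ => Or.inr rfl, ?_,
    fun P Q s t hP hQ dP dQ => ?_⟩
  · rw [← integral_add i1 i2, vol_Sl ob hw hp hq hR0, ← integral_const_mul, ← hS, ← hD,
      ← Measure.restrict_restrict hU]
    refine (integral_indicator hU).symm.trans ?_
    congr 1
    funext X
    by_cases h : 0 < D.L1 X + D.L2 X
    · rw [indicator_of_mem (by exact h)]
      simp [max_eq_left h.le]
      ring
    · rw [indicator_of_notMem (by exact h)]
      simp [max_eq_right (not_lt.1 h)]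
  · have key := deriv_dat ob (μ := volume.restrict S)
      Measure.restrict_le_self.absolutelyContinuous (Φ := fun _ _ => 1) continuous_const
      (b := fun _ => 1) (fun _ _ => zero_le_one) (fun _ _ => le_rfl) (hi (by fun_prop))
      hp hq hκ.ne' hP hQ dP dQ
    refine (key.congr_deriv ?_).congr_of_eventuallyEq ?_
    · rw [Measure.restrict_restrict hU, ← integral_const_mul, ← integral_const_mul,
        ← integral_add (i1.const_mul _) (i2.const_mul _)]
      simp only [mul_one, hD]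
    · have c1 : ContinuousAt (fun θ => co ob (P θ) 0) 0 :=
        ((continuous_apply 0).comp (continuous_co ob)).continuousAt.comp dP.continuousAt
      have c2 : ContinuousAt (fun θ => co ob (Q θ) 0) 0 :=
        ((continuous_apply 0).comp (continuous_co ob)).continuousAt.comp dQ.continuousAt
      have c3 := (dP.continuousAt.prodMk dQ.continuousAt).tendsto
      simp only [hP, hQ] at c3
      filter_upwards [c1.eventually_const_lt (hP ▸ hp), c2.eventually_lt_const (hQ ▸ hq),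
        c3.eventually hR] with θ h1 h2 h3
      exact vol_Sl ob hw h1 h2 h3

end

section

/-! Continuity of the mass and the local symmetrisation of two facets. -/

open MeasureTheory Set Filter Topology
open scoped RealInnerProductSpace

variable {n m : ℕ} {ι : Type} [Fintype ι]

/-- The polyhedron with normals `u`, all facets at distance one when the normals are unit. -/
def T (u : ι → E n) : Set (E n) := {x | ∀ i, ⟪u i, x⟫ ≤ 1}

omit [Fintype ι] in
theorem isClosed_T (u : ι → E n) : IsClosed (T u) := by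
  simp only [T, ofPred_forall]
  exact isClosed_iInter fun i => isClosed_le (by fun_prop) continuous_const

theorem cont_T {G : E n → ℝ} (hG : Integrable G) :
    Continuous fun u : ι → E n => ∫ x in T u, G x := by
  refine continuous_iff_continuousAt.2 fun u => ?_
  simp only [← integral_indicator (isClosed_T _).measurableSet]
  refine continuousAt_of_dominated (bound := fun x => ‖G x‖)
    (Eventually.of_forall fun v => (hG.indicator (isClosed_T v).measurableSet).1)
    (Eventually.of_forall fun v => Eventually.of_forall fun x => norm_indicator_le_norm_self _ _)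
    hG.norm ?_
  have : ∀ᵐ x : E n, ∀ i, ⟪u i, x⟫ ≠ 1 :=
    ae_all_iff.2 fun i => null_level volume (innerSL ℝ (u i)).toLinearMap one_ne_zero
  filter_upwards [this] with x hx
  have hc : ∀ i, ContinuousAt (fun v : ι → E n => ⟪v i, x⟫) u := fun i =>
    Continuous.continuousAt (by fun_prop)
  refine continuousAt_const.congr (f := fun _ => (T u).indicator G x) ?_
  by_cases h : x ∈ T u
  · filter_upwards [eventually_all.2 fun i => (hc i).eventually_lt_const ((h i).lt_of_ne (hx i))]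
      with v hv
    rw [indicator_of_mem h, indicator_of_mem (show x ∈ T v from fun i => (hv i).le)]
  · obtain ⟨i, hi⟩ := not_forall.1 h
    filter_upwards [(hc i).eventually_const_lt (not_le.1 hi)] with v hv
    rw [indicator_of_notMem h, indicator_of_notMem (show x ∉ T v from fun h => (h i).not_gt hv)]

theorem cont_Sl {G : E n → ℝ} (hG : Integrable G) (w : ι → E n) :
    Continuous fun r : E n × E n => ∫ x in Sl w r.1 r.2, G x := by
  have e : ∀ p q, Sl w p q = T (Sum.elim w ![p, q]) := fun p q => by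
    ext x
    simp [Sl, T, Fin.forall_fin_two]
  simp only [e]
  refine (cont_T hG).comp (continuous_pi fun i => ?_)
  rcases i with i | i
  · exact continuous_const
  · simp only [Sum.elim_inr]
    fun_prop

theorem cont_Xi {k : ℝ} (hk : 0 < k) (j : ℝ) (w : ι → E n) :
    Continuous fun r : E n × E n => Xi k j w r.1 r.2 := cont_Sl (integrable_gd hk j n) w

omit [Fintype ι] in
theorem exists_perp (u : ι → E n) (s : Finset ι) (h : s.card < n) :
    ∃ c : E n, ‖c‖ = 1 ∧ ∀ i ∈ s, ⟪c, u i⟫ = 0 := by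
  classical
  have h1 : Module.finrank ℝ (Submodule.span ℝ (s.image u : Set (E n))) < n :=
    (finrank_span_finset_le_card _).trans_lt (Finset.card_image_le.trans_lt h)
  have h2 := Submodule.finrank_add_finrank_orthogonal (Submodule.span ℝ (s.image u : Set (E n)))
  rw [finrank_euclideanSpace_fin] at h2
  obtain ⟨x, hx, h0⟩ := Submodule.exists_mem_ne_zero_of_ne_bot
    (p := (Submodule.span ℝ (s.image u : Set (E n)))ᗮ) fun h => by
      rw [h, finrank_bot] at h2; omega
  refine ⟨‖x‖⁻¹ • x, norm_smul_inv_norm h0, fun i hi => ?_⟩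
  rw [real_inner_smul_left, Submodule.inner_left_of_mem_orthogonal
    (Submodule.subset_span (by simpa using ⟨i, hi, rfl⟩)) hx, mul_zero]

theorem exists_ob {c a : E (m + 2)} (hc : ‖c‖ = 1) (ha : ‖a‖ = 1) (h : ⟪c, a⟫ = 0) :
    ∃ ob : OrthonormalBasis (Fin (m + 2)) ℝ (E (m + 2)), ob 0 = c ∧ ob 1 = a := by
  obtain ⟨ob, hob⟩ := Orthonormal.exists_orthonormalBasis_extension_of_card_eq (𝕜 := ℝ)
    (E := E (m + 2)) (ι := Fin (m + 2)) (by simp) (v := fun i => if i = 0 then c else a)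
    (s := {0, 1}) (by
      refine ⟨fun i => ?_, fun i l hil => ?_⟩
      · simp only [domRestrict_apply]
        split_ifs <;> assumption
      · obtain ⟨i, rfl | rfl⟩ := i <;> obtain ⟨l, rfl | rfl⟩ := l <;>
          simp_all [real_inner_comm])
  exact ⟨ob, by simpa using hob 0 (by simp), by simpa using hob 1 (by simp)⟩

/-- The unit vector above `v` in the direction `c`. -/
noncomputable def up (c v : E n) : E n := v + √(1 - ‖v‖ ^ 2) • c

@[fun_prop] theorem continuous_up (c : E n) : Continuous (up c) := by unfold up; fun_prop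

theorem inner_up {c v : E n} (hc : ‖c‖ = 1) (hv : ⟪c, v⟫ = 0) :
    ⟪c, up c v⟫ = √(1 - ‖v‖ ^ 2) := by
  simp [up, inner_add_right, inner_smul_right, hv, hc]

theorem inner_up_pos {c v : E n} (hc : ‖c‖ = 1) (hv : ⟪c, v⟫ = 0) (h : ‖v‖ < 1) :
    0 < ⟪c, up c v⟫ := by
  rw [inner_up hc hv]
  exact Real.sqrt_pos.2 (by nlinarith [norm_nonneg v])

theorem norm_up {c v : E n} (hc : ‖c‖ = 1) (hv : ⟪c, v⟫ = 0) (h : ‖v‖ ≤ 1) : ‖up c v‖ = 1 := by
  have h1 : 0 ≤ 1 - ‖v‖ ^ 2 := by nlinarith [norm_nonneg v]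
  rw [← sq_eq_sq₀ (norm_nonneg _) zero_le_one, up, norm_add_sq_real, inner_smul_right,
    real_inner_comm, hv, norm_smul, hc, mul_one, Real.norm_eq_abs, sq_abs, Real.sq_sqrt h1]
  ring

theorem up_proj {c p : E n} (hc : ‖c‖ = 1) (hp : ‖p‖ = 1) (h : 0 ≤ ⟪c, p⟫) :
    ⟪c, p - ⟪c, p⟫ • c⟫ = 0 ∧ ‖p - ⟪c, p⟫ • c‖ ^ 2 = 1 - ⟪c, p⟫ ^ 2 ∧
      up c (p - ⟪c, p⟫ • c) = p := by
  have h2 : ‖p - ⟪c, p⟫ • c‖ ^ 2 = 1 - ⟪c, p⟫ ^ 2 := by
    rw [norm_sub_sq_real, inner_smul_right, real_inner_comm, hp, norm_smul, hc, mul_one,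
      Real.norm_eq_abs, sq_abs]
    ring
  refine ⟨by simp [inner_sub_right, inner_smul_right, hc], h2, ?_⟩
  rw [up, h2, sub_sub_cancel, Real.sqrt_sq h, sub_add_cancel]

theorem deriv_up {c v v' : E n} (hc : ‖c‖ = 1) (hv : ⟪c, v⟫ = 0) (hv' : ⟪c, v'⟫ = 0)
    (h : ‖v‖ < 1) (β : ℝ) : HasDerivAt (fun θ : ℝ => up c (v + θ • (v' - v)))
      ((1 : ℝ) • (v' + β • c - up c v + ((1 - ⟪up c v, v' + β • c⟫) / ⟪c, up c v⟫) • c)) 0 := by
  have h1 : 0 < 1 - ‖v‖ ^ 2 := by nlinarith [norm_nonneg v]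
  have d1 : HasDerivAt (fun θ : ℝ => v + θ • (v' - v)) (v' - v) 0 := by
    simpa using ((hasDerivAt_id (0 : ℝ)).smul_const (v' - v)).const_add v
  have d2 := (d1.norm_sq.const_sub 1).sqrt (by simpa using h1.ne')
  refine (d1.add (d2.smul_const c)).congr_deriv ?_
  have h2 := Real.sq_sqrt h1.le
  have h3 := (Real.sqrt_pos.2 h1).ne'
  rw [inner_up hc hv]
  simp only [up, zero_smul, add_zero, one_smul, inner_add_left, inner_add_right, inner_smul_left,
    inner_smul_right, inner_sub_right, hv', real_inner_self_eq_norm_sq, hc, real_inner_comm c v, hv,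
    conj_trivial]
  generalize √(1 - ‖v‖ ^ 2) = r at *
  have : -(2 * (⟪v, v'⟫ - ‖v‖ ^ 2)) / (2 * r)
      = β - r + (1 - (⟪v, v'⟫ + β * 0 + (r * 0 + β * (r * 1 ^ 2)))) / r := by
    field_simp
    linear_combination h2
  rw [this]
  module

theorem moves {c v v' : E n} (hc : ‖c‖ = 1) (hv : ⟪c, v⟫ = 0) (hv' : ⟪c, v'⟫ = 0)
    (h : ‖v‖ < 1) (h' : ‖v'‖ < 1) : HasDerivAt (fun θ : ℝ => up c (v + θ • (v' - v)))
      ((1 : ℝ) • (up (-c) v' - up c v + ((1 - ⟪up c v, up (-c) v'⟫) / ⟪c, up c v⟫) • c)) 0 ∧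
    HasDerivAt (fun θ : ℝ => up (-c) (v' + θ • (v - v')))
      ((1 : ℝ) • (up c v - up (-c) v' + ((1 - ⟪up c v, up (-c) v'⟫) / ⟪c, up (-c) v'⟫) • c)) 0 := by
  constructor
  · have := deriv_up hc hv hv' h (-√(1 - ‖v'‖ ^ 2))
    rwa [neg_smul, ← smul_neg] at this
  · have := deriv_up (c := -c) (by simpa using hc) (by simpa using hv') (by simpa using hv) h'
      (-√(1 - ‖v‖ ^ 2))
    rwa [neg_smul_neg, inner_neg_left, div_neg, neg_smul_neg, real_inner_comm] at this

theorem deriv_nonneg_of_min {f : ℝ → ℝ} {f' : ℝ} (h : HasDerivAt f f' 0)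
    (hm : ∀ᶠ θ in 𝓝[>] 0, f 0 ≤ f θ) : 0 ≤ f' := by
  refine ge_of_tendsto h.tendsto_slope_zero_right ?_
  filter_upwards [hm, self_mem_nhdsWithin] with θ h1 h2
  rw [zero_add]
  exact smul_nonneg (inv_pos.2 h2).le (sub_nonneg.2 h1)

end

end Pool.Agent.P.MP_bc3e0b_gt.Caps
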